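import Mathlib

/-!
# Claws in connected graphs without an induced subdivided claw `S_{1,1,3}` (MP_9c2a19_lc)
-/

set_option autoImplicit false

namespace Pool.Agent.H98.GI

/-- The subdivided claw `S_{1,1,3}`: centre `0`, pendant leaves `1`, `2`, path `0 - 3 - 4 - 5`. -/
def S113 : SimpleGraph (Fin 6) := SimpleGraph.fromEdgeSet {s(0, 1), s(0, 2), s(0, 3), s(3, 4), s(4, 5)}

/-- `G` has no induced subgraph isomorphic to `S_{1,1,3}` -/
def S113Free {V : Type*} (G : SimpleGraph V) : Prop := ¬ Nonempty (S113 ↪g G)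

/-- `v` is the centre of a claw with the leaves `a`, `b`, `c` -/
structure Claw {V : Type*} (G : SimpleGraph V) (v a b c : V) : Prop where
  va : G.Adj v a
  vb : G.Adj v b
  vc : G.Adj v c
  ab : a ≠ b
  ac : a ≠ c
  bc : b ≠ c
  nab : ¬ G.Adj a b
  nac : ¬ G.Adj a c
  nbc : ¬ G.Adj b c

variable {V : Type*} {G : SimpleGraph V}

/-- an induced `S_{1,1,3}` from its vertices -/
theorem S113Free.out (hS : S113Free G) (c l m x y z : V) (h1 : G.Adj c l) (h2 : G.Adj c m) (h3 : G.Adj c x)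
    (h4 : G.Adj x y) (h5 : G.Adj y z) (hlm : l ≠ m) (n1 : ¬ G.Adj l m) (n2 : ¬ G.Adj l x) (n3 : ¬ G.Adj l y)
    (n4 : ¬ G.Adj l z) (n5 : ¬ G.Adj m x) (n6 : ¬ G.Adj m y) (n7 : ¬ G.Adj m z) (n8 : ¬ G.Adj c y)
    (n9 : ¬ G.Adj c z) (n10 : ¬ G.Adj x z) : False := by
  refine hS ⟨⟨⟨![c, l, m, x, y, z], ?_⟩, ?_⟩⟩
  · have e1 : c ≠ l := h1.ne
    have e2 : c ≠ m := h2.ne
    have e3 : c ≠ x := h3.ne
    have e4 : c ≠ y := fun h => n3 (h ▸ h1.symm)
    have e5 : c ≠ z := fun h => n4 (h ▸ h1.symm)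
    have e6 : l ≠ x := fun h => n3 (h ▸ h4)
    have e7 : l ≠ y := fun h => n8 (h ▸ h1)
    have e8 : l ≠ z := fun h => n9 (h ▸ h1)
    have e9 : m ≠ x := fun h => n6 (h ▸ h4)
    have e10 : m ≠ y := fun h => n8 (h ▸ h2)
    have e11 : m ≠ z := fun h => n9 (h ▸ h2)
    have e12 : x ≠ y := h4.ne
    have e13 : x ≠ z := fun h => n9 (h ▸ h3)
    have e14 : y ≠ z := h5.ne
    intro i j hij
    fin_cases i <;> fin_cases j <;> simp_all
  · intro i j
    have s1 := h1.symm
    have s2 := h2.symm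
    have s3 := h3.symm
    have s4 := h4.symm
    have s5 := h5.symm
    have m1 : ¬ G.Adj m l := fun h => n1 h.symm
    have m2 : ¬ G.Adj x l := fun h => n2 h.symm
    have m3 : ¬ G.Adj y l := fun h => n3 h.symm
    have m4 : ¬ G.Adj z l := fun h => n4 h.symm
    have m5 : ¬ G.Adj x m := fun h => n5 h.symm
    have m6 : ¬ G.Adj y m := fun h => n6 h.symm
    have m7 : ¬ G.Adj z m := fun h => n7 h.symm
    have m8 : ¬ G.Adj y c := fun h => n8 h.symm
    have m9 : ¬ G.Adj z c := fun h => n9 h.symm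
    have m10 : ¬ G.Adj z x := fun h => n10 h.symm
    fin_cases i <;> fin_cases j <;> simp [S113, *]

/-- the vertex before `x` on a shortest path from `v` to `x` -/
theorem pred (hG : G.Connected) {v x : V} {n : ℕ} (h : G.dist v x = n + 1) : ∃ y, G.Adj y x ∧ G.dist v y = n := by
  rw [SimpleGraph.dist_comm] at h
  obtain ⟨p, hp⟩ := hG.exists_walk_length_eq_dist x v
  rw [h] at hp
  cases p with
  | nil => simp at hp
  | @cons _ y _ hxy q =>
    rw [SimpleGraph.Walk.length_cons] at hp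
    refine ⟨y, hxy.symm, ?_⟩
    have h1 : G.dist y v ≤ n := by
      have := SimpleGraph.dist_le q
      omega
    have h2 : G.dist x v ≤ G.dist x y + G.dist y v := hG.dist_triangle
    have h3 : G.dist x y = 1 := SimpleGraph.dist_eq_one_iff_adj.2 hxy
    rw [SimpleGraph.dist_comm]
    omega

theorem nadj (hG : G.Connected) {v x y : V} (h : G.dist v x + 2 ≤ G.dist v y) : ¬ G.Adj x y := by
  intro hxy
  have h2 : G.dist v y ≤ G.dist v x + G.dist x y := hG.dist_triangle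
  have h3 : G.dist x y = 1 := SimpleGraph.dist_eq_one_iff_adj.2 hxy
  omega

theorem adj_le (hG : G.Connected) {u x y : V} (h : G.Adj x y) : G.dist u y ≤ G.dist u x + 1 := by
  have h2 : G.dist u y ≤ G.dist u x + G.dist x y := hG.dist_triangle
  have h3 : G.dist x y = 1 := SimpleGraph.dist_eq_one_iff_adj.2 h
  omega

/-- a shortest path from `v` -/
structure Geo (G : SimpleGraph V) (v p1 p2 p3 : V) : Prop where
  h1 : G.Adj v p1
  h2 : G.Adj p1 p2
  h3 : G.Adj p2 p3
  d2 : G.dist v p2 = 2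
  d3 : G.dist v p3 = 3

theorem exists_geo (hG : G.Connected) {v x : V} (h : G.dist v x = 3) : ∃ p1 p2, Geo G v p1 p2 x := by
  obtain ⟨p2, h2, d2⟩ := pred hG (n := 2) h
  obtain ⟨p1, h1, d1⟩ := pred hG (n := 1) d2
  exact ⟨p1, p2, SimpleGraph.dist_eq_one_iff_adj.1 d1, h1, h2, d2, h⟩

section

variable (hG : G.Connected) (hS : S113Free G)

include hG hS

/-- two leaves which are not adjacent to `p2`, and a third one which is -/
theorem L1 {v p1 p2 p3 a b c : V} (g : Geo G v p1 p2 p3) (h : Claw G v a b c) (ha : ¬ G.Adj a p2)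
    (hb : ¬ G.Adj b p2) (hc : G.Adj c p2) : False := by
  have da : G.dist v a = 1 := SimpleGraph.dist_eq_one_iff_adj.2 h.va
  have db : G.dist v b = 1 := SimpleGraph.dist_eq_one_iff_adj.2 h.vb
  have dc : G.dist v c = 1 := SimpleGraph.dist_eq_one_iff_adj.2 h.vc
  have dv : G.dist v v = 0 := SimpleGraph.dist_self
  have d2 := g.d2
  have d3 := g.d3
  exact hS.out v a b c p2 p3 h.va h.vb h.vc hc g.h3 h.ab h.nab h.nac ha (nadj hG (v := v) (by omega)) h.nbc hb
    (nadj hG (v := v) (by omega)) (nadj hG (v := v) (by omega)) (nadj hG (v := v) (by omega))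
    (nadj hG (v := v) (by omega))

/-- two leaves away from `p1` and `p2` -/
theorem L2 {v p1 p2 p3 a b : V} (g : Geo G v p1 p2 p3) (hva : G.Adj v a) (hvb : G.Adj v b) (hab : a ≠ b)
    (nab : ¬ G.Adj a b) (ha1 : ¬ G.Adj a p1) (hb1 : ¬ G.Adj b p1) (ha : ¬ G.Adj a p2)
    (hb : ¬ G.Adj b p2) : False := by
  have da : G.dist v a = 1 := SimpleGraph.dist_eq_one_iff_adj.2 hva
  have db : G.dist v b = 1 := SimpleGraph.dist_eq_one_iff_adj.2 hvb
  have d1 : G.dist v p1 = 1 := SimpleGraph.dist_eq_one_iff_adj.2 g.h1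
  have dv : G.dist v v = 0 := SimpleGraph.dist_self
  have d2 := g.d2
  have d3 := g.d3
  exact hS.out v a b p1 p2 p3 hva hvb g.h1 g.h2 g.h3 hab nab ha1 ha (nadj hG (v := v) (by omega)) hb1 hb
    (nadj hG (v := v) (by omega)) (nadj hG (v := v) (by omega)) (nadj hG (v := v) (by omega))
    (nadj hG (v := v) (by omega))

/-- two leaves adjacent to `p1` and not to `p2` -/
theorem L3 {v p1 p2 p3 p4 a b : V} (g : Geo G v p1 p2 p3) (h4 : G.Adj p3 p4) (d4 : G.dist v p4 = 4)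
    (hva : G.Adj v a) (hvb : G.Adj v b) (hab : a ≠ b) (nab : ¬ G.Adj a b) (ha1 : G.Adj a p1) (hb1 : G.Adj b p1)
    (ha : ¬ G.Adj a p2) (hb : ¬ G.Adj b p2) : False := by
  have da : G.dist v a = 1 := SimpleGraph.dist_eq_one_iff_adj.2 hva
  have db : G.dist v b = 1 := SimpleGraph.dist_eq_one_iff_adj.2 hvb
  have d1 : G.dist v p1 = 1 := SimpleGraph.dist_eq_one_iff_adj.2 g.h1
  have d2 := g.d2
  have d3 := g.d3
  exact hS.out p1 a b p2 p3 p4 ha1.symm hb1.symm g.h2 g.h3 h4 hab nab ha (nadj hG (v := v) (by omega))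
    (nadj hG (v := v) (by omega)) hb (nadj hG (v := v) (by omega)) (nadj hG (v := v) (by omega))
    (nadj hG (v := v) (by omega)) (nadj hG (v := v) (by omega)) (nadj hG (v := v) (by omega))

/-- at most one leaf is not adjacent to `p2` -/
theorem L4 {v p1 p2 p3 p4 a b c : V} (g : Geo G v p1 p2 p3) (h4 : G.Adj p3 p4) (d4 : G.dist v p4 = 4)
    (h : Claw G v a b c) (ha : ¬ G.Adj a p2) (hb : ¬ G.Adj b p2) : False := by
  by_cases hc : G.Adj c p2
  · exact L1 hG hS g h ha hb hc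
  · by_cases a1 : G.Adj a p1
    · by_cases b1 : G.Adj b p1
      · exact L3 hG hS g h4 d4 h.va h.vb h.ab h.nab a1 b1 ha hb
      · by_cases c1 : G.Adj c p1
        · exact L3 hG hS g h4 d4 h.va h.vc h.ac h.nac a1 c1 ha hc
        · exact L2 hG hS g h.vb h.vc h.bc h.nbc b1 c1 hb hc
    · by_cases b1 : G.Adj b p1
      · by_cases c1 : G.Adj c p1
        · exact L3 hG hS g h4 d4 h.vb h.vc h.bc h.nbc b1 c1 hb hc
        · exact L2 hG hS g h.va h.vc h.ac h.nac a1 c1 ha hc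
      · exact L2 hG hS g h.va h.vb h.ab h.nab a1 b1 ha hb

omit hG hS in
theorem Claw.swap23 {v a b c : V} (h : Claw G v a b c) : Claw G v a c b :=
  ⟨h.va, h.vc, h.vb, h.ac, h.ab, h.bc.symm, h.nac, h.nab, fun h' => h.nbc h'.symm⟩

omit hG hS in
theorem Claw.rot {v a b c : V} (h : Claw G v a b c) : Claw G v b c a :=
  ⟨h.vb, h.vc, h.va, h.bc, h.ab.symm, h.ac.symm, h.nbc, fun h' => h.nab h'.symm, fun h' => h.nac h'.symm⟩

/-- two of three leaves are adjacent to `p2` -/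
theorem two4 {v p1 p2 p3 p4 a b c : V} (g : Geo G v p1 p2 p3) (h4 : G.Adj p3 p4) (d4 : G.dist v p4 = 4)
    (h : Claw G v a b c) : (G.Adj a p2 ∧ G.Adj b p2) ∨ (G.Adj a p2 ∧ G.Adj c p2) ∨ (G.Adj b p2 ∧ G.Adj c p2) := by
  by_cases ha : G.Adj a p2
  · by_cases hb : G.Adj b p2
    · exact Or.inl ⟨ha, hb⟩
    · by_cases hc : G.Adj c p2
      · exact Or.inr (Or.inl ⟨ha, hc⟩)
      · exact (L4 hG hS g h4 d4 h.rot hb hc).elim
  · by_cases hb : G.Adj b p2
    · by_cases hc : G.Adj c p2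
      · exact Or.inr (Or.inr ⟨hb, hc⟩)
      · exact (L4 hG hS g h4 d4 h.swap23 ha hc).elim
    · exact (L4 hG hS g h4 d4 h ha hb).elim

/-- two leaves adjacent to `p2`, and `p5` -/
theorem L5 {v p1 p2 p3 p4 p5 a b : V} (g : Geo G v p1 p2 p3) (h4 : G.Adj p3 p4) (d4 : G.dist v p4 = 4)
    (h5 : G.Adj p4 p5) (d5 : G.dist v p5 = 5) (hva : G.Adj v a) (hvb : G.Adj v b) (hab : a ≠ b)
    (nab : ¬ G.Adj a b) (ha : G.Adj a p2) (hb : G.Adj b p2) : False := by
  have da : G.dist v a = 1 := SimpleGraph.dist_eq_one_iff_adj.2 hva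
  have db : G.dist v b = 1 := SimpleGraph.dist_eq_one_iff_adj.2 hvb
  have d2 := g.d2
  have d3 := g.d3
  exact hS.out p2 a b p3 p4 p5 ha.symm hb.symm g.h3 h4 h5 hab nab (nadj hG (v := v) (by omega))
    (nadj hG (v := v) (by omega)) (nadj hG (v := v) (by omega)) (nadj hG (v := v) (by omega))
    (nadj hG (v := v) (by omega)) (nadj hG (v := v) (by omega)) (nadj hG (v := v) (by omega))
    (nadj hG (v := v) (by omega)) (nadj hG (v := v) (by omega))

/-- a claw centre has no vertex at distance `5` -/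
theorem no5 {v x a b c : V} (h : Claw G v a b c) (hx : G.dist v x = 5) : False := by
  obtain ⟨p4, h5, d4⟩ := pred hG (n := 4) hx
  obtain ⟨p3, h4, d3⟩ := pred hG (n := 3) d4
  obtain ⟨p1, p2, g⟩ := exists_geo hG d3
  rcases two4 hG hS g h4 d4 h with ⟨h6, h7⟩ | ⟨h6, h7⟩ | ⟨h6, h7⟩
  · exact L5 hG hS g h4 d4 h5 hx h.va h.vb h.ab h.nab h6 h7
  · exact L5 hG hS g h4 d4 h5 hx h.va h.vc h.ac h.nac h6 h7
  · exact L5 hG hS g h4 d4 h5 hx h.vb h.vc h.bc h.nbc h6 h7

/-- every claw centre has eccentricity at most `4` -/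
theorem ecc {v a b c : V} (h : Claw G v a b c) (x : V) : G.dist v x ≤ 4 := by
  by_contra hx
  have key : ∀ n x, G.dist v x = n + 5 → False := by
    intro n
    induction n with
    | zero => exact fun x hx => no5 hG hS h hx
    | succ n ih =>
      intro x hx
      obtain ⟨y, _, hy⟩ := pred hG (n := n + 5) (by omega : G.dist v x = n + 5 + 1)
      exact ih y hy
  exact key (G.dist v x - 5) x (by omega)

/-- two of three leaves have distance at most `3` from any vertex -/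
theorem two3 {v a b c : V} (h : Claw G v a b c) (x : V) :
    (G.dist x a ≤ 3 ∧ G.dist x b ≤ 3) ∨ (G.dist x a ≤ 3 ∧ G.dist x c ≤ 3) ∨
      (G.dist x b ≤ 3 ∧ G.dist x c ≤ 3) := by
  have hx := ecc hG hS h x
  have hvx : G.dist x v = G.dist v x := SimpleGraph.dist_comm
  by_cases h2 : G.dist v x ≤ 2
  · have ha := adj_le hG (u := x) h.va
    have hb := adj_le hG (u := x) h.vb
    exact Or.inl ⟨by omega, by omega⟩
  by_cases h3 : G.dist v x = 3
  · obtain ⟨p1, p2, g⟩ := exists_geo hG h3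
    have hp2 : G.dist x p2 = 1 := SimpleGraph.dist_eq_one_iff_adj.2 g.h3.symm
    have hp1 : G.dist x p1 ≤ 2 := by
      have := adj_le hG (u := x) g.h2.symm
      omega
    have good : ∀ u, (G.Adj u p1 ∨ G.Adj u p2) → G.dist x u ≤ 3 := by
      rintro u (hu | hu)
      · have := adj_le hG (u := x) hu.symm
        omega
      · have := adj_le hG (u := x) hu.symm
        omega
    by_cases ga : G.Adj a p1 ∨ G.Adj a p2
    · by_cases gb : G.Adj b p1 ∨ G.Adj b p2
      · exact Or.inl ⟨good a ga, good b gb⟩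
      · by_cases gc : G.Adj c p1 ∨ G.Adj c p2
        · exact Or.inr (Or.inl ⟨good a ga, good c gc⟩)
        · exact (L2 hG hS g h.vb h.vc h.bc h.nbc (fun h' => gb (Or.inl h')) (fun h' => gc (Or.inl h'))
            (fun h' => gb (Or.inr h')) (fun h' => gc (Or.inr h'))).elim
    · by_cases gb : G.Adj b p1 ∨ G.Adj b p2
      · by_cases gc : G.Adj c p1 ∨ G.Adj c p2
        · exact Or.inr (Or.inr ⟨good b gb, good c gc⟩)
        · exact (L2 hG hS g h.va h.vc h.ac h.nac (fun h' => ga (Or.inl h')) (fun h' => gc (Or.inl h'))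
            (fun h' => ga (Or.inr h')) (fun h' => gc (Or.inr h'))).elim
      · exact (L2 hG hS g h.va h.vb h.ab h.nab (fun h' => ga (Or.inl h')) (fun h' => gb (Or.inl h'))
          (fun h' => ga (Or.inr h')) (fun h' => gb (Or.inr h'))).elim
  · have h4 : G.dist v x = 4 := by omega
    obtain ⟨p3, h5, d3⟩ := pred hG (n := 3) h4
    obtain ⟨p1, p2, g⟩ := exists_geo hG d3
    have hp3 : G.dist x p3 = 1 := SimpleGraph.dist_eq_one_iff_adj.2 h5.symm
    have hp2 : G.dist x p2 ≤ 2 := by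
      have := adj_le hG (u := x) g.h3.symm
      omega
    have good : ∀ u, G.Adj u p2 → G.dist x u ≤ 3 := by
      intro u hu
      have := adj_le hG (u := x) hu.symm
      omega
    rcases two4 hG hS g h5 h4 h with ⟨h6, h7⟩ | ⟨h6, h7⟩ | ⟨h6, h7⟩
    · exact Or.inl ⟨good _ h6, good _ h7⟩
    · exact Or.inr (Or.inl ⟨good _ h6, good _ h7⟩)
    · exact Or.inr (Or.inr ⟨good _ h6, good _ h7⟩)

/-- if there is a claw then all distances are at most `6` -/
theorem diam {v a b c : V} (h : Claw G v a b c) (x y : V) : G.dist x y ≤ 6 := by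
  have key : ∀ u, G.dist x u ≤ 3 → G.dist y u ≤ 3 → G.dist x y ≤ 6 := by
    intro u hx hy
    have h1 : G.dist x y ≤ G.dist x u + G.dist u y := hG.dist_triangle
    have h2 : G.dist u y = G.dist y u := SimpleGraph.dist_comm
    omega
  rcases two3 hG hS h x with ⟨h1, h2⟩ | ⟨h1, h2⟩ | ⟨h1, h2⟩ <;>
    rcases two3 hG hS h y with ⟨h3, h4⟩ | ⟨h3, h4⟩ | ⟨h3, h4⟩
  · exact key _ h1 h3
  · exact key _ h1 h3
  · exact key _ h2 h3
  · exact key _ h1 h3
  · exact key _ h1 h3
  · exact key _ h2 h4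
  · exact key _ h1 h4
  · exact key _ h2 h4
  · exact key _ h1 h3

end

/-- Ramsey's theorem for triangles -/
theorem ramsey (s : Finset V) (hs : 6 ≤ s.card) :
    (∃ a ∈ s, ∃ b ∈ s, ∃ c ∈ s, G.Adj a b ∧ G.Adj a c ∧ G.Adj b c) ∨
    ∃ a ∈ s, ∃ b ∈ s, ∃ c ∈ s, a ≠ b ∧ a ≠ c ∧ b ≠ c ∧ ¬ G.Adj a b ∧ ¬ G.Adj a c ∧ ¬ G.Adj b c := by
  classical
  obtain ⟨u, hu⟩ : s.Nonempty := Finset.card_pos.1 (by omega)
  have h1 : (s.erase u).card = s.card - 1 := Finset.card_erase_of_mem hu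
  have h2 := Finset.card_filter_add_card_filter_not (s := s.erase u) (fun w => G.Adj u w)
  rcases le_or_gt 3 ((s.erase u).filter fun w => G.Adj u w).card with h3 | h3
  · obtain ⟨a, ha, b, hb, c, hc, hab, hac, hbc⟩ := Finset.two_lt_card.1 h3
    simp only [Finset.mem_filter, Finset.mem_erase] at ha hb hc
    by_cases e1 : G.Adj a b
    · exact Or.inl ⟨u, hu, a, ha.1.2, b, hb.1.2, ha.2, hb.2, e1⟩
    by_cases e2 : G.Adj a c
    · exact Or.inl ⟨u, hu, a, ha.1.2, c, hc.1.2, ha.2, hc.2, e2⟩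
    by_cases e3 : G.Adj b c
    · exact Or.inl ⟨u, hu, b, hb.1.2, c, hc.1.2, hb.2, hc.2, e3⟩
    exact Or.inr ⟨a, ha.1.2, b, hb.1.2, c, hc.1.2, hab, hac, hbc, e1, e2, e3⟩
  · have h4 : 2 < ((s.erase u).filter fun w => ¬ G.Adj u w).card := by omega
    obtain ⟨a, ha, b, hb, c, hc, hab, hac, hbc⟩ := Finset.two_lt_card.1 h4
    simp only [Finset.mem_filter, Finset.mem_erase] at ha hb hc
    by_cases e1 : G.Adj a b
    · by_cases e2 : G.Adj a c
      · by_cases e3 : G.Adj b c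
        · exact Or.inl ⟨a, ha.1.2, b, hb.1.2, c, hc.1.2, e1, e2, e3⟩
        · exact Or.inr ⟨u, hu, b, hb.1.2, c, hc.1.2, hb.1.1.symm, hc.1.1.symm, hbc, hb.2, hc.2, e3⟩
      · exact Or.inr ⟨u, hu, a, ha.1.2, c, hc.1.2, ha.1.1.symm, hc.1.1.symm, hac, ha.2, hc.2, e2⟩
    · exact Or.inr ⟨u, hu, a, ha.1.2, b, hb.1.2, ha.1.1.symm, hb.1.1.symm, hab, ha.2, hb.2, e1⟩

/-- a vertex which is not the centre of a claw has degree at most `5` in a graph without `K_4` -/
theorem deg (hK : G.CliqueFree 4) (v : V) (hv : ∀ a b c, ¬ Claw G v a b c) : (G.neighborSet v).encard ≤ 5 := by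
  classical
  by_contra hcon
  rw [not_le] at hcon
  have h6 : (6 : ℕ∞) ≤ (G.neighborSet v).encard := by
    have := Order.add_one_le_of_lt hcon
    exact this
  obtain ⟨t, ht, htc⟩ := Set.exists_subset_encard_eq h6
  have hfin : t.Finite := Set.finite_of_encard_eq_coe (k := 6) htc
  obtain ⟨s, rfl⟩ := hfin.exists_finset_coe
  have hs : s.card = 6 := by
    rw [Set.encard_coe_eq_coe_finsetCard] at htc
    exact_mod_cast htc
  rcases ramsey (G := G) s hs.ge with ⟨a, ha, b, hb, c, hc, h1, h2, h3⟩ |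
    ⟨a, ha, b, hb, c, hc, h1, h2, h3, h4, h5, h6⟩
  · have va : G.Adj v a := ht ha
    have vb : G.Adj v b := ht hb
    have vc : G.Adj v c := ht hc
    refine hK {v, a, b, c} ?_
    rw [SimpleGraph.isNClique_iff]
    constructor
    · intro x hx y hy hxy
      simp only [Finset.coe_insert, Finset.coe_singleton, Set.mem_insert_iff, Set.mem_singleton_iff] at hx hy
      rcases hx with rfl | rfl | rfl | rfl <;> rcases hy with rfl | rfl | rfl | rfl <;>
        first | exact absurd rfl hxy | assumption | (apply SimpleGraph.Adj.symm; assumption)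
    · rw [Finset.card_insert_of_notMem, Finset.card_insert_of_notMem, Finset.card_insert_of_notMem,
        Finset.card_singleton]
      · simpa using h3.ne
      · simpa using ⟨h1.ne, h2.ne⟩
      · simpa using ⟨va.ne, vb.ne, vc.ne⟩
  · exact hv a b c ⟨ht ha, ht hb, ht hc, h1, h2, h3, h4, h5, h6⟩

end Pool.Agent.H98.GI
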