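import Pool.Agent.H98.GI.Five

/-!
# Connected `(K_4, S_{1,1,3})`-free graphs without an induced `K_{2,t}`
-/

set_option autoImplicit false

namespace Pool.Agent.H98.GI

variable {V : Type*} {G : SimpleGraph V}

/-- sets of vertices without an independent subset of `m` elements are small in graphs without `K_4` -/
theorem ramsey4 (hK : G.CliqueFree 4) (m : ℕ) : ∀ s : Finset V, m * (m + 1) * (m + 2) ≤ 3 * s.card →
    ∃ I ⊆ s, I.card = m ∧ ∀ a ∈ I, ∀ b ∈ I, ¬ G.Adj a b := by
  classical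
  induction m with
  | zero => exact fun s _ => ⟨∅, Finset.empty_subset _, rfl, fun a ha => absurd ha (Finset.notMem_empty a)⟩
  | succ m ih =>
    intro s hs
    have hs' : m * (m + 1) * (m + 2) + 3 * ((m + 1) * (m + 2)) ≤ 3 * s.card := by
      refine le_trans (le_of_eq ?_) hs
      ring
    have hpos : 0 < (m + 1) * (m + 2) := by positivity
    obtain ⟨u, hu⟩ : s.Nonempty := Finset.card_pos.1 (by omega)
    have h1 : (s.erase u).card = s.card - 1 := Finset.card_erase_of_mem hu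
    have h2 := Finset.card_filter_add_card_filter_not (s := s.erase u) (fun w => G.Adj u w)
    rcases le_or_gt ((m + 1) * (m + 2)) ((s.erase u).filter fun w => G.Adj u w).card with h3 | h3
    · rcases ramsey3 (G := G) (m + 1) _ h3 with ⟨a, ha, b, hb, c, hc, h4, h5, h6⟩ | ⟨I, hI, hIc, hi⟩
      · simp only [Finset.mem_filter] at ha hb hc
        exact (noK4 hK ha.2 hb.2 hc.2 h4 h5 h6).elim
      · refine ⟨I, fun a ha => ?_, hIc, hi⟩
        have := hI ha
        simp only [Finset.mem_filter, Finset.mem_erase] at this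
        exact this.1.2
    · have hB : ∀ a ∈ (s.erase u).filter (fun w => ¬ G.Adj u w), a ≠ u ∧ a ∈ s ∧ ¬ G.Adj u a := by
        intro a ha
        simp only [Finset.mem_filter, Finset.mem_erase] at ha
        exact ⟨ha.1.1, ha.1.2, ha.2⟩
      obtain ⟨I, hI, hIc, hi⟩ := ih ((s.erase u).filter fun w => ¬ G.Adj u w) (by omega)
      refine ⟨insert u I, ?_, ?_, ?_⟩
      · intro w hw
        rcases Finset.mem_insert.1 hw with rfl | hw
        · exact hu
        · exact (hB w (hI hw)).2.1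
      · rw [Finset.card_insert_of_notMem, hIc]
        intro h
        exact (hB u (hI h)).1 rfl
      · intro a ha b hb
        rcases Finset.mem_insert.1 ha with ha' | ha' <;> rcases Finset.mem_insert.1 hb with hb' | hb'
        · rw [ha', hb']
          exact G.loopless.irrefl _
        · rw [ha']
          exact (hB b (hI hb')).2.2
        · rw [hb']
          exact fun h => (hB a (hI ha')).2.2 h.symm
        · exact hi a ha' b hb'

/-- `t` common neighbours of two different non-adjacent vertices are never independent -/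
def K2 (G : SimpleGraph V) (t : ℕ) : Prop := ∀ u w : V, u ≠ w → ¬ G.Adj u w → ∀ I : Finset V, I.card = t →
  (∀ a ∈ I, G.Adj u a ∧ G.Adj w a) → (∀ a ∈ I, ∀ b ∈ I, ¬ G.Adj a b) → False

/-- graphs without induced `K_{2,t}` -/
theorem K2.of (t : ℕ) (h : ¬ Nonempty (completeBipartiteGraph (Fin 2) (Fin t) ↪g G)) : K2 G t := by
  intro u w huw nuw I hI hadj hi
  apply h
  obtain ⟨e⟩ : Nonempty (Fin t ≃ I) := ⟨(Finset.equivFinOfCardEq hI).symm⟩
  let g : Fin 2 → V := ![u, w]
  have hg : ∀ i a, a ∈ I → G.Adj (g i) a := by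
    intro i a ha
    fin_cases i
    · exact (hadj a ha).1
    · exact (hadj a ha).2
  have hgg : ∀ i j, ¬ G.Adj (g i) (g j) := by
    intro i j
    fin_cases i <;> fin_cases j
    · exact G.loopless.irrefl _
    · exact nuw
    · exact fun h' => nuw h'.symm
    · exact G.loopless.irrefl _
  have hgi : Function.Injective g := by
    intro i j hij
    fin_cases i <;> fin_cases j
    · rfl
    · exact absurd hij huw
    · exact absurd hij.symm huw
    · rfl
  refine ⟨⟨⟨Sum.elim g fun k => (e k : V), ?_⟩, ?_⟩⟩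
  · rintro (i | i) (j | j) hij
    · exact congrArg _ (hgi hij)
    · exact absurd (hg i _ (e j).2) (by rw [show g i = (e j : V) from hij]; exact G.loopless.irrefl _)
    · exact absurd (hg j _ (e i).2) (by rw [show (e i : V) = g j from hij]; exact G.loopless.irrefl _)
    · exact congrArg _ (e.injective (Subtype.ext hij))
  · rintro (i | i) (j | j)
    · exact iff_of_false (hgg i j) (by simp)
    · exact iff_of_true (hg i _ (e j).2) (by simp)
    · exact iff_of_true (hg j _ (e i).2).symm (by simp)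
    · exact iff_of_false (hi _ (e i).2 _ (e j).2) (by simp)

/-- independent sets of neighbours of `v` have at most `2 t` elements outside `N(p)` -/
def Covers (G : SimpleGraph V) (t : ℕ) (p v : V) : Prop := G.Adj v p ∧ ∀ I : Finset V, (∀ a ∈ I, G.Adj v a) →
  (∀ a ∈ I, ∀ b ∈ I, ¬ G.Adj a b) → (∀ a ∈ I, ¬ G.Adj p a) → I.card ≤ 2 * t

def Big (G : SimpleGraph V) (t : ℕ) (v : V) : Prop := ∃ I : Finset V, I.card = 5 * t ∧ (∀ a ∈ I, G.Adj v a) ∧
  ∀ a ∈ I, ∀ b ∈ I, ¬ G.Adj a b

section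

variable {t : ℕ} (hT : K2 G t)

include hT

open Classical in
theorem few {u w : V} (huw : u ≠ w) (h : ¬ G.Adj u w) (I : Finset V) (hI : ∀ a ∈ I, G.Adj u a)
    (hi : ∀ a ∈ I, ∀ b ∈ I, ¬ G.Adj a b) : (I.filter fun a => G.Adj w a).card < t := by
  by_contra hcon
  rw [not_lt] at hcon
  obtain ⟨J, hJ, hJc⟩ := Finset.exists_subset_card_eq hcon
  refine hT u w huw h J hJc (fun a ha => ?_) (fun a ha b hb => ?_)
  · have := Finset.mem_filter.1 (hJ ha)
    exact ⟨hI a this.1, this.2⟩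
  · exact hi a (Finset.mem_filter.1 (hJ ha)).1 b (Finset.mem_filter.1 (hJ hb)).1

/-- two vertices of `I` away from two vertices which are not adjacent to `u` -/
theorem pair {u w z : V} (huw : u ≠ w) (h : ¬ G.Adj u w) (huz : u ≠ z) (h' : ¬ G.Adj u z) (I : Finset V)
    (hI : ∀ a ∈ I, G.Adj u a) (hi : ∀ a ∈ I, ∀ b ∈ I, ¬ G.Adj a b) (hc : 2 * t < I.card) :
    ∃ a ∈ I, ∃ b ∈ I, a ≠ b ∧ ¬ G.Adj w a ∧ ¬ G.Adj w b ∧ ¬ G.Adj z a ∧ ¬ G.Adj z b := by
  classical
  have h1 := few hT huw h I hI hi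
  have h2 := few hT huz h' I hI hi
  have h3 : I.card ≤ (I.filter (fun a => G.Adj w a) ∪ I.filter (fun a => G.Adj z a)).card +
      (I.filter fun a => ¬ G.Adj w a ∧ ¬ G.Adj z a).card := by
    rw [← Finset.card_union_add_card_inter]
    refine le_trans (Finset.card_le_card ?_) (Nat.le_add_right _ _)
    intro a ha
    by_cases hPa : G.Adj w a
    · simp [ha, hPa]
    · by_cases hQa : G.Adj z a
      · simp [ha, hQa]
      · simp [ha, hPa, hQa]
  have h4 := Finset.card_union_le (I.filter (fun a => G.Adj w a)) (I.filter (fun a => G.Adj z a))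
  have h6 : 1 < (I.filter fun a => ¬ G.Adj w a ∧ ¬ G.Adj z a).card := by omega
  obtain ⟨a, ha, b, hb, hab⟩ := Finset.one_lt_card.1 h6
  rw [Finset.mem_filter] at ha hb
  exact ⟨a, ha.1, b, hb.1, hab, ha.2.1, hb.2.1, ha.2.2, hb.2.2⟩

variable (hS : S113Free G)

include hS

/-- the second vertex of an induced path of four vertices covers the first one -/
theorem cover1 {v p1 p2 p3 : V} (h1 : G.Adj v p1) (h2 : G.Adj p1 p2) (h3 : G.Adj p2 p3) (n1 : ¬ G.Adj v p2)
    (n2 : ¬ G.Adj v p3) (n3 : ¬ G.Adj p1 p3) : Covers G t p1 v := by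
  refine ⟨h1, fun I hI hi hp => ?_⟩
  by_contra hcon
  rw [not_le] at hcon
  have e1 : v ≠ p2 := fun h => n2 (h ▸ h3)
  have e2 : v ≠ p3 := fun h => n3 (h ▸ h1.symm)
  obtain ⟨a, ha, b, hb, hab, a1, b1, a2, b2⟩ := pair hT e1 n1 e2 n2 I hI hi hcon
  exact hS.out v a b p1 p2 p3 (hI a ha) (hI b hb) h1 h2 h3 hab (hi a ha b hb) (fun h => hp a ha h.symm)
    (fun h => a1 h.symm) (fun h => a2 h.symm) (fun h => hp b hb h.symm) (fun h => b1 h.symm)
    (fun h => b2 h.symm) n1 n2 n3

/-- a common neighbour of two non-adjacent vertices covers one of them -/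
theorem cover2 {u v p : V} (huv : u ≠ v) (n : ¬ G.Adj u v) (hu : G.Adj u p) (hv : G.Adj v p) :
    Covers G t p u ∨ Covers G t p v := by
  classical
  by_contra hcon
  rw [not_or] at hcon
  obtain ⟨c1, c2⟩ := hcon
  have d1 : ∃ I : Finset V, (∀ a ∈ I, G.Adj u a) ∧ (∀ a ∈ I, ∀ b ∈ I, ¬ G.Adj a b) ∧ (∀ a ∈ I, ¬ G.Adj p a) ∧
      2 * t < I.card := by
    by_contra h
    refine c1 ⟨hu, fun I k1 k2 k3 => ?_⟩
    by_contra k4
    exact h ⟨I, k1, k2, k3, by omega⟩
  have d2 : ∃ I : Finset V, (∀ a ∈ I, G.Adj v a) ∧ (∀ a ∈ I, ∀ b ∈ I, ¬ G.Adj a b) ∧ (∀ a ∈ I, ¬ G.Adj p a) ∧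
      2 * t < I.card := by
    by_contra h
    refine c2 ⟨hv, fun I k1 k2 k3 => ?_⟩
    by_contra k4
    exact h ⟨I, k1, k2, k3, by omega⟩
  obtain ⟨I, i1, i2, i3, i4⟩ := d1
  obtain ⟨J, j1, j2, j3, j4⟩ := d2
  have nv : ¬ G.Adj v u := fun h => n h.symm
  obtain ⟨c, hc, -, -, -, k1, -⟩ := pair hT huv.symm nv huv.symm nv J j1 j2 j4
  have e1 : u ≠ c := by
    rintro rfl
    exact nv (j1 _ hc)
  obtain ⟨a, ha, b, hb, hab, a1, b1, a2, b2⟩ := pair hT huv n e1 k1 I i1 i2 i4
  exact hS.out u a b p v c (i1 a ha) (i1 b hb) hu hv.symm (j1 c hc) hab (i2 a ha b hb) (fun h => i3 a ha h.symm)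
    (fun h => a1 h.symm) (fun h => a2 h.symm) (fun h => i3 b hb h.symm) (fun h => b1 h.symm)
    (fun h => b2 h.symm) n k1 (fun h => j3 c hc h)

omit hS in
/-- at most one vertex covers a big one -/
theorem uniq (hK : G.CliqueFree 4) (ht : 1 ≤ t) {v p q : V} (hb : Big G t v) (hp : Covers G t p v)
    (hq : Covers G t q v) : p = q := by
  classical
  by_contra hne
  obtain ⟨I, hc, h1, h2⟩ := hb
  have k1 : (I.filter fun a => ¬ G.Adj p a).card ≤ 2 * t := hp.2 _ (fun a ha => h1 a (Finset.mem_filter.1 ha).1)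
    (fun a ha b hb => h2 a (Finset.mem_filter.1 ha).1 b (Finset.mem_filter.1 hb).1)
    (fun a ha => (Finset.mem_filter.1 ha).2)
  have k2 : ((I.filter fun a => G.Adj p a).filter fun a => ¬ G.Adj q a).card ≤ 2 * t :=
    hq.2 _ (fun a ha => h1 a (Finset.mem_filter.1 (Finset.mem_filter.1 ha).1).1)
      (fun a ha b hb => h2 a (Finset.mem_filter.1 (Finset.mem_filter.1 ha).1).1 b
        (Finset.mem_filter.1 (Finset.mem_filter.1 hb).1).1)
      (fun a ha => (Finset.mem_filter.1 ha).2)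
  have k3 := Finset.card_filter_add_card_filter_not (s := I) (fun a => G.Adj p a)
  have k4 := Finset.card_filter_add_card_filter_not (s := I.filter fun a => G.Adj p a) (fun a => G.Adj q a)
  by_cases hpq : G.Adj p q
  · obtain ⟨a, ha⟩ : ((I.filter fun a => G.Adj p a).filter fun a => G.Adj q a).Nonempty :=
      Finset.card_pos.1 (by omega)
    rw [Finset.mem_filter, Finset.mem_filter] at ha
    exact noK4 hK hp.1 hq.1 (h1 a ha.1.1) hpq ha.1.2 ha.2
  · have := few hT hne hpq (I.filter fun a => G.Adj p a) (fun a ha => (Finset.mem_filter.1 ha).2)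
      (fun a ha b hb => h2 a (Finset.mem_filter.1 ha).1 b (Finset.mem_filter.1 hb).1)
    omega

/-- no induced path of five vertices begins at a big vertex -/
theorem noFive {u p1 p2 p3 p4 : V} (hb : Big G t u) (h1 : G.Adj u p1) (h2 : G.Adj p1 p2) (h3 : G.Adj p2 p3)
    (h4 : G.Adj p3 p4) (n1 : ¬ G.Adj u p2) (n2 : ¬ G.Adj u p3) (n3 : ¬ G.Adj p1 p3) (n4 : ¬ G.Adj p1 p4)
    (n5 : ¬ G.Adj p2 p4) : False := by
  classical
  have c1 := cover1 hT hS h1 h2 h3 n1 n2 n3
  have c2 := cover1 hT hS h2 h3 h4 n3 n4 n5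
  obtain ⟨I, hc, i1, i2⟩ := hb
  have e1 : u ≠ p2 := fun h => n2 (h ▸ h3)
  have k0 := few hT e1 n1 I i1 i2
  have k1 : (I.filter fun a => ¬ G.Adj p1 a).card ≤ 2 * t := c1.2 _ (fun a ha => i1 a (Finset.mem_filter.1 ha).1)
    (fun a ha b hb => i2 a (Finset.mem_filter.1 ha).1 b (Finset.mem_filter.1 hb).1)
    (fun a ha => (Finset.mem_filter.1 ha).2)
  have k2 : ((I.filter fun a => G.Adj p1 a).filter fun a => ¬ G.Adj p2 a).card ≤ 2 * t :=
    c2.2 _ (fun a ha => (Finset.mem_filter.1 (Finset.mem_filter.1 ha).1).2)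
      (fun a ha b hb => i2 a (Finset.mem_filter.1 (Finset.mem_filter.1 ha).1).1 b
        (Finset.mem_filter.1 (Finset.mem_filter.1 hb).1).1)
      (fun a ha => (Finset.mem_filter.1 ha).2)
  have k3 := Finset.card_filter_add_card_filter_not (s := I) (fun a => G.Adj p1 a)
  have k4 := Finset.card_filter_add_card_filter_not (s := I.filter fun a => G.Adj p1 a) (fun a => G.Adj p2 a)
  have k5 : ((I.filter fun a => G.Adj p1 a).filter fun a => G.Adj p2 a).card ≤ (I.filter fun a => G.Adj p2 a).card :=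
    Finset.card_le_card (Finset.filter_subset_filter _ (Finset.filter_subset _ _))
  omega

variable (hG : G.Connected)

include hG

/-- big vertices have eccentricity at most `3` -/
theorem ecc3 {u : V} (hb : Big G t u) (v : V) : G.dist u v ≤ 3 := by
  by_contra hx
  have d0 : G.dist u u = 0 := SimpleGraph.dist_self
  have h4 : ∀ v, G.dist u v = 4 → False := by
    intro v hv
    obtain ⟨p3, hp3, d3⟩ := pred hG (n := 3) hv
    obtain ⟨p2, hp2, d2⟩ := pred hG (n := 2) d3
    obtain ⟨p1, hp1, d1⟩ := pred hG (n := 1) d2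
    exact noFive hT hS hb (SimpleGraph.dist_eq_one_iff_adj.1 d1) hp1 hp2 hp3 (nd hG u (by omega))
      (nd hG u (by omega)) (nd hG u (by omega)) (nd hG u (by omega)) (nd hG u (by omega))
  have key : ∀ n x, G.dist u x = n + 4 → False := by
    intro n
    induction n with
    | zero => exact fun x hx => h4 x hx
    | succ n ih =>
      intro x hx
      obtain ⟨y, _, hy⟩ := pred hG (n := n + 4) (by omega : G.dist u x = n + 4 + 1)
      exact ih y hy
  exact key (G.dist u v - 4) v (by omega)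

/-- two big non-adjacent vertices with different covers -/
theorem pairRel (hK : G.CliqueFree 4) (ht : 1 ≤ t) {u v p q : V} (hu : Big G t u) (hv : Big G t v) (huv : u ≠ v)
    (n : ¬ G.Adj u v) (hp : Covers G t p u) (hq : Covers G t q v) : G.Adj p q ∨ G.Adj p v ∨ G.Adj q u := by
  have d3 := ecc3 hT hS hG hu v
  have d0 : G.dist u u = 0 := SimpleGraph.dist_self
  have e0 : G.dist u v ≠ 0 := fun h => huv ((hG.dist_eq_zero_iff).1 h)
  have e1 : G.dist u v ≠ 1 := fun h => n (SimpleGraph.dist_eq_one_iff_adj.1 h)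
  obtain h | h : G.dist u v = 2 ∨ G.dist u v = 3 := by omega
  · obtain ⟨r, hr, dr⟩ := pred hG (n := 1) h
    have hur := SimpleGraph.dist_eq_one_iff_adj.1 dr
    rcases cover2 hT hS huv n hur hr.symm with c | c
    · rw [uniq hT hK ht hu hp c]
      exact Or.inr (Or.inl hr)
    · rw [uniq hT hK ht hv hq c]
      exact Or.inr (Or.inr hur.symm)
  · obtain ⟨r2, hr2, dr2⟩ := pred hG (n := 2) h
    obtain ⟨r1, hr1, dr1⟩ := pred hG (n := 1) dr2
    have hur := SimpleGraph.dist_eq_one_iff_adj.1 dr1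
    have m1 : ¬ G.Adj u r2 := nd hG u (by omega)
    have m2 : ¬ G.Adj u v := n
    have m3 : ¬ G.Adj r1 v := nd hG u (by omega)
    have c1 := cover1 hT hS hur hr1 hr2 m1 m2 m3
    have c2 := cover1 hT hS hr2.symm hr1.symm hur.symm (fun h => m3 h.symm) (fun h => m2 h.symm)
      (fun h => m1 h.symm)
    rw [uniq hT hK ht hu hp c1, uniq hT hK ht hv hq c2]
    exact Or.inl hr1

/-- the vertices which cover a big vertex -/
def Hub (G : SimpleGraph V) (t : ℕ) : Set V := {p | ∃ u, Big G t u ∧ Covers G t p u}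

theorem hub_few (hK : G.CliqueFree 4) (ht : 1 ≤ t) (T : Finset V) (hTH : ∀ p ∈ T, p ∈ Hub G t) : T.card < 22960 := by
  classical
  by_contra hcon
  rw [not_lt] at hcon
  have hch : ∀ p, ∃ u, p ∈ T → Big G t u ∧ Covers G t p u := by
    intro p
    by_cases hp : p ∈ T
    · obtain ⟨u, hu⟩ := hTH p hp
      exact ⟨u, fun _ => hu⟩
    · exact ⟨p, fun h => absurd h hp⟩
  choose f hf using hch
  have hinj : ∀ p ∈ T, ∀ q ∈ T, f p = f q → p = q := by
    intro p hp q hq h
    have h1 := hf q hq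
    rw [← h] at h1
    exact uniq hT hK ht (hf p hp).1 (hf p hp).2 h1.2
  have hc1 : (T.image f).card = T.card := Finset.card_image_of_injOn fun p hp q hq h => hinj p hp q hq h
  obtain ⟨U, hU, hUc, hUi⟩ := ramsey4 hK 40 (T.image f) (by omega)
  have hc2 : 40 ≤ (T.filter fun p => f p ∈ U).card := by
    rw [← hUc]
    refine le_trans (Finset.card_le_card fun w hw => ?_) (Finset.card_image_le (f := f))
    obtain ⟨p, hp, rfl⟩ := Finset.mem_image.1 (hU hw)
    exact Finset.mem_image.2 ⟨p, Finset.mem_filter.2 ⟨hp, hw⟩, rfl⟩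
  obtain ⟨W, hW, hWc, hWi⟩ := ramsey4 hK 4 (T.filter fun p => f p ∈ U) (by omega)
  have hWT : ∀ p ∈ W, p ∈ T ∧ f p ∈ U := fun p hp => Finset.mem_filter.1 (hW hp)
  have hfi : ∀ p ∈ W, ∀ q ∈ W, ¬ G.Adj (f p) (f q) := fun p hp q hq => hUi _ (hWT p hp).2 _ (hWT q hq).2
  have R : ∀ p ∈ W, ∀ q ∈ W, p ≠ q → G.Adj p (f q) ∨ G.Adj q (f p) := by
    intro p hp q hq hne
    have h1 := hf p (hWT p hp).1
    have h2 := hf q (hWT q hq).1
    rcases pairRel hT hS hG hK ht h1.1 h2.1 (fun h => hne (hinj p (hWT p hp).1 q (hWT q hq).1 h)) (hfi p hp q hq)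
      h1.2 h2.2 with h | h | h
    · exact absurd h (hWi p hp q hq)
    · exact Or.inl h
    · exact Or.inr h
  have Z : ∀ p ∈ W, ∀ q ∈ W, ∀ r ∈ W, p ≠ q → p ≠ r → q ≠ r → G.Adj p (f q) → G.Adj p (f r) → False := by
    intro p hp q hq r hr h1 h2 h3 h4 h5
    have g1 := hf q (hWT q hq).1
    have g2 := hf r (hWT r hr).1
    rcases cover2 hT hS (fun h => h3 (hinj q (hWT q hq).1 r (hWT r hr).1 h)) (hfi q hq r hr) h4.symm h5.symm with c | c
    · exact h1 (uniq hT hK ht g1.1 c g1.2)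
    · exact h2 (uniq hT hK ht g2.1 c g2.2)
  obtain ⟨a, ha, b, hb, c, hc, hab, hac, hbc⟩ := Finset.two_lt_card.1 (by omega : 2 < W.card)
  obtain ⟨d, hd, hd'⟩ := Finset.exists_mem_notMem_of_card_lt_card (s := {a, b, c}) (t := W)
    (by rw [hWc]; exact lt_of_le_of_lt Finset.card_le_three (by norm_num))
  simp only [Finset.mem_insert, Finset.mem_singleton, not_or] at hd'
  obtain ⟨hda, hdb, hdc⟩ := hd'
  have hba := hab.symm
  have hca := hac.symm
  have hcb := hbc.symm
  have had : a ≠ d := fun h => hda h.symm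
  have hbd : b ≠ d := fun h => hdb h.symm
  have hcd : c ≠ d := fun h => hdc h.symm
  rcases R a ha b hb hab with r1 | r1 <;> rcases R a ha c hc hac with r2 | r2 <;>
    rcases R a ha d hd had with r3 | r3 <;> rcases R b hb c hc hbc with r4 | r4 <;>
    rcases R b hb d hd hbd with r5 | r5 <;> rcases R c hc d hd hcd with r6 | r6 <;>
    first
    | exact Z a ha b hb c hc hab hac hbc r1 r2
    | exact Z a ha b hb d hd hab had hbd r1 r3
    | exact Z a ha c hc d hd hac had hcd r2 r3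
    | exact Z b hb a ha c hc hba hbc hac r1 r4
    | exact Z b hb a ha d hd hba hbd had r1 r5
    | exact Z b hb c hc d hd hbc hbd hcd r4 r5
    | exact Z c hc a ha b hb hca hcb hab r2 r4
    | exact Z c hc a ha d hd hca hcd had r2 r6
    | exact Z c hc b hb d hd hcb hcd hbd r4 r6
    | exact Z d hd a ha b hb hda hdb hab r3 r5
    | exact Z d hd a ha c hc hda hdc hac r3 r6
    | exact Z d hd b hb c hc hdb hdc hbc r5 r6

omit hG in
/-- big vertices in one component of `G - Hub` are adjacent -/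
theorem comp {a b : ↥((Hub G t)ᶜ)} (h : (G.induce (Hub G t)ᶜ).Reachable a b) (ha : Big G t a.1)
    (hb : Big G t b.1) (hne : a ≠ b) : G.Adj a.1 b.1 := by
  obtain ⟨w⟩ := h
  by_contra n
  have step : ∀ {c d : ↥((Hub G t)ᶜ)} (_ : (G.induce (Hub G t)ᶜ).Walk c d),
      (c = a ∨ G.Adj a.1 c.1 ∨ ∃ e : V, e ∉ Hub G t ∧ G.Adj a.1 e ∧ G.Adj e c.1) →
      (d = a ∨ G.Adj a.1 d.1 ∨ ∃ e : V, e ∉ Hub G t ∧ G.Adj a.1 e ∧ G.Adj e d.1) := by
    intro c d w
    induction w with
    | nil => exact fun h => h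
    | @cons c d' d hcd w ih =>
      intro hc
      apply ih
      have hcd' : G.Adj c.1 d'.1 := hcd
      by_contra hcon
      rw [not_or, not_or] at hcon
      obtain ⟨k1, k2, k3⟩ := hcon
      rcases hc with h1 | h1 | ⟨e, he, h1, h2⟩
      · rw [h1] at hcd'
        exact k2 hcd'
      · exact k3 ⟨c.1, c.2, h1, hcd'⟩
      · have k4 : ¬ G.Adj a.1 c.1 := fun h => k3 ⟨c.1, c.2, h, hcd'⟩
        have k5 : ¬ G.Adj e d'.1 := fun h => k3 ⟨e, he, h1, h⟩
        exact he ⟨a.1, ha, cover1 hT hS h1 h2 hcd' k4 k2 k5⟩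
  rcases step w (Or.inl rfl) with h1 | h1 | ⟨e, he, h1, h2⟩
  · exact hne h1.symm
  · exact n h1
  · rcases cover2 hT hS (fun h => hne (Subtype.ext h)) n h1 h2.symm with c | c
    · exact he ⟨a.1, ha, c⟩
    · exact he ⟨b.1, hb, c⟩

/-- the theorem -/
theorem bic (hK : G.CliqueFree 4) (ht : 1 ≤ t) : ∃ H : Set V, H.encard ≤ 22959 ∧
    ∀ C : (G.induce Hᶜ).ConnectedComponent,
      {v : ↥(Hᶜ) | v ∈ C.supp ∧ ((5 * t * (5 * t + 1) : ℕ) : ℕ∞) < (G.neighborSet v.1).encard}.encard ≤ 3 := by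
  classical
  refine ⟨Hub G t, ?_, fun C => ?_⟩
  · by_contra hcon
    rw [not_le] at hcon
    have h1 : (22960 : ℕ∞) ≤ (Hub G t).encard := Order.add_one_le_of_lt hcon
    obtain ⟨s, hs, hsc⟩ := Set.exists_subset_encard_eq h1
    have hfin : s.Finite := Set.finite_of_encard_eq_coe (k := 22960) hsc
    obtain ⟨T, rfl⟩ := hfin.exists_finset_coe
    have hTc : T.card = 22960 := by
      rw [Set.encard_coe_eq_coe_finsetCard] at hsc
      exact_mod_cast hsc
    have := hub_few hT hS hG hK ht T (fun p hp => hs hp)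
    omega
  · have hbig : ∀ v : V, ((5 * t * (5 * t + 1) : ℕ) : ℕ∞) < (G.neighborSet v).encard → Big G t v := by
      intro v hv
      by_contra hnb
      refine absurd (deg_of_star hK (5 * t) v fun I h1 h2 h3 => hnb ⟨I, h1, h2, h3⟩) (not_le.2 hv)
    by_contra hcon
    rw [not_le] at hcon
    have h1 : (4 : ℕ∞) ≤ _ := Order.add_one_le_of_lt hcon
    obtain ⟨s, hs, hsc⟩ := Set.exists_subset_encard_eq h1
    have hfin : s.Finite := Set.finite_of_encard_eq_coe (k := 4) hsc
    obtain ⟨T, rfl⟩ := hfin.exists_finset_coe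
    have hTc : T.card = 4 := by
      rw [Set.encard_coe_eq_coe_finsetCard] at hsc
      exact_mod_cast hsc
    have adj : ∀ a ∈ T, ∀ b ∈ T, a ≠ b → G.Adj a.1 b.1 := by
      intro a ha b hb hne
      obtain ⟨a1, a2⟩ := hs ha
      obtain ⟨b1, b2⟩ := hs hb
      refine comp hT hS ?_ (hbig _ a2) (hbig _ b2) hne
      rw [SimpleGraph.ConnectedComponent.mem_supp_iff] at a1 b1
      exact SimpleGraph.ConnectedComponent.exact (a1.trans b1.symm)
    obtain ⟨a, ha, b, hb, c, hc, hab, hac, hbc⟩ := Finset.two_lt_card.1 (by omega : 2 < T.card)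
    obtain ⟨d, hd, hd'⟩ := Finset.exists_mem_notMem_of_card_lt_card (s := {a, b, c}) (t := T)
      (by rw [hTc]; exact lt_of_le_of_lt Finset.card_le_three (by norm_num))
    simp only [Finset.mem_insert, Finset.mem_singleton, not_or] at hd'
    obtain ⟨hda, hdb, hdc⟩ := hd'
    exact noK4 hK (adj a ha b hb hab) (adj a ha c hc hac) (adj a ha d hd fun h => hda h.symm) (adj b hb c hc hbc)
      (adj b hb d hd fun h => hdb h.symm) (adj c hc d hd fun h => hdc h.symm)

end

end Pool.Agent.H98.GI
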