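import Pool.Agent.H98.GI.Basic

/-!
# A vertex joined to disjoint stars: no `K_4`, `S_{1,1,3}`, `C_4` and many vertices of large degree
-/

set_option autoImplicit false

namespace Pool.Agent.H98.GI.Books

/-- vertices: the apex, the centres and the leaves of `m` stars -/
abbrev BV (m : ℕ) : Type := Option (Fin m × Option (Fin m))

def adj {m : ℕ} : BV m → BV m → Prop
  | none, some _ => True
  | some _, none => True
  | some (j, none), some (k, some _) => j = k
  | some (j, some _), some (k, none) => j = k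
  | _, _ => False

theorem adj_symm {m : ℕ} (u w : BV m) (h : adj u w) : adj w u := by
  rcases u with _ | ⟨j, _ | i⟩ <;> rcases w with _ | ⟨k, _ | l⟩ <;> first | exact h | exact h.symm

theorem adj_irrefl {m : ℕ} (u : BV m) : ¬ adj u u := by
  rcases u with _ | ⟨j, _ | i⟩ <;> exact fun h => h

def B (m : ℕ) : SimpleGraph (BV m) where
  Adj := adj
  symm := ⟨fun u w h => adj_symm u w h⟩
  loopless := ⟨fun u => adj_irrefl u⟩

/-- no path of four vertices (induced or not closed) avoids the apex -/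
theorem noP4 {m : ℕ} (a b c d : Fin m × Option (Fin m)) (h1 : adj (some a) (some b)) (h2 : adj (some b) (some c))
    (h3 : adj (some c) (some d)) : a = c ∨ b = d := by
  rcases a with ⟨a, _ | i⟩ <;> rcases b with ⟨b, _ | j⟩ <;> rcases c with ⟨c, _ | k⟩ <;> rcases d with ⟨d, _ | l⟩ <;>
    first
    | exact h1.elim
    | exact h2.elim
    | exact h3.elim
    | (have e1 : a = b := h1
       have e2 : b = c := h2
       have e3 : c = d := h3
       subst e1
       subst e2
       subst e3
       first | exact Or.inl rfl | exact Or.inr rfl)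

theorem noK3 {m : ℕ} (a b c : Fin m × Option (Fin m)) (h1 : adj (some a) (some b)) (h2 : adj (some b) (some c))
    (h3 : adj (some a) (some c)) : False := by
  rcases a with ⟨a, _ | i⟩ <;> rcases b with ⟨b, _ | j⟩ <;> rcases c with ⟨c, _ | k⟩ <;>
    first | exact h1 | exact h2 | exact h3

theorem ex {m : ℕ} {u : BV m} (h : u ≠ none) : ∃ a, u = some a := Option.ne_none_iff_exists'.1 h

theorem apex {m : ℕ} {u w : BV m} (hu : u = none) (hne : u ≠ w) : (B m).Adj u w := by
  subst hu
  obtain ⟨a, rfl⟩ := ex hne.symm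
  trivial

theorem clique (m : ℕ) : (B m).CliqueFree 4 := by
  classical
  intro s hs
  have hc : s.card = 4 := hs.card_eq
  have h1 : 3 ≤ (s.erase none).card := by
    have := Finset.pred_card_le_card_erase (a := (none : BV m)) (s := s)
    omega
  obtain ⟨a, ha, b, hb, c, hc', hab, hac, hbc⟩ := Finset.two_lt_card.1 (by omega : 2 < (s.erase none).card)
  rw [Finset.mem_erase] at ha hb hc'
  obtain ⟨a', rfl⟩ := ex ha.1
  obtain ⟨b', rfl⟩ := ex hb.1
  obtain ⟨c', rfl⟩ := ex hc'.1
  exact noK3 a' b' c' (hs.isClique ha.2 hb.2 hab) (hs.isClique hb.2 hc'.2 hbc) (hs.isClique ha.2 hc'.2 hac)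

theorem SF (m : ℕ) : S113Free (B m) := by
  rintro ⟨f⟩
  have hA : ∀ i j, S113.Adj i j → (B m).Adj (f i) (f j) := fun i j h => f.map_rel_iff.2 h
  have hn : ∀ i, f i ≠ none := by
    intro i hi
    have key : ∀ i : Fin 6, ∃ j : Fin 6, i ≠ j ∧ ¬ S113.Adj i j := by
      intro i
      fin_cases i
      · exact ⟨4, by decide, by simp [S113]⟩
      · exact ⟨4, by decide, by simp [S113]⟩
      · exact ⟨4, by decide, by simp [S113]⟩
      · exact ⟨5, by decide, by simp [S113]⟩
      · exact ⟨0, by decide, by simp [S113]⟩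
      · exact ⟨0, by decide, by simp [S113]⟩
    obtain ⟨j, h1, h2⟩ := key i
    exact h2 (f.map_rel_iff.1 (apex hi fun h => h1 (f.injective h)))
  obtain ⟨a, ha⟩ := ex (hn 0)
  obtain ⟨b, hb⟩ := ex (hn 3)
  obtain ⟨c, hc⟩ := ex (hn 4)
  obtain ⟨d, hd⟩ := ex (hn 5)
  have h1 := hA 0 3 (by simp [S113])
  have h2 := hA 3 4 (by simp [S113])
  have h3 := hA 4 5 (by simp [S113])
  rw [ha, hb] at h1
  rw [hb, hc] at h2
  rw [hc, hd] at h3
  rcases noP4 a b c d h1 h2 h3 with h | h
  · exact absurd (f.injective (by rw [ha, hc, h] : f 0 = f 4)) (by decide)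
  · exact absurd (f.injective (by rw [hb, hd, h] : f 3 = f 5)) (by decide)

theorem noC4 (m : ℕ) : ¬ Nonempty (completeBipartiteGraph (Fin 2) (Fin 2) ↪g B m) := by
  rintro ⟨f⟩
  have hA : ∀ i j, (B m).Adj (f (.inl i)) (f (.inr j)) := fun i j => f.map_rel_iff.2 (by simp)
  have hN1 : ∀ i j, ¬ (B m).Adj (f (.inl i)) (f (.inl j)) := fun i j h => by
    have := f.map_rel_iff.1 h
    simp at this
  have hN2 : ∀ i j, ¬ (B m).Adj (f (.inr i)) (f (.inr j)) := fun i j h => by
    have := f.map_rel_iff.1 h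
    simp at this
  have n1 : ∀ i, f (.inl i) ≠ none := by
    intro i hi
    obtain ⟨j, hj⟩ : ∃ j : Fin 2, i ≠ j := by
      fin_cases i
      · exact ⟨1, by decide⟩
      · exact ⟨0, by decide⟩
    exact hN1 i j (apex hi fun h => hj (Sum.inl.inj (f.injective h)))
  have n2 : ∀ i, f (.inr i) ≠ none := by
    intro i hi
    obtain ⟨j, hj⟩ : ∃ j : Fin 2, i ≠ j := by
      fin_cases i
      · exact ⟨1, by decide⟩
      · exact ⟨0, by decide⟩
    exact hN2 i j (apex hi fun h => hj (Sum.inr.inj (f.injective h)))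
  obtain ⟨a, ha⟩ := ex (n1 0)
  obtain ⟨b, hb⟩ := ex (n2 0)
  obtain ⟨c, hc⟩ := ex (n1 1)
  obtain ⟨d, hd⟩ := ex (n2 1)
  have h1 := hA 0 0
  have h2 := hA 1 0
  have h3 := hA 1 1
  rw [ha, hb] at h1
  rw [hc, hb] at h2
  rw [hc, hd] at h3
  rcases noP4 a b c d h1 (adj_symm _ _ h2) h3 with h | h
  · exact absurd (f.injective (by rw [ha, hc, h] : f (.inl 0) = f (.inl 1))) (by decide)
  · exact absurd (f.injective (by rw [hb, hd, h] : f (.inr 0) = f (.inr 1))) (by decide)

theorem conn (m : ℕ) : (B m).Connected := by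
  have key : ∀ u : BV m, (B m).Reachable u none := by
    intro u
    by_cases hu : u = none
    · rw [hu]
    · exact SimpleGraph.Adj.reachable (apex rfl fun h => hu h.symm).symm
  have : Nonempty (BV m) := ⟨none⟩
  exact ⟨fun u w => (key u).trans (key w).symm⟩

theorem many (m : ℕ) : ∃ S : Finset (BV m), S.card = m ∧ ∀ v ∈ S, (m : ℕ∞) ≤ ((B m).neighborSet v).encard := by
  have h0 : Function.Injective (fun j : Fin m => (some (j, none) : BV m)) := fun j k h => by simpa using h
  refine ⟨Finset.univ.map ⟨_, h0⟩, by simp, fun v hv => ?_⟩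
  obtain ⟨j, _, rfl⟩ := Finset.mem_map.1 hv
  have h1 : Set.range (fun k : Fin m => (some (j, some k) : BV m)) ⊆ (B m).neighborSet (some (j, none)) := by
    rintro _ ⟨k, rfl⟩
    rfl
  have h2 : Function.Injective (fun k : Fin m => (some (j, some k) : BV m)) := fun k l h => by simpa using h
  refine le_trans ?_ (Set.encard_le_encard h1)
  rw [← Set.image_univ, h2.encard_image, Set.encard_univ]
  simp

end Pool.Agent.H98.GI.Books
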