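import Pool.Agent.H98.GI.PrimeDeg

/-!
# Prime connected `(K_4, S_{1,1,3})`-free graphs with two vertices at distance `5`: preparations
-/

set_option autoImplicit false

namespace Pool.Agent.H98.GI

variable {V : Type*} {G : SimpleGraph V}

/-- `R(3, m) ≤ m (m + 1)` -/
theorem ramsey3 (m : ℕ) : ∀ s : Finset V, m * (m + 1) ≤ s.card →
    (∃ a ∈ s, ∃ b ∈ s, ∃ c ∈ s, G.Adj a b ∧ G.Adj a c ∧ G.Adj b c) ∨
    ∃ I ⊆ s, I.card = m ∧ ∀ a ∈ I, ∀ b ∈ I, ¬ G.Adj a b := by
  classical
  induction m with
  | zero => exact fun s _ => Or.inr ⟨∅, Finset.empty_subset _, rfl, fun a ha => absurd ha (Finset.notMem_empty a)⟩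
  | succ m ih =>
    intro s hs
    have hs' : m * (m + 1) + 2 * m + 2 ≤ s.card := by
      refine le_trans (le_of_eq ?_) hs
      ring
    obtain ⟨u, hu⟩ : s.Nonempty := Finset.card_pos.1 (by omega)
    have h1 : (s.erase u).card = s.card - 1 := Finset.card_erase_of_mem hu
    have h2 := Finset.card_filter_add_card_filter_not (s := s.erase u) (fun w => G.Adj u w)
    rcases le_or_gt (m + 1) ((s.erase u).filter fun w => G.Adj u w).card with h3 | h3
    · obtain ⟨I, hI, hIc⟩ := Finset.exists_subset_card_eq h3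
      have hIs : ∀ a ∈ I, a ∈ s ∧ G.Adj u a := by
        intro a ha
        have := hI ha
        simp only [Finset.mem_filter, Finset.mem_erase] at this
        exact ⟨this.1.2, this.2⟩
      by_cases h4 : ∃ a ∈ I, ∃ b ∈ I, G.Adj a b
      · obtain ⟨a, ha, b, hb, hab⟩ := h4
        exact Or.inl ⟨u, hu, a, (hIs a ha).1, b, (hIs b hb).1, (hIs a ha).2, (hIs b hb).2, hab⟩
      · refine Or.inr ⟨I, fun a ha => (hIs a ha).1, hIc, fun a ha b hb hab => h4 ⟨a, ha, b, hb, hab⟩⟩
    · have hB : ∀ a ∈ (s.erase u).filter (fun w => ¬ G.Adj u w), a ≠ u ∧ a ∈ s ∧ ¬ G.Adj u a := by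
        intro a ha
        simp only [Finset.mem_filter, Finset.mem_erase] at ha
        exact ⟨ha.1.1, ha.1.2, ha.2⟩
      rcases ih ((s.erase u).filter fun w => ¬ G.Adj u w) (by omega) with ⟨a, ha, b, hb, c, hc, h5⟩ | ⟨I, hI, hIc, hi⟩
      · exact Or.inl ⟨a, (hB a ha).2.1, b, (hB b hb).2.1, c, (hB c hc).2.1, h5⟩
      · refine Or.inr ⟨insert u I, ?_, ?_, ?_⟩
        · intro w hw
          rcases Finset.mem_insert.1 hw with rfl | hw
          · exact hu
          · exact (hB w (hI hw)).2.1
        · rw [Finset.card_insert_of_notMem, hIc]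
          intro h
          exact (hB u (hI h)).1 rfl
        · intro a ha b hb
          rcases Finset.mem_insert.1 ha with ha' | ha' <;> rcases Finset.mem_insert.1 hb with hb' | hb'
          · rw [ha', hb']
            exact G.loopless.irrefl _
          · rw [ha']
            exact (hB b (hI hb')).2.2
          · rw [hb']
            exact fun h => (hB a (hI ha')).2.2 h.symm
          · exact hi a ha' b hb'

/-- a set of neighbours of `c` without independent subsets of `m` elements is finite -/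
theorem finOf (hK : G.CliqueFree 4) (m : ℕ) (c : V) (S : Set V) (hS : ∀ w ∈ S, G.Adj c w)
    (hm : ∀ I : Finset V, I.card = m → (∀ a ∈ I, a ∈ S) → (∀ a ∈ I, ∀ b ∈ I, ¬ G.Adj a b) → False) :
    ∃ F : Finset V, (F : Set V) = S ∧ F.card ≤ m * (m + 1) := by
  classical
  have key : ∀ s : Finset V, (s : Set V) ⊆ S → s.card ≤ m * (m + 1) := by
    intro s hs
    by_contra hcon
    rw [not_le] at hcon
    rcases ramsey3 (G := G) m s hcon.le with ⟨a, ha, b, hb, d, hd, h1, h2, h3⟩ | ⟨I, hI, hIc, hi⟩
    · exact noK4 hK (hS a (hs ha)) (hS b (hs hb)) (hS d (hs hd)) h1 h2 h3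
    · exact hm I hIc (fun a ha => hs (hI ha)) hi
  have hfin : S.Finite := by
    by_contra hinf
    obtain ⟨t, ht, htc⟩ := Set.Infinite.exists_subset_card_eq hinf (m * (m + 1) + 1)
    have := key t ht
    omega
  refine ⟨hfin.toFinset, by simp, key _ (by simp)⟩

theorem deg_of_star (hK : G.CliqueFree 4) (m : ℕ) (v : V)
    (hm : ∀ I : Finset V, I.card = m → (∀ a ∈ I, G.Adj v a) → (∀ a ∈ I, ∀ b ∈ I, ¬ G.Adj a b) → False) :
    (G.neighborSet v).encard ≤ ((m * (m + 1) : ℕ) : ℕ∞) := by
  obtain ⟨F, hF, hc⟩ := finOf hK m v (G.neighborSet v) (fun w hw => hw) (fun I h1 h2 h3 => hm I h1 h2 h3)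
  rw [← hF, Set.encard_coe_eq_coe_finsetCard]
  exact_mod_cast hc

theorem nd (hG : G.Connected) (v : V) {x y : V}
    (h : G.dist v x + 2 ≤ G.dist v y ∨ G.dist v y + 2 ≤ G.dist v x) : ¬ G.Adj x y := by
  rcases h with h | h
  · exact nadj hG h
  · exact fun h' => nadj hG h h'.symm

/-- a set which no outside vertex separates at non-adjacent places is a clique in a prime graph -/
theorem clique_gen (hP : Prime G) (C : V → Prop) {o : V} (ho : ¬ C o)
    (hsp : ∀ c1 c2 z, C c1 → C c2 → ¬ G.Adj c1 c2 → G.Adj z c1 → ¬ G.Adj z c2 → C z)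
    {c1 c2 : V} (h1 : C c1) (h2 : C c2) (hne : c1 ≠ c2) : G.Adj c1 c2 := by
  by_contra hc
  set R : V → V → Prop := fun u w => C u ∧ C w ∧ ¬ G.Adj u w with hR
  set M : Set V := {w | Relation.ReflTransGen R c1 w} with hM
  have hMC : ∀ w ∈ M, C w := by
    intro w hw
    rcases Relation.ReflTransGen.cases_tail hw with h1' | ⟨u, _, h1'⟩
    · rw [h1']
      exact h1
    · exact h1'.2.1
  have hmod : IsModule G M := by
    intro z hz
    by_cases hzC : C z
    · refine Or.inl fun u hu => ?_
      by_contra hzu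
      exact hz (Relation.ReflTransGen.tail hu ⟨hMC u hu, hzC, fun h' => hzu h'.symm⟩)
    · have key : ∀ w ∈ M, (G.Adj z c1 ↔ G.Adj z w) := by
        intro w hw
        induction hw with
        | refl => rfl
        | @tail u w _ h1 ih =>
          refine ih.trans ⟨fun h2 => ?_, fun h2 => ?_⟩
          · by_contra h3
            exact hzC (hsp u w z h1.1 h1.2.1 h1.2.2 h2 h3)
          · by_contra h3
            exact hzC (hsp w u z h1.2.1 h1.1 (fun h' => h1.2.2 h'.symm) h2 h3)
      by_cases hz1 : G.Adj z c1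
      · exact Or.inl fun u hu => (key u hu).1 hz1
      · exact Or.inr fun u hu hzu => hz1 ((key u hu).2 hzu)
  rcases hP M hmod with h3 | h3
  · exact hne (h3 (Relation.ReflTransGen.refl) (Relation.ReflTransGen.single ⟨h1, h2, hc⟩))
  · exact ho (hMC o (by rw [h3]; exact Set.mem_univ o))

/-- an independent set of neighbours of `v` whose pairs are separated only by vertices of `Z` -/
theorem sepCard (hP : Prime G) {v : V} (I Z : Finset V) (hv : ∀ a ∈ I, G.Adj v a)
    (hZ : ∀ a ∈ I, ∀ b ∈ I, ∀ z, G.Adj z a → ¬ G.Adj z b → z ∈ Z) : I.card ≤ 2 ^ Z.card := by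
  classical
  rw [← Finset.card_powerset]
  refine Finset.card_le_card_of_injOn (fun a => Z.filter fun z => G.Adj z a)
    (fun a _ => Finset.mem_coe.2 (Finset.mem_powerset.2 (Finset.filter_subset _ _))) ?_
  intro a ha b hb hab
  by_contra hne
  have key : ∀ a ∈ I, ∀ b ∈ I, (Z.filter fun z => G.Adj z a) = (Z.filter fun z => G.Adj z b) →
      ∀ z, G.Adj z a → G.Adj z b := by
    intro a ha b hb hab z hza
    by_contra hzb
    have h1 := hZ a ha b hb z hza hzb
    have h2 : z ∈ Z.filter fun z => G.Adj z b := by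
      rw [← hab]
      exact Finset.mem_filter.2 ⟨h1, hza⟩
    exact hzb (Finset.mem_filter.1 h2).2
  have hmod : IsModule G ({a, b} : Set V) := by
    intro z _
    by_cases h1 : G.Adj z a
    · refine Or.inl fun u hu => ?_
      rcases hu with rfl | hu
      · exact h1
      · rw [Set.mem_singleton_iff] at hu
        subst hu
        exact key a ha _ hb hab z h1
    · refine Or.inr fun u hu hzu => ?_
      rcases hu with rfl | hu
      · exact h1 hzu
      · rw [Set.mem_singleton_iff] at hu
        subst hu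
        exact h1 (key _ hb a ha hab.symm z hzu)
  rcases hP _ hmod with h1 | h1
  · exact hne (h1 (Set.mem_insert _ _) (Set.mem_insert_of_mem _ rfl))
  · have h2 : v ∈ ({a, b} : Set V) := by
      rw [h1]
      exact Set.mem_univ v
    rcases h2 with rfl | h2
    · exact G.loopless.irrefl _ (hv _ ha)
    · rw [Set.mem_singleton_iff] at h2
      subst h2
      exact G.loopless.irrefl _ (hv _ hb)

section

variable (hG : G.Connected) (hS : S113Free G)

include hG hS

theorem splitA {y x v p q a b z : V} (hx : G.Adj v x) (dx : G.dist y x = 5) (dv : G.dist y v = 4)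
    (dp : G.dist y p = 2) (hpq : G.Adj p q) (dq : G.dist y q = 1) (hva : G.Adj v a) (hpa : G.Adj p a)
    (hvb : G.Adj v b) (hpb : G.Adj p b) (hab : ¬ G.Adj a b) (hza : G.Adj z a) (hzb : ¬ G.Adj z b) :
    G.Adj v z ∧ G.Adj p z := by
  have a1 := adj_le hG (u := y) hpa
  have a2 := adj_le hG (u := y) hva.symm
  have b1 := adj_le hG (u := y) hpb
  have b2 := adj_le hG (u := y) hvb.symm
  have z1 := adj_le hG (u := y) hza
  have z2 := adj_le hG (u := y) hza.symm
  have d0 : G.dist y y = 0 := SimpleGraph.dist_self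
  have hqy : G.Adj q y := (SimpleGraph.dist_eq_one_iff_adj.1 dq).symm
  have hba : ¬ G.Adj b a := fun h => hab h.symm
  have hbz : ¬ G.Adj b z := fun h => hzb h.symm
  by_contra hcon
  by_cases hvz : G.Adj v z
  · have hpz : ¬ G.Adj p z := fun h => hcon ⟨hvz, h⟩
    have z3 := adj_le hG (u := y) hvz.symm
    by_cases hzx : G.Adj z x
    · have z4 := adj_le hG (u := y) hzx
      exact hS.out p q b a z x hpq hpb hpa hza.symm hzx (by rintro rfl; omega) (nd hG y (by omega))
        (nd hG y (by omega)) (nd hG y (by omega)) (nd hG y (by omega)) hba hbz (nd hG y (by omega)) hpz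
        (nd hG y (by omega)) (nd hG y (by omega))
    · exact hS.out v x z b p q hx hvz hvb hpb.symm hpq (by rintro rfl; omega) (fun h => hzx h.symm)
        (nd hG y (by omega)) (nd hG y (by omega)) (nd hG y (by omega)) hzb (fun h => hpz h.symm)
        (nd hG y (by omega)) (nd hG y (by omega)) (nd hG y (by omega)) (nd hG y (by omega))
  · by_cases hzq : G.Adj z q
    · have z3 := adj_le hG (u := y) hzq.symm
      exact hS.out v x b a z q hx hvb hva hza.symm hzq (by rintro rfl; omega) (nd hG y (by omega))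
        (nd hG y (by omega)) (nd hG y (by omega)) (nd hG y (by omega)) hba hbz (nd hG y (by omega)) hvz
        (nd hG y (by omega)) (nd hG y (by omega))
    · by_cases hpz : G.Adj p z
      · have z3 := adj_le hG (u := y) hpz
        exact hS.out p z q b v x hpz hpq hpb hvb.symm hx (by rintro rfl; omega) hzq hzb (fun h => hvz h.symm)
          (nd hG y (by omega)) (nd hG y (by omega)) (nd hG y (by omega)) (nd hG y (by omega))
          (nd hG y (by omega)) (nd hG y (by omega)) (nd hG y (by omega))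
      · exact hS.out a v z p q y hva.symm hza.symm hpa.symm hpq hqy (by rintro rfl; exact hzb hvb) hvz
          (nd hG y (by omega)) (nd hG y (by omega)) (nd hG y (by omega)) (fun h => hpz h.symm) hzq
          (nd hG y (by omega)) (nd hG y (by omega)) (nd hG y (by omega)) (nd hG y (by omega))

/-- neighbours of an end -/
theorem degA (hP : Prime G) (hK : G.CliqueFree 4) {x y v : V} (hxy : G.dist x y = 5) (hxv : G.Adj x v) :
    (G.neighborSet v).encard ≤ 9 := by
  classical
  by_contra hcon
  rw [not_le] at hcon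
  have h6 : (10 : ℕ∞) ≤ (G.neighborSet v).encard := Order.add_one_le_of_lt hcon
  obtain ⟨t, ht, htc⟩ := Set.exists_subset_encard_eq h6
  have hfin : t.Finite := Set.finite_of_encard_eq_coe (k := 10) htc
  obtain ⟨s, rfl⟩ := hfin.exists_finset_coe
  have hs : s.card = 10 := by
    rw [Set.encard_coe_eq_coe_finsetCard] at htc
    exact_mod_cast htc
  rcases ramsey34 (G := G) s hs.ge with ⟨a, ha, b, hb, c, hc, h1, h2, h3⟩ | ⟨I, hI, hIc, hind⟩
  · exact noK4 hK (ht ha) (ht hb) (ht hc) h1 h2 h3
  have h : Star4 G v I := ⟨hIc, fun a ha => ht (hI ha), hind⟩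
  have hyx : G.dist y x = 5 := by rw [SimpleGraph.dist_comm]; exact hxy
  have e1 := adj_le hG (u := y) hxv.symm
  obtain ⟨a0, ha0⟩ : I.Nonempty := Finset.card_pos.1 (by omega)
  obtain ⟨b0, hb0, hab0, -⟩ := h.third a0 a0
  obtain ⟨c0, hc0, hac0, hbc0⟩ := h.third a0 b0
  have e2 := ecc hG hS (h.claw ha0 hb0 hc0 hab0 hac0 hbc0) y
  have e3 : G.dist v y = G.dist y v := SimpleGraph.dist_comm
  have dvy : G.dist v y = 4 := by omega
  obtain ⟨p3, hp3, d3⟩ := pred hG (n := 3) dvy
  obtain ⟨p1, p2, g⟩ := exists_geo hG d3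
  have hfar := h.far hG hS g hp3 dvy
  obtain ⟨a, ha, b, hb, hab, ⟨h1, -⟩, h2, -⟩ := h.two (fun a => ¬ G.Adj a p2) (fun a => ¬ G.Adj a p2)
    (fun a ha b hb h1 h2 => hfar a ha b hb h1 h2) (fun a ha b hb h1 h2 => hfar a ha b hb h1 h2)
  rw [not_not] at h1 h2
  have d1 : G.dist y p3 = 1 := SimpleGraph.dist_eq_one_iff_adj.2 hp3.symm
  have f1 := adj_le hG (u := y) g.h3.symm
  have f2 := adj_le hG (u := y) g.h2.symm
  have f3 := adj_le hG (u := y) g.h1.symm
  have hadj := clique_gen (G := G) hP (fun w => G.Adj v w ∧ G.Adj p2 w) (o := v) (fun h => G.loopless.irrefl _ h.1)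
    (fun c1 c2 z k1 k2 k3 k4 k5 => splitA hG hS hxv.symm hyx (by omega) (by omega) g.h3 d1 k1.1 k1.2 k2.1 k2.2 k3 k4 k5)
    ⟨h.adj a ha, h1.symm⟩ ⟨h.adj b hb, h2.symm⟩ hab
  exact hind a ha b hb hadj

/-- the ball of radius `2` -/
theorem ball (hP : Prime G) (hK : G.CliqueFree 4) {x y : V} (hxy : G.dist x y = 5) :
    ∃ F : Finset V, F.card ≤ 51 ∧ ∀ w, G.dist x w ≤ 2 → w ∈ F := by
  classical
  have hx : (G.neighborSet x).encard ≤ 5 := deg hK x fun a b c h => by
    have := ecc hG hS h y
    omega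
  have hfx : (G.neighborSet x).Finite := Set.finite_of_encard_le_coe (k := 5) hx
  have hcx : hfx.toFinset.card ≤ 5 := by
    rw [hfx.encard_eq_coe_toFinset_card] at hx
    exact_mod_cast hx
  have ht : ∀ v, ∃ t : Finset V, G.Adj x v → (t.card ≤ 9 ∧ ∀ w, G.Adj v w → w ∈ t) := by
    intro v
    by_cases hv : G.Adj x v
    · have h1 := degA hG hS hP hK hxy hv
      have hf : (G.neighborSet v).Finite := Set.finite_of_encard_le_coe (k := 9) h1
      refine ⟨hf.toFinset, fun _ => ⟨?_, fun w hw => by simpa using hw⟩⟩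
      rw [hf.encard_eq_coe_toFinset_card] at h1
      exact_mod_cast h1
    · exact ⟨∅, fun h => absurd h hv⟩
  choose t ht using ht
  refine ⟨insert x (hfx.toFinset ∪ hfx.toFinset.biUnion t), ?_, ?_⟩
  · have h1 := Finset.card_insert_le x (hfx.toFinset ∪ hfx.toFinset.biUnion t)
    have h2 := Finset.card_union_le hfx.toFinset (hfx.toFinset.biUnion t)
    have h3 : (hfx.toFinset.biUnion t).card ≤ hfx.toFinset.card * 9 :=
      Finset.card_biUnion_le_card_mul _ _ _ fun v hv => (ht v (by simpa using hv)).1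
    omega
  · intro w hw
    obtain h | h | h : G.dist x w = 0 ∨ G.dist x w = 1 ∨ G.dist x w = 2 := by omega
    · exact Finset.mem_insert.2 (Or.inl ((hG.dist_eq_zero_iff).1 h).symm)
    · refine Finset.mem_insert_of_mem (Finset.mem_union_left _ ?_)
      simpa using SimpleGraph.dist_eq_one_iff_adj.1 h
    · obtain ⟨u, hu, hu1⟩ := pred hG (n := 1) h
      have hxu := SimpleGraph.dist_eq_one_iff_adj.1 hu1
      refine Finset.mem_insert_of_mem (Finset.mem_union_right _ (Finset.mem_biUnion.2 ⟨u, by simpa using hxu, ?_⟩))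
      exact (ht u hxu).2 w hu

end

end Pool.Agent.H98.GI
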