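import Pool.Agent.H98.GI.Five

/-!
# Prime connected `(K_4, S_{1,1,3})`-free graphs with two vertices at distance `5`: the degrees
-/

set_option autoImplicit false

namespace Pool.Agent.H98.GI

variable {V : Type*} {G : SimpleGraph V}

/-- `p'` is adjacent to `x`, and `p` to `p'`, at distance `2` from `x` -/
structure End (G : SimpleGraph V) (x p' p : V) : Prop where
  h1 : G.Adj x p'
  h2 : G.Adj p' p
  d : G.dist x p = 2

/-- a vertex adjacent to `p` and `q` far from `x` and `y` -/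
structure Mid (G : SimpleGraph V) (x y p q c : V) : Prop where
  hp : G.Adj p c
  hq : G.Adj q c
  hx : 3 ≤ G.dist x c
  hy : 3 ≤ G.dist y c

theorem Mid.symm {x y p q c : V} (h : Mid G x y p q c) : Mid G y x q p c := ⟨h.hq, h.hp, h.hy, h.hx⟩

section

variable (hG : G.Connected) (hS : S113Free G)

include hG hS

/-- the hub `p` of a vertex `v` -/
theorem hub (hP : Prime G) (hK : G.CliqueFree 4) {x y v : V} (hxy : G.dist x y = 5) (h3 : 3 ≤ G.dist x v)
    (h4 : G.dist x v ≤ 4) : ∃ p' p, End G x p' p ∧ ∀ I : Finset V, (∀ a ∈ I, G.Adj v a) →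
      (∀ a ∈ I, ∀ b ∈ I, ¬ G.Adj a b) → (∀ a ∈ I, ¬ G.Adj p a) → I.card ≤ 10 := by
  classical
  have ev : G.dist v x = G.dist x v := SimpleGraph.dist_comm
  obtain h | h : G.dist v x = 3 ∨ G.dist v x = 4 := by omega
  · obtain ⟨p1, p2, g⟩ := exists_geo hG h
    have d1 : G.dist x p2 = 1 := SimpleGraph.dist_eq_one_iff_adj.2 g.h3.symm
    have f1 := adj_le hG (u := x) g.h2.symm
    have f2 := adj_le hG (u := x) g.h1.symm
    refine ⟨p2, p1, ⟨g.h3.symm, g.h2.symm, by omega⟩, fun I hv hi hp => ?_⟩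
    have h1 := degA hG hS hP hK hxy g.h3.symm
    have hf : (G.neighborSet p2).Finite := Set.finite_of_encard_le_coe (k := 9) h1
    have hc : hf.toFinset.card ≤ 9 := by
      rw [hf.encard_eq_coe_toFinset_card] at h1
      exact_mod_cast h1
    have h2 : (I.filter fun a => ¬ G.Adj p2 a).card ≤ 1 := Finset.card_le_one.2 fun a ha b hb => by
      rw [Finset.mem_filter] at ha hb
      by_contra hab
      exact L2 hG hS g (hv a ha.1) (hv b hb.1) hab (hi a ha.1 b hb.1) (fun h => hp a ha.1 h.symm)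
        (fun h => hp b hb.1 h.symm) (fun h => ha.2 h.symm) (fun h => hb.2 h.symm)
    have h3 : (I.filter fun a => G.Adj p2 a).card ≤ hf.toFinset.card := Finset.card_le_card fun a ha => by
      rw [Finset.mem_filter] at ha
      simpa using ha.2
    have h4 := Finset.card_filter_add_card_filter_not (s := I) (fun a => G.Adj p2 a)
    omega
  · obtain ⟨p3, hp3, d3⟩ := pred hG (n := 3) h
    obtain ⟨p1, p2, g⟩ := exists_geo hG d3
    have d1 : G.dist x p3 = 1 := SimpleGraph.dist_eq_one_iff_adj.2 hp3.symm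
    have f1 := adj_le hG (u := x) g.h3.symm
    have f2 := adj_le hG (u := x) g.h2.symm
    have f3 := adj_le hG (u := x) g.h1.symm
    refine ⟨p3, p2, ⟨hp3.symm, g.h3.symm, by omega⟩, fun I hv hi hp => ?_⟩
    by_contra hcon
    obtain ⟨a, ha, b, hb, c, hc, hab, hac, hbc⟩ := Finset.two_lt_card.1 (by omega : 2 < I.card)
    exact L4 hG hS g hp3 h ⟨hv a ha, hv b hb, hv c hc, hab, hac, hbc, hi a ha b hb, hi a ha c hc, hi b hb c hc⟩
      (fun h => hp a ha h.symm) (fun h => hp b hb h.symm)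

/-- neighbours of `q` which are not adjacent to the adjacent hub `p` -/
theorem twoOut {x p' p q w1 w2 : V} (hp : End G x p' p) (hpq : G.Adj p q) (hq : 3 ≤ G.dist x q)
    (h1 : G.Adj q w1) (h2 : G.Adj q w2) (hne : w1 ≠ w2) (h12 : ¬ G.Adj w1 w2) (n1 : ¬ G.Adj p w1)
    (n2 : ¬ G.Adj p w2) (d1 : 3 ≤ G.dist x w1) (d2 : 3 ≤ G.dist x w2) : False := by
  have e0 : G.dist x x = 0 := SimpleGraph.dist_self
  have e1 : G.dist x p' = 1 := SimpleGraph.dist_eq_one_iff_adj.2 hp.h1
  have e2 := hp.d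
  exact hS.out q w1 w2 p p' x h1 h2 hpq.symm hp.h2.symm hp.h1.symm hne h12 (fun h => n1 h.symm)
    (nd hG x (by omega)) (nd hG x (by omega)) (fun h => n2 h.symm) (nd hG x (by omega)) (nd hG x (by omega))
    (nd hG x (by omega)) (nd hG x (by omega)) (nd hG x (by omega))

variable (hK : G.CliqueFree 4)

include hK

/-- the vertices which separate two non-adjacent middle vertices, adjacent hubs excluded: those adjacent to `p` -/
theorem sepP {x y p' p q' q c1 c2 z : V} (hxy : G.dist x y = 5) (hp : End G x p' p) (hq : End G y q' q)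
    (hpq : ¬ G.Adj p q) (h1 : Mid G x y p q c1) (h2 : Mid G x y p q c2) (h12 : ¬ G.Adj c1 c2) (z1 : G.Adj z c1)
    (z2 : ¬ G.Adj z c2) (zp : G.Adj z p) (zq : ¬ G.Adj z q) : G.Adj z p' := by
  have e0 : G.dist x x = 0 := SimpleGraph.dist_self
  have e1 : G.dist x p' = 1 := SimpleGraph.dist_eq_one_iff_adj.2 hp.h1
  have e2 := hp.d
  have f0 : G.dist y y = 0 := SimpleGraph.dist_self
  have f1 : G.dist y q' = 1 := SimpleGraph.dist_eq_one_iff_adj.2 hq.h1
  have f2 := hq.d
  have g1 := h1.hx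
  have g2 := h2.hx
  have g3 := h1.hy
  have g4 := h2.hy
  have t1 : G.dist x y ≤ G.dist x p + G.dist p y := hG.dist_triangle
  have t2 : G.dist x y ≤ G.dist x q + G.dist q y := hG.dist_triangle
  have t3 : G.dist x y ≤ G.dist x z + G.dist z y := hG.dist_triangle
  have s1 : G.dist p y = G.dist y p := SimpleGraph.dist_comm
  have s2 : G.dist q y = G.dist y q := SimpleGraph.dist_comm
  have s3 : G.dist z y = G.dist y z := SimpleGraph.dist_comm
  have u1 := adj_le hG (u := y) hp.h2
  have u2 := adj_le hG (u := x) hq.h2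
  have u3 := adj_le hG (u := x) hq.h1.symm
  have z3 := adj_le hG (u := x) z1
  have z4 := adj_le hG (u := y) z1
  have z5 := adj_le hG (u := x) zp.symm
  by_contra hzp'
  by_cases hzq' : G.Adj z q'
  · have z6 := adj_le hG (u := y) hzq'.symm
    exact hS.out p p' c2 z q' y hp.h2.symm h2.hp zp.symm hzq' hq.h1.symm (by rintro rfl; omega)
      (nd hG x (by omega)) (fun h => hzp' h.symm) (nd hG x (by omega)) (nd hG y (by omega)) (fun h => z2 h.symm)
      (nd hG y (by omega)) (nd hG y (by omega)) (nd hG y (by omega)) (nd hG y (by omega)) (nd hG y (by omega))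
  · exact hS.out p z p' c2 q q' zp.symm hp.h2.symm h2.hp h2.hq.symm hq.h2.symm (by rintro rfl; omega) hzp' z2 zq
      hzq' (nd hG x (by omega)) (nd hG x (by omega)) (nd hG x (by omega)) hpq (nd hG y (by omega))
      (nd hG y (by omega))

/-- no separating vertex away from both hubs -/
theorem sepN {x y p' p q' q c1 c2 z : V} (hxy : G.dist x y = 5) (hp : End G x p' p) (hq : End G y q' q)
    (hpq : ¬ G.Adj p q) (h1 : Mid G x y p q c1) (h2 : Mid G x y p q c2) (z1 : G.Adj z c1)
    (z2 : ¬ G.Adj z c2) (zp : ¬ G.Adj z p) (zq : ¬ G.Adj z q) : G.Adj z p' := by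
  have e0 : G.dist x x = 0 := SimpleGraph.dist_self
  have e1 : G.dist x p' = 1 := SimpleGraph.dist_eq_one_iff_adj.2 hp.h1
  have e2 := hp.d
  have f2 := hq.d
  have g1 := h1.hx
  have t2 : G.dist x y ≤ G.dist x q + G.dist q y := hG.dist_triangle
  have s2 : G.dist q y = G.dist y q := SimpleGraph.dist_comm
  have z3 := adj_le hG (u := x) z1
  by_contra hzp'
  exact hS.out c1 q z p p' x h1.hq.symm z1.symm h1.hp.symm hp.h2.symm hp.h1.symm
    (by rintro rfl; exact z2 h2.hq) (fun h => zq h.symm) (fun h => hpq h.symm) (nd hG x (by omega))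
    (nd hG x (by omega)) zp hzp' (nd hG x (by omega)) (nd hG x (by omega)) (nd hG x (by omega))
    (nd hG x (by omega))

/-- a separating vertex adjacent to `p` and not to `q`: few middle vertices are not adjacent to it -/
theorem threeP {x y p' p q' q c1 z : V} (hxy : G.dist x y = 5) (hp : End G x p' p) (hq : End G y q' q)
    (h1 : Mid G x y p q c1) (z1 : G.Adj z c1) (zq : ¬ G.Adj z q) (hzp' : G.Adj z p') (I : Finset V)
    (hI : I.card = 3) (hM : ∀ a ∈ I, Mid G x y p q a) (hz : ∀ a ∈ I, ¬ G.Adj z a)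
    (hi : ∀ a ∈ I, ∀ b ∈ I, ¬ G.Adj a b) : False := by
  classical
  have e0 : G.dist x x = 0 := SimpleGraph.dist_self
  have e1 : G.dist x p' = 1 := SimpleGraph.dist_eq_one_iff_adj.2 hp.h1
  have f2 := hq.d
  have g1 := h1.hx
  have t2 : G.dist x y ≤ G.dist x q + G.dist q y := hG.dist_triangle
  have s2 : G.dist q y = G.dist y q := SimpleGraph.dist_comm
  have z3 := adj_le hG (u := x) z1
  have A : ∀ b ∈ I, ∀ b' ∈ I, b ≠ b' → G.Adj c1 b → G.Adj c1 b' → False := by
    intro b hb b' hb' hne k1 k2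
    have m1 := (hM b hb).hx
    have m2 := (hM b' hb').hx
    exact hS.out c1 b b' z p' x k1 k2 z1.symm hzp' hp.h1.symm hne (hi b hb b' hb') (fun h => hz b hb h.symm)
      (nd hG x (by omega)) (nd hG x (by omega)) (fun h => hz b' hb' h.symm) (nd hG x (by omega))
      (nd hG x (by omega)) (nd hG x (by omega)) (nd hG x (by omega)) (nd hG x (by omega))
  have B : ∀ b ∈ I, ∀ b' ∈ I, b ≠ b' → ¬ G.Adj c1 b → ¬ G.Adj c1 b' → False := by
    intro b hb b' hb' hne k1 k2
    have m1 := (hM b hb).hx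
    have m2 := (hM b' hb').hx
    exact hS.out q b b' c1 z p' (hM b hb).hq (hM b' hb').hq h1.hq z1.symm hzp' hne (hi b hb b' hb')
      (fun h => k1 h.symm) (fun h => hz b hb h.symm) (nd hG x (by omega)) (fun h => k2 h.symm)
      (fun h => hz b' hb' h.symm) (nd hG x (by omega)) (fun h => zq h.symm) (nd hG x (by omega))
      (nd hG x (by omega))
  obtain ⟨a, ha, b, hb, c, hc, hab, hac, hbc⟩ := Finset.two_lt_card.1 (by omega : 2 < I.card)
  by_cases ka : G.Adj c1 a <;> by_cases kb : G.Adj c1 b <;> by_cases kc : G.Adj c1 c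
  · exact A a ha b hb hab ka kb
  · exact A a ha b hb hab ka kb
  · exact A a ha c hc hac ka kc
  · exact B b hb c hc hbc kb kc
  · exact A b hb c hc hbc kb kc
  · exact B a ha c hc hac ka kc
  · exact B a ha b hb hab ka kb
  · exact B a ha b hb hab ka kb

/-- non-adjacent hubs -/
theorem caseN (hP : Prime G) {x y p' p q' q v : V} (hxy : G.dist x y = 5) (hp : End G x p' p)
    (hq : End G y q' q) (hpq : ¬ G.Adj p q) (H : Finset V) (hH : ∀ w, G.dist x w ≤ 2 ∨ G.dist y w ≤ 2 → w ∈ H)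
    (I : Finset V) (hM : ∀ a ∈ I, Mid G x y p q a) (hv : ∀ a ∈ I, G.Adj v a)
    (hi : ∀ a ∈ I, ∀ b ∈ I, ¬ G.Adj a b) : I.card ≤ 12 + 2 ^ (H.card + 12) := by
  classical
  have hyx : G.dist y x = 5 := by rw [SimpleGraph.dist_comm]; exact hxy
  have hqp : ¬ G.Adj q p := fun h => hpq h.symm
  have e1 : G.dist x p' = 1 := SimpleGraph.dist_eq_one_iff_adj.2 hp.h1
  have f1 : G.dist y q' = 1 := SimpleGraph.dist_eq_one_iff_adj.2 hq.h1
  have e2 := hp.d
  have f2 := hq.d
  have t1 : G.dist x y ≤ G.dist x p + G.dist p y := hG.dist_triangle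
  have t2 : G.dist x y ≤ G.dist x q + G.dist q y := hG.dist_triangle
  have s1 : G.dist p y = G.dist y p := SimpleGraph.dist_comm
  have s2 : G.dist q y = G.dist y q := SimpleGraph.dist_comm
  -- separating vertices are middle vertices or in `H`
  have notH : ∀ c1 c2 z, Mid G x y p q c1 → Mid G x y p q c2 → ¬ G.Adj c1 c2 → G.Adj z c1 → ¬ G.Adj z c2 →
      ¬ Mid G x y p q z → z ∈ H := by
    intro c1 c2 z k1 k2 k3 k4 k5 k6
    apply hH
    by_cases zp : G.Adj z p
    · by_cases zq : G.Adj z q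
      · by_contra hcon
        exact k6 ⟨zp.symm, zq.symm, by omega, by omega⟩
      · have h1 := sepP hG hS hK hxy hp hq hpq k1 k2 k3 k4 k5 zp zq
        have h2 := adj_le hG (u := x) h1.symm
        left
        omega
    · by_cases zq : G.Adj z q
      · have h1 := sepP hG hS hK hyx hq hp hqp k1.symm k2.symm k3 k4 k5 zq zp
        have h2 := adj_le hG (u := y) h1.symm
        right
        omega
      · have h1 := sepN hG hS hK hxy hp hq hpq k1 k2 k4 k5 zp zq
        have h2 := adj_le hG (u := x) h1.symm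
        left
        omega
  by_cases hsep : ∃ z c1 c2, ¬ Mid G x y p q z ∧ Mid G x y p q c1 ∧ Mid G x y p q c2 ∧ ¬ G.Adj c1 c2 ∧
      G.Adj z c1 ∧ ¬ G.Adj z c2
  · obtain ⟨z, c1, c2, k6, k1, k2, k3, k4, k5⟩ := hsep
    -- `z` is adjacent to `p` or to `q`, and few middle vertices are not adjacent to `z`
    have hz : (G.Adj z p ∨ G.Adj z q) ∧ ∀ J : Finset V, J.card = 3 → (∀ a ∈ J, Mid G x y p q a) →
        (∀ a ∈ J, ¬ G.Adj z a) → (∀ a ∈ J, ∀ b ∈ J, ¬ G.Adj a b) → False := by
      by_cases zp : G.Adj z p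
      · refine ⟨Or.inl zp, ?_⟩
        by_cases zq : G.Adj z q
        · intro J hJ hJM hJz hJi
          have hzd : G.dist x z ≤ 2 ∨ G.dist y z ≤ 2 := by
            by_contra hcon
            exact k6 ⟨zp.symm, zq.symm, by omega, by omega⟩
          obtain ⟨a, ha, b, hb, hab⟩ := Finset.one_lt_card.1 (by omega : 1 < J.card)
          rcases hzd with hzd | hzd
          · have w1 := adj_le hG (u := x) zq
            have w2 : G.dist x z = 2 := by omega
            obtain ⟨z', hz', hz1⟩ := pred hG (n := 1) w2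
            exact twoOut hG hS (x := x) (p' := z') (p := z) (q := q)
              ⟨SimpleGraph.dist_eq_one_iff_adj.1 hz1, hz', w2⟩ zq (by omega) (hJM a ha).hq (hJM b hb).hq hab
              (hJi a ha b hb) (hJz a ha) (hJz b hb) (hJM a ha).hx (hJM b hb).hx
          · have w1 := adj_le hG (u := y) zp
            have w2 : G.dist y z = 2 := by omega
            obtain ⟨z', hz', hz1⟩ := pred hG (n := 1) w2
            exact twoOut hG hS (x := y) (p' := z') (p := z) (q := p)
              ⟨SimpleGraph.dist_eq_one_iff_adj.1 hz1, hz', w2⟩ zp (by omega) (hJM a ha).hp (hJM b hb).hp hab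
              (hJi a ha b hb) (hJz a ha) (hJz b hb) (hJM a ha).hy (hJM b hb).hy
        · exact fun J hJ hJM hJz hJi => threeP hG hS hK hxy hp hq k1 k4 zq
            (sepP hG hS hK hxy hp hq hpq k1 k2 k3 k4 k5 zp zq) J hJ hJM hJz hJi
      · by_cases zq : G.Adj z q
        · exact ⟨Or.inr zq, fun J hJ hJM hJz hJi => threeP hG hS hK hyx hq hp k1.symm k4 zp
            (sepP hG hS hK hyx hq hp hqp k1.symm k2.symm k3 k4 k5 zq zp) J hJ (fun a ha => (hJM a ha).symm) hJz hJi⟩
        · exfalso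
          have h1 := sepN hG hS hK hxy hp hq hpq k1 k2 k4 k5 zp zq
          have h2 := sepN hG hS hK hyx hq hp hqp k1.symm k2.symm k4 k5 zq zp
          have h3 := adj_le hG (u := x) h1.symm
          have h4 := adj_le hG (u := x) h2
          have h5 := adj_le hG (u := x) hq.h1.symm
          omega
    obtain ⟨hzpq, hz3⟩ := hz
    -- middle vertices adjacent to `z` are independent
    have hind : ∀ a b, Mid G x y p q a → Mid G x y p q b → G.Adj z a → G.Adj z b → ¬ G.Adj a b := by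
      intro a b ha hb za zb hab
      rcases hzpq with h | h
      · exact noK4 hK h za zb ha.hp hb.hp hab
      · exact noK4 hK h za zb ha.hq hb.hq hab
    obtain ⟨S, hSS, hSc⟩ := finOf hK 3 p {w | Mid G x y p q w ∧ ¬ G.Adj z w} (fun w hw => hw.1.hp)
      (fun J hJ hJM hJi => hz3 J hJ (fun a ha => (hJM a ha).1) (fun a ha => (hJM a ha).2) hJi)
    have hSm : ∀ w, Mid G x y p q w → ¬ G.Adj z w → w ∈ S := by
      intro w h1 h2
      rw [← Finset.mem_coe, hSS]
      exact ⟨h1, h2⟩
    have hc1 : (I.filter fun a => G.Adj z a).card ≤ 2 ^ (H ∪ S).card := by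
      refine sepCard hP (v := v) _ _ (fun a ha => hv a (Finset.mem_filter.1 ha).1) ?_
      intro a ha b hb w hwa hwb
      rw [Finset.mem_filter] at ha hb
      rw [Finset.mem_union]
      by_cases hw : Mid G x y p q w
      · right
        refine hSm w hw fun hzw => ?_
        exact hind w a hw (hM a ha.1) hzw ha.2 hwa
      · left
        exact notH a b w (hM a ha.1) (hM b hb.1) (hi a ha.1 b hb.1) hwa hwb hw
    have hc2 : (I.filter fun a => ¬ G.Adj z a).card ≤ S.card := Finset.card_le_card fun a ha => by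
      rw [Finset.mem_filter] at ha
      exact hSm a (hM a ha.1) ha.2
    have hc3 := Finset.card_filter_add_card_filter_not (s := I) (fun a => G.Adj z a)
    have hc4 : 2 ^ (H ∪ S).card ≤ 2 ^ (H.card + 12) :=
      Nat.pow_le_pow_right (by norm_num) ((Finset.card_union_le _ _).trans (by omega))
    omega
  · have h1 : I.card ≤ 1 := Finset.card_le_one.2 fun a ha b hb => by
      by_contra hab
      refine hi a ha b hb (clique_gen hP (fun w => Mid G x y p q w) (o := p) (fun h => G.loopless.irrefl _ h.hp)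
        (fun c1 c2 z k1 k2 k3 k4 k5 => ?_) (hM a ha) (hM b hb) hab)
      by_contra k6
      exact hsep ⟨z, c1, c2, k6, k1, k2, k3, k4, k5⟩
    exact h1.trans ((by norm_num : 1 ≤ 12).trans (Nat.le_add_right _ _))

/-- adjacent hubs, `v` not adjacent to `q` -/
theorem caseA (hP : Prime G) {x y p' p q' q v : V} (hxy : G.dist x y = 5) (hp : End G x p' p)
    (hq : End G y q' q) (hpq : G.Adj p q) (H : Finset V) (hH : ∀ w, G.dist x w ≤ 2 ∨ G.dist y w ≤ 2 → w ∈ H)
    (I : Finset V) (hM : ∀ a ∈ I, Mid G x y p q a) (hv : ∀ a ∈ I, G.Adj v a) (hvy : 3 ≤ G.dist y v)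
    (hvq : ¬ G.Adj v q) (h10 : ∀ J : Finset V, (∀ a ∈ J, G.Adj v a) → (∀ a ∈ J, ∀ b ∈ J, ¬ G.Adj a b) →
      (∀ a ∈ J, ¬ G.Adj q a) → J.card ≤ 10) : I.card ≤ 2 ^ (H.card + 144) := by
  classical
  have hyx : G.dist y x = 5 := by rw [SimpleGraph.dist_comm]; exact hxy
  have f0 : G.dist y y = 0 := SimpleGraph.dist_self
  have f1 : G.dist y q' = 1 := SimpleGraph.dist_eq_one_iff_adj.2 hq.h1
  have e2 := hp.d
  have f2 := hq.d
  have t1 : G.dist x y ≤ G.dist x p + G.dist p y := hG.dist_triangle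
  have t2 : G.dist x y ≤ G.dist x q + G.dist q y := hG.dist_triangle
  have s1 : G.dist p y = G.dist y p := SimpleGraph.dist_comm
  have s2 : G.dist q y = G.dist y q := SimpleGraph.dist_comm
  obtain ⟨E1, hE1, c1⟩ := finOf hK 2 q {w | G.Adj q w ∧ ¬ G.Adj p w ∧ 3 ≤ G.dist x w} (fun w hw => hw.1)
    (fun J hJ hJM hJi => by
      obtain ⟨a, ha, b, hb, hab⟩ := Finset.one_lt_card.1 (by omega : 1 < J.card)
      exact twoOut hG hS hp hpq (by omega) (hJM a ha).1 (hJM b hb).1 hab (hJi a ha b hb) (hJM a ha).2.1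
        (hJM b hb).2.1 (hJM a ha).2.2 (hJM b hb).2.2)
  obtain ⟨E2, hE2, c2⟩ := finOf hK 2 p {w | G.Adj p w ∧ ¬ G.Adj q w ∧ 3 ≤ G.dist y w} (fun w hw => hw.1)
    (fun J hJ hJM hJi => by
      obtain ⟨a, ha, b, hb, hab⟩ := Finset.one_lt_card.1 (by omega : 1 < J.card)
      exact twoOut hG hS hq hpq.symm (by omega) (hJM a ha).1 (hJM b hb).1 hab (hJi a ha b hb) (hJM a ha).2.1
        (hJM b hb).2.1 (hJM a ha).2.2 (hJM b hb).2.2)
  obtain ⟨F, hF, c3⟩ := finOf hK 11 v {w | G.Adj v w ∧ ¬ G.Adj q w} (fun w hw => hw.1)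
    (fun J hJ hJM hJi => by
      have := h10 J (fun a ha => (hJM a ha).1) hJi (fun a ha => (hJM a ha).2)
      omega)
  have m1 : ∀ w, G.Adj q w → ¬ G.Adj p w → 3 ≤ G.dist x w → w ∈ E1 := fun w k1 k2 k3 => by
    rw [← Finset.mem_coe, hE1]
    exact ⟨k1, k2, k3⟩
  have m2 : ∀ w, G.Adj p w → ¬ G.Adj q w → 3 ≤ G.dist y w → w ∈ E2 := fun w k1 k2 k3 => by
    rw [← Finset.mem_coe, hE2]
    exact ⟨k1, k2, k3⟩
  have m3 : ∀ w, G.Adj v w → ¬ G.Adj q w → w ∈ F := fun w k1 k2 => by
    rw [← Finset.mem_coe, hF]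
    exact ⟨k1, k2⟩
  have key : I.card ≤ 2 ^ (H ∪ E1 ∪ E2 ∪ F).card := by
    refine sepCard hP (v := v) _ _ hv ?_
    intro a ha b hb w hwa hwb
    simp only [Finset.mem_union]
    by_cases hw : w ∈ H
    · exact Or.inl (Or.inl (Or.inl hw))
    have hw1 : 3 ≤ G.dist x w := by
      by_contra hcon
      exact hw (hH w (Or.inl (by omega)))
    have hw2 : 3 ≤ G.dist y w := by
      by_contra hcon
      exact hw (hH w (Or.inr (by omega)))
    have ma := hM a ha
    have ma1 := ma.hy
    by_cases wp : G.Adj w p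
    · by_cases wq : G.Adj w q
      · exact (noK4 hK wp wq hwa hpq ma.hp ma.hq).elim
      · exact Or.inl (Or.inr (m2 w wp.symm (fun h => wq h.symm) hw2))
    · by_cases wq : G.Adj w q
      · exact Or.inl (Or.inl (Or.inr (m1 w wq.symm (fun h => wp h.symm) hw1)))
      · by_cases wv : G.Adj v w
        · exact Or.inr (m3 w wv fun h => wq h.symm)
        · exfalso
          exact hS.out a v w q q' y (hv a ha).symm hwa.symm ma.hq.symm hq.h2.symm hq.h1.symm
            (by rintro rfl; exact hwb (hv b hb)) wv hvq (nd hG y (by omega)) (nd hG y (by omega)) wq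
            (nd hG y (by omega)) (nd hG y (by omega)) (nd hG y (by omega)) (nd hG y (by omega))
            (nd hG y (by omega))
  refine key.trans (Nat.pow_le_pow_right (by norm_num) ?_)
  have c4 := Finset.card_union_le (H ∪ E1 ∪ E2) F
  have c5 := Finset.card_union_le (H ∪ E1) E2
  have c6 := Finset.card_union_le H E1
  omega

/-- the theorem: few vertices near the ends, bounded degree elsewhere -/
theorem five (hP : Prime G) {x y : V} (hxy : G.dist x y = 5) :
    ∃ H : Finset V, H.card ≤ 102 ∧ (∀ w, G.dist x w ≤ 2 ∨ G.dist y w ≤ 2 → w ∈ H) ∧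
      ∀ v, 3 ≤ G.dist x v → 3 ≤ G.dist y v →
        (G.neighborSet v).encard ≤ (((2 ^ 250) * (2 ^ 250 + 1) : ℕ) : ℕ∞) := by
  classical
  have hyx : G.dist y x = 5 := by rw [SimpleGraph.dist_comm]; exact hxy
  obtain ⟨F1, c1, m1⟩ := ball hG hS hP hK hxy
  obtain ⟨F2, c2, m2⟩ := ball hG hS hP hK hyx
  have hH : ∀ w, G.dist x w ≤ 2 ∨ G.dist y w ≤ 2 → w ∈ F1 ∪ F2 := by
    rintro w (h | h)
    · exact Finset.mem_union_left _ (m1 w h)
    · exact Finset.mem_union_right _ (m2 w h)
  have hc : (F1 ∪ F2).card ≤ 102 := (Finset.card_union_le _ _).trans (by omega)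
  refine ⟨F1 ∪ F2, hc, hH, fun v hvx hvy => ?_⟩
  refine deg_of_star hK (2 ^ 250) v fun I hI hv hi => ?_
  obtain ⟨a, ha, b, hb, c, hc', hab, hac, hbc⟩ := Finset.two_lt_card.1 (by rw [hI]; norm_num : 2 < I.card)
  have hcl : Claw G v a b c := ⟨hv a ha, hv b hb, hv c hc', hab, hac, hbc, hi a ha b hb, hi a ha c hc', hi b hb c hc'⟩
  have ex := ecc hG hS hcl x
  have ey := ecc hG hS hcl y
  have s1 : G.dist v x = G.dist x v := SimpleGraph.dist_comm
  have s2 : G.dist v y = G.dist y v := SimpleGraph.dist_comm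
  obtain ⟨p', p, hp, hp10⟩ := hub hG hS hP hK hxy hvx (by omega)
  obtain ⟨q', q, hq, hq10⟩ := hub hG hS hP hK hyx hvy (by omega)
  set J := (((I.filter fun w => G.Adj p w).filter fun w => G.Adj q w).filter fun w => w ∉ F1 ∪ F2) with hJ
  have hJM : ∀ w ∈ J, Mid G x y p q w := by
    intro w hw
    rw [hJ, Finset.mem_filter, Finset.mem_filter, Finset.mem_filter] at hw
    refine ⟨hw.1.1.2, hw.1.2, ?_, ?_⟩
    · by_contra hcon
      exact hw.2 (hH w (Or.inl (by omega)))
    · by_contra hcon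
      exact hw.2 (hH w (Or.inr (by omega)))
  have hJI : ∀ w ∈ J, w ∈ I := by
    intro w hw
    rw [hJ, Finset.mem_filter, Finset.mem_filter, Finset.mem_filter] at hw
    exact hw.1.1.1
  have n1 := Finset.card_filter_add_card_filter_not (s := I) (fun w => G.Adj p w)
  have n2 := Finset.card_filter_add_card_filter_not (s := I.filter fun w => G.Adj p w) (fun w => G.Adj q w)
  have n3 := Finset.card_filter_add_card_filter_not
    (s := (I.filter fun w => G.Adj p w).filter fun w => G.Adj q w) (fun w => w ∉ F1 ∪ F2)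
  have l1 : (I.filter fun w => ¬ G.Adj p w).card ≤ 10 := hp10 _ (fun a ha => hv a (Finset.mem_filter.1 ha).1)
    (fun a ha b hb => hi a (Finset.mem_filter.1 ha).1 b (Finset.mem_filter.1 hb).1)
    (fun a ha => (Finset.mem_filter.1 ha).2)
  have l2 : ((I.filter fun w => G.Adj p w).filter fun w => ¬ G.Adj q w).card ≤ 10 :=
    hq10 _ (fun a ha => hv a (Finset.mem_filter.1 (Finset.mem_filter.1 ha).1).1)
      (fun a ha b hb => hi a (Finset.mem_filter.1 (Finset.mem_filter.1 ha).1).1 b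
        (Finset.mem_filter.1 (Finset.mem_filter.1 hb).1).1)
      (fun a ha => (Finset.mem_filter.1 ha).2)
  have l3 : (((I.filter fun w => G.Adj p w).filter fun w => G.Adj q w).filter fun w => ¬ w ∉ F1 ∪ F2).card ≤
      (F1 ∪ F2).card := Finset.card_le_card fun w hw => by
    have := (Finset.mem_filter.1 hw).2
    rwa [not_not] at this
  have hJc : 2 ^ 249 ≤ J.card := by
    have : (2 : ℕ) ^ 249 + 1000 ≤ 2 ^ 250 := by norm_num
    rw [← hJ] at n3
    omega
  have hJv : ∀ a ∈ J, G.Adj v a := fun a ha => hv a (hJI a ha)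
  have hJi : ∀ a ∈ J, ∀ b ∈ J, ¬ G.Adj a b := fun a ha b hb => hi a (hJI a ha) b (hJI b hb)
  have u1 : (2 : ℕ) ^ ((F1 ∪ F2).card + 144) ≤ 2 ^ 246 := Nat.pow_le_pow_right (by norm_num) (by omega)
  have u2 : (2 : ℕ) ^ ((F1 ∪ F2).card + 12) ≤ 2 ^ 246 := Nat.pow_le_pow_right (by norm_num) (by omega)
  have u3 : (2 : ℕ) ^ 246 + 12 < 2 ^ 249 := by norm_num
  by_cases hpq : G.Adj p q
  · by_cases hvq : G.Adj v q
    · by_cases hvp : G.Adj v p
      · obtain ⟨w, hw⟩ : J.Nonempty := Finset.card_pos.1 (lt_of_lt_of_le (by norm_num) hJc)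
        exact noK4 hK hvp hvq (hJv w hw) hpq (hJM w hw).hp (hJM w hw).hq
      · have := caseA hG hS hK hP hyx hq hp hpq.symm (F1 ∪ F2) (fun w hw => hH w hw.symm) J
          (fun a ha => (hJM a ha).symm) hJv hvx hvp hp10
        omega
    · have := caseA hG hS hK hP hxy hp hq hpq (F1 ∪ F2) hH J hJM hJv hvy hvq hq10
      omega
  · have := caseN hG hS hK hP hxy hp hq hpq (F1 ∪ F2) hH J hJM hJv hJi
    omega

end

end Pool.Agent.H98.GI
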