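import Pool.Agent.H98.GI.Prime

/-!
# Prime `(K_4, S_{1,1,3})`-free graphs with two vertices at distance `4` and many vertices of large degree

The half graph on `a_i`, `b_j` (`a_i` adjacent to `b_j` if `i ≤ j`) with two more vertices `h_0`, `h_1`, adjacent to all `a_i`,
and a pendant vertex at each of these.
-/

set_option autoImplicit false

namespace Pool.Agent.H98.GI.Half

/-- vertices: `a_i`, `b_j`, the two hubs, their pendant vertices -/
abbrev HV (n : ℕ) : Type := (Fin n ⊕ Fin n) ⊕ (Bool ⊕ Bool)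

def adj {n : ℕ} : HV n → HV n → Prop
  | .inl (.inl i), .inl (.inr j) => i.val ≤ j.val
  | .inl (.inr j), .inl (.inl i) => i.val ≤ j.val
  | .inl (.inl _), .inr (.inl _) => True
  | .inr (.inl _), .inl (.inl _) => True
  | .inr (.inl s), .inr (.inr t) => s = t
  | .inr (.inr t), .inr (.inl s) => s = t
  | _, _ => False

theorem adj_symm {n : ℕ} (u w : HV n) (h : adj u w) : adj w u := by
  rcases u with (i | i) | (i | i) <;> rcases w with (j | j) | (j | j) <;> exact h

theorem adj_irrefl {n : ℕ} (u : HV n) : ¬ adj u u := by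
  rcases u with (i | i) | (i | i) <;> exact fun h => h

def H (n : ℕ) : SimpleGraph (HV n) where
  Adj := adj
  symm := ⟨fun u w h => adj_symm u w h⟩
  loopless := ⟨fun u => adj_irrefl u⟩

/-! ### no `K_4` -/

def col {n : ℕ} : HV n → Bool
  | .inl (.inl _) => true
  | .inl (.inr _) => false
  | .inr (.inl _) => false
  | .inr (.inr _) => true

theorem col_ne {n : ℕ} (u w : HV n) (h : adj u w) : col u ≠ col w := by
  rcases u with (i | i) | (i | i) <;> rcases w with (j | j) | (j | j) <;>
    first | exact h.elim | exact Bool.noConfusion | exact fun h => Bool.noConfusion h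

theorem clique (n : ℕ) : (H n).CliqueFree 4 := by
  have h1 : (H n).Colorable 2 := by
    have c : (H n).Coloring Bool := SimpleGraph.Coloring.mk col (fun {u w} h => col_ne u w h)
    simpa using c.colorable
  exact h1.cliqueFree (by norm_num)

/-! ### no `S_{1,1,3}` -/

/-- the only two independent edges are the pendant ones -/
theorem two {n : ℕ} (p q r s : HV n) (h1 : adj p q) (h2 : adj r s) (n1 : ¬ adj p r) (n2 : ¬ adj p s)
    (n3 : ¬ adj q r) (n4 : ¬ adj q s) : (∃ t, (p = .inr (.inl t) ∧ q = .inr (.inr t)) ∨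
      (p = .inr (.inr t) ∧ q = .inr (.inl t))) := by
  rcases p with (i | i) | (i | i) <;> rcases q with (j | j) | (j | j) <;>
    first
    | exact h1.elim
    | (have e : i = j := h1
       subst e
       exact ⟨i, Or.inl ⟨rfl, rfl⟩⟩)
    | (have e : j = i := h1
       subst e
       exact ⟨j, Or.inr ⟨rfl, rfl⟩⟩)
    | (exfalso
       rcases r with (k | k) | (k | k) <;> rcases s with (l | l) | (l | l) <;>
        first
        | exact h2.elim
        | exact n1 trivial
        | exact n2 trivial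
        | exact n3 trivial
        | exact n4 trivial
        | (simp only [adj] at h1 h2 n1 n2 n3 n4
           omega))

theorem SF (n : ℕ) : S113Free (H n) := by
  rintro ⟨f⟩
  have hA : ∀ i j, S113.Adj i j → adj (f i) (f j) := fun i j h => f.map_rel_iff.2 h
  have hN : ∀ i j, ¬ S113.Adj i j → ¬ adj (f i) (f j) := fun i j h h' => h (f.map_rel_iff.1 h')
  have a01 : S113.Adj 0 1 := by simp [S113]
  have a02 : S113.Adj 0 2 := by simp [S113]
  have a45 : S113.Adj 4 5 := by simp [S113]
  have n04 : ¬ S113.Adj 0 4 := by simp [S113]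
  have n05 : ¬ S113.Adj 0 5 := by simp [S113]
  have n14 : ¬ S113.Adj 1 4 := by simp [S113]
  have n15 : ¬ S113.Adj 1 5 := by simp [S113]
  have n24 : ¬ S113.Adj 2 4 := by simp [S113]
  have n25 : ¬ S113.Adj 2 5 := by simp [S113]
  obtain ⟨t, ht⟩ := two (f 0) (f 1) (f 4) (f 5) (hA _ _ a01) (hA _ _ a45) (hN _ _ n04) (hN _ _ n05)
    (hN _ _ n14) (hN _ _ n15)
  obtain ⟨t', ht'⟩ := two (f 0) (f 2) (f 4) (f 5) (hA _ _ a02) (hA _ _ a45) (hN _ _ n04) (hN _ _ n05)
    (hN _ _ n24) (hN _ _ n25)
  have h12 : f 1 = f 2 := by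
    rcases ht with ⟨h1, h2⟩ | ⟨h1, h2⟩ <;> rcases ht' with ⟨h3, h4⟩ | ⟨h3, h4⟩ <;> rw [h1] at h3
    · rw [h2, h4]
      simpa using h3
    · simp at h3
    · simp at h3
    · rw [h2, h4]
      simpa using h3
  exact absurd (f.injective h12) (by decide)

/-! ### connected, distance `4` -/

def lev {n : ℕ} : HV n → ℕ
  | .inl (.inl _) => 2
  | .inl (.inr _) => 3
  | .inr (.inl s) => if s then 3 else 1
  | .inr (.inr s) => if s then 4 else 0

theorem lev_le {n : ℕ} (u w : HV n) (h : adj u w) : lev w ≤ lev u + 1 := by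
  rcases u with (i | i) | (i | i) <;> rcases w with (j | j) | (j | j) <;>
    first
    | exact h.elim
    | (have e : i = j := h
       subst e
       cases i <;> simp [lev])
    | (have e : j = i := h
       subst e
       cases j <;> simp [lev])
    | (simp only [lev]; split_ifs <;> omega)
    | simp [lev]

theorem lev_walk {n : ℕ} {u w : HV n} (p : (H n).Walk u w) : lev w ≤ lev u + p.length := by
  induction p with
  | nil => simp
  | cons h p ih =>
    have := lev_le _ _ h
    rw [SimpleGraph.Walk.length_cons]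
    omega

theorem conn (n : ℕ) : (H (n + 1)).Connected := by
  have rh : ∀ s, (H (n + 1)).Reachable (.inr (.inl s)) (.inl (.inl 0)) := fun s =>
    SimpleGraph.Adj.reachable (show (H (n + 1)).Adj (.inr (.inl s)) (.inl (.inl 0)) from trivial)
  have key : ∀ u : HV (n + 1), (H (n + 1)).Reachable u (.inl (.inl 0)) := by
    rintro ((i | i) | (i | i))
    · exact (SimpleGraph.Adj.reachable
        (show (H (n + 1)).Adj (.inl (.inl i)) (.inr (.inl true)) from trivial)).trans (rh true)
    · exact SimpleGraph.Adj.reachable (show (H (n + 1)).Adj (.inl (.inr i)) (.inl (.inl 0)) from Nat.zero_le _)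
    · exact rh i
    · exact (SimpleGraph.Adj.reachable (show (H (n + 1)).Adj (.inr (.inr i)) (.inr (.inl i)) from rfl)).trans (rh i)
  have : Nonempty (HV (n + 1)) := ⟨.inl (.inl 0)⟩
  exact ⟨fun u w => (key u).trans (key w).symm⟩

theorem dist4 (n : ℕ) : (H (n + 1)).dist (.inr (.inr false)) (.inr (.inr true)) = 4 := by
  refine le_antisymm ?_ ?_
  · have h1 : (H (n + 1)).Adj (.inr (.inr false)) (.inr (.inl false)) := rfl
    have h2 : (H (n + 1)).Adj (.inr (.inl false)) (.inl (.inl 0)) := trivial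
    have h3 : (H (n + 1)).Adj (.inl (.inl 0)) (.inr (.inl true)) := trivial
    have h4 : (H (n + 1)).Adj (.inr (.inl true)) (.inr (.inr true)) := rfl
    exact SimpleGraph.dist_le (.cons h1 (.cons h2 (.cons h3 (.cons h4 .nil))))
  · obtain ⟨p, hp⟩ := (conn n).exists_walk_length_eq_dist (.inr (.inr false)) (.inr (.inr true))
    have h1 := lev_walk p
    have h2 : lev (n := n + 1) (.inr (.inr true)) = 4 := rfl
    have h3 : lev (n := n + 1) (.inr (.inr false)) = 0 := rfl
    omega

/-! ### degrees -/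

theorem deg_a (n : ℕ) (i : Fin (2 * n + 1)) (hi : i.val < n) :
    (n : ℕ∞) ≤ ((H (2 * n + 1)).neighborSet (.inl (.inl i))).encard := by
  have h1 : Set.range (fun k : Fin n => (.inl (.inr ⟨n + k.val, by omega⟩) : HV (2 * n + 1))) ⊆
      (H (2 * n + 1)).neighborSet (.inl (.inl i)) := by
    rintro _ ⟨k, rfl⟩
    show i.val ≤ n + k.val
    omega
  have h2 : Function.Injective (fun k : Fin n => (.inl (.inr ⟨n + k.val, by omega⟩) : HV (2 * n + 1))) := fun k l h => by
    simp only [Sum.inl.injEq, Sum.inr.injEq, Fin.mk.injEq] at h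
    ext
    omega
  refine le_trans ?_ (Set.encard_le_encard h1)
  rw [← Set.image_univ, h2.encard_image, Set.encard_univ]
  simp

theorem many (n : ℕ) : ∃ S : Finset (HV (2 * n + 1)), S.card = n ∧
    ∀ v ∈ S, (n : ℕ∞) ≤ ((H (2 * n + 1)).neighborSet v).encard := by
  have h2 : Function.Injective (fun k : Fin n => (.inl (.inl ⟨k.val, by omega⟩) : HV (2 * n + 1))) := fun k l h => by
    simp only [Sum.inl.injEq, Fin.mk.injEq] at h
    ext
    omega
  refine ⟨Finset.univ.map ⟨_, h2⟩, by simp, fun v hv => ?_⟩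
  obtain ⟨k, _, rfl⟩ := Finset.mem_map.1 hv
  exact deg_a n _ k.isLt

/-! ### primality -/

/-- two neighbours of `z` are separated by a vertex which is not adjacent to `z` -/
theorem sepv {n : ℕ} (z u w : HV n) (h1 : adj z u) (h2 : adj z w) (h3 : u ≠ w) :
    ∃ t, ¬ adj z t ∧ ((adj t u ∧ ¬ adj t w) ∨ (¬ adj t u ∧ adj t w)) := by
  rcases z with (i | i) | (i | i)
  · rcases u with (j | j) | (j | j) <;> rcases w with (k | k) | (k | k) <;>
      first | exact h1.elim | exact h2.elim | skip
    · -- `b_j`, `b_k`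
      have hjk : j.val ≠ k.val := fun h => h3 (by rw [Fin.ext h])
      rcases Nat.lt_or_gt_of_ne hjk with h | h
      · refine ⟨.inl (.inl k), fun h => h, Or.inr ⟨?_, le_refl k.val⟩⟩
        show ¬ k.val ≤ j.val
        omega
      · refine ⟨.inl (.inl j), fun h => h, Or.inl ⟨le_refl j.val, ?_⟩⟩
        show ¬ j.val ≤ k.val
        omega
    · exact ⟨.inr (.inr k), fun h => h, Or.inr ⟨fun h => h, rfl⟩⟩
    · exact ⟨.inr (.inr j), fun h => h, Or.inl ⟨rfl, fun h => h⟩⟩
    · refine ⟨.inr (.inr j), fun h => h, Or.inl ⟨rfl, fun h => h3 ?_⟩⟩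
      have e : k = j := h
      rw [e]
  · rcases u with (j | j) | (j | j) <;> rcases w with (k | k) | (k | k) <;>
      first | exact h1.elim | exact h2.elim | skip
    have hjk : j.val ≠ k.val := fun h => h3 (by rw [Fin.ext h])
    rcases Nat.lt_or_gt_of_ne hjk with h | h
    · refine ⟨.inl (.inr j), fun h => h, Or.inl ⟨le_refl j.val, ?_⟩⟩
      show ¬ k.val ≤ j.val
      omega
    · refine ⟨.inl (.inr k), fun h => h, Or.inr ⟨?_, le_refl k.val⟩⟩
      show ¬ j.val ≤ k.val
      omega
  · rcases u with (j | j) | (j | j) <;> rcases w with (k | k) | (k | k) <;>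
      first | exact h1.elim | exact h2.elim | skip
    · have hjk : j.val ≠ k.val := fun h => h3 (by rw [Fin.ext h])
      rcases Nat.lt_or_gt_of_ne hjk with h | h
      · refine ⟨.inl (.inr j), fun h => h, Or.inl ⟨le_refl j.val, ?_⟩⟩
        show ¬ k.val ≤ j.val
        omega
      · refine ⟨.inl (.inr k), fun h => h, Or.inr ⟨?_, le_refl k.val⟩⟩
        show ¬ j.val ≤ k.val
        omega
    · refine ⟨.inr (.inl (!i)), fun h => h, Or.inl ⟨trivial, fun h => ?_⟩⟩
      have e1 : (!i) = k := h
      have e2 : i = k := h2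
      rw [e2] at e1
      cases k <;> simp at e1
    · refine ⟨.inr (.inl (!i)), fun h => h, Or.inr ⟨fun h => ?_, trivial⟩⟩
      have e1 : (!i) = j := h
      have e2 : i = j := h1
      rw [e2] at e1
      cases j <;> simp at e1
    · have e1 : i = j := h1
      have e2 : i = k := h2
      exact absurd (by rw [← e1, ← e2]) h3
  · rcases u with (j | j) | (j | j) <;> rcases w with (k | k) | (k | k) <;>
      first | exact h1.elim | exact h2.elim | skip
    have e1 : j = i := h1
    have e2 : k = i := h2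
    exact absurd (by rw [e1, e2]) h3

theorem prime (n : ℕ) : Prime (H (n + 1)) := by
  intro M hM
  by_contra hcon
  rw [not_or] at hcon
  obtain ⟨h1, h2⟩ := hcon
  rw [Set.not_subsingleton_iff] at h1
  obtain ⟨u, hu, w, hw, huw⟩ := h1
  obtain ⟨o, ho⟩ := (Set.ne_univ_iff_exists_notMem M).1 h2
  obtain ⟨p⟩ := (conn n).preconnected u o
  obtain ⟨d, _, hd1, hd2⟩ := p.exists_boundary_dart M hu ho
  have h3 : ∀ s ∈ M, (H (n + 1)).Adj d.snd s := by
    rcases hM d.snd hd2 with h | h
    · exact h
    · exact absurd d.adj.symm (h _ hd1)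
  obtain ⟨t, ht1, ht2⟩ := sepv d.snd u w (h3 u hu) (h3 w hw) huw
  have ht : t ∉ M := fun h => ht1 (h3 t h)
  rcases hM t ht with h | h
  · rcases ht2 with ⟨_, h4⟩ | ⟨h4, _⟩
    · exact h4 (h w hw)
    · exact h4 (h u hu)
  · rcases ht2 with ⟨h4, _⟩ | ⟨_, h4⟩
    · exact h u hu h4
    · exact h w hw h4

end Pool.Agent.H98.GI.Half
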