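import Pool.Agent.H98.GI.Basic

/-!
# Prime connected `(K_4, S_{1,1,3})`-free graphs with two vertices at distance `6` (MP_9c2a19_lc)
-/

set_option autoImplicit false

namespace Pool.Agent.H98.GI

/-- `M` is a module: every vertex outside `M` is adjacent to all or to none of its vertices -/
def IsModule {V : Type*} (G : SimpleGraph V) (M : Set V) : Prop :=
  ∀ z ∉ M, (∀ u ∈ M, G.Adj z u) ∨ ∀ u ∈ M, ¬ G.Adj z u

/-- `G` is prime: all its modules are trivial (at most one vertex, or all vertices) -/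
def Prime {V : Type*} (G : SimpleGraph V) : Prop := ∀ M : Set V, IsModule G M → M.Subsingleton ∨ M = Set.univ

variable {V : Type*} {G : SimpleGraph V}

theorem noK4 (hK : G.CliqueFree 4) {a b c d : V} (h1 : G.Adj a b) (h2 : G.Adj a c) (h3 : G.Adj a d)
    (h4 : G.Adj b c) (h5 : G.Adj b d) (h6 : G.Adj c d) : False := by
  classical
  refine hK {a, b, c, d} ?_
  rw [SimpleGraph.isNClique_iff]
  constructor
  · intro x hx y hy hxy
    simp only [Finset.coe_insert, Finset.coe_singleton, Set.mem_insert_iff, Set.mem_singleton_iff] at hx hy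
    rcases hx with rfl | rfl | rfl | rfl <;> rcases hy with rfl | rfl | rfl | rfl <;>
      first | exact absurd rfl hxy | assumption | (apply SimpleGraph.Adj.symm; assumption)
  · rw [Finset.card_insert_of_notMem, Finset.card_insert_of_notMem, Finset.card_insert_of_notMem,
      Finset.card_singleton]
    · simpa using h6.ne
    · simpa using ⟨h4.ne, h5.ne⟩
    · simpa using ⟨h1.ne, h2.ne, h3.ne⟩

/-- the outer parts `x a b` and `d e y` of paths of length `6` between `x` and `y` -/
structure Cfg (G : SimpleGraph V) (x a b d e y : V) : Prop where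
  xa : G.Adj x a
  ab : G.Adj a b
  de : G.Adj d e
  ey : G.Adj e y
  dist : G.dist x y = 6

theorem Cfg.symm {x a b d e y : V} (h : Cfg G x a b d e y) : Cfg G y e d b a x :=
  ⟨h.ey.symm, h.de.symm, h.ab.symm, h.xa.symm, by rw [SimpleGraph.dist_comm]; exact h.dist⟩

section

variable (hG : G.Connected) (hS : S113Free G)

include hG

theorem Cfg.dists {x a b d e y c : V} (h : Cfg G x a b d e y) (hb : G.Adj b c) (hd : G.Adj d c) :
    G.dist x x = 0 ∧ G.dist x a = 1 ∧ G.dist x b = 2 ∧ G.dist x c = 3 ∧ G.dist x d = 4 ∧ G.dist x e = 5 ∧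
      G.dist x y = 6 := by
  have h0 : G.dist x x = 0 := SimpleGraph.dist_self
  have h1 := adj_le hG (u := x) h.xa
  have h2 := adj_le hG (u := x) h.ab
  have h3 := adj_le hG (u := x) hb
  have h4 := adj_le hG (u := x) hd.symm
  have h5 := adj_le hG (u := x) h.de
  have h6 := adj_le hG (u := x) h.ey
  have h7 := h.dist
  refine ⟨h0, ?_, ?_, ?_, ?_, ?_, h7⟩ <;> omega

include hS

/-- a neighbour of the middle vertex is `b` or `d` or adjacent to one of them -/
theorem types {x a b d e y c w : V} (h : Cfg G x a b d e y) (hb : G.Adj b c) (hd : G.Adj d c) (hw : G.Adj c w)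
    (hwb : w ≠ b) (hwd : w ≠ d) : G.Adj w b ∨ G.Adj w d := by
  obtain ⟨e0, e1, e2, e3, e4, e5, e6⟩ := h.dists hG hb hd
  obtain ⟨f0, f1, f2, f3, f4, f5, f6⟩ := h.symm.dists hG hd hb
  have w1 := adj_le hG (u := x) hw
  have w2 := adj_le hG (u := x) hw.symm
  have w3 := adj_le hG (u := y) hw
  have w4 := adj_le hG (u := y) hw.symm
  by_contra hcon
  rw [not_or] at hcon
  have ha : G.Adj w a := by
    by_contra hna
    exact hS.out c w d b a x hw hd.symm hb.symm h.ab.symm h.xa.symm hwd hcon.2 hcon.1 hna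
      (fun h' => nadj hG (v := x) (x := x) (y := w) (by omega) h'.symm)
      (fun h' => nadj hG (v := x) (x := b) (y := d) (by omega) h'.symm)
      (fun h' => nadj hG (v := x) (x := a) (y := d) (by omega) h'.symm)
      (fun h' => nadj hG (v := x) (x := x) (y := d) (by omega) h'.symm)
      (fun h' => nadj hG (v := x) (x := a) (y := c) (by omega) h'.symm)
      (fun h' => nadj hG (v := x) (x := x) (y := c) (by omega) h'.symm)
      (fun h' => nadj hG (v := x) (x := x) (y := b) (by omega) h'.symm)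
  have he : G.Adj w e := by
    by_contra hna
    exact hS.out c w b d e y hw hb.symm hd.symm h.de h.ey hwb hcon.1 hcon.2 hna
      (fun h' => nadj hG (v := y) (x := y) (y := w) (by omega) h'.symm)
      (fun h' => nadj hG (v := y) (x := d) (y := b) (by omega) h'.symm)
      (fun h' => nadj hG (v := y) (x := e) (y := b) (by omega) h'.symm)
      (fun h' => nadj hG (v := y) (x := y) (y := b) (by omega) h'.symm)
      (fun h' => nadj hG (v := y) (x := e) (y := c) (by omega) h'.symm)
      (fun h' => nadj hG (v := y) (x := y) (y := c) (by omega) h'.symm)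
      (fun h' => nadj hG (v := y) (x := y) (y := d) (by omega) h'.symm)
  have g1 := adj_le hG (u := x) ha.symm
  have g2 := adj_le hG (u := x) he
  have g3 := adj_le hG (u := x) h.ey
  omega

/-- the middle vertex has at most one neighbour which is adjacent to `b` and not to `d` -/
theorem unique (hK : G.CliqueFree 4) {x a b d e y c w w' : V} (h : Cfg G x a b d e y) (hb : G.Adj b c)
    (hd : G.Adj d c) (hw : G.Adj c w) (hw' : G.Adj c w') (hwb : G.Adj w b) (hwb' : G.Adj w' b)
    (hwd : ¬ G.Adj w d) (hwd' : ¬ G.Adj w' d) (hne : w ≠ w') : False := by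
  obtain ⟨e0, e1, e2, e3, e4, e5, e6⟩ := h.dists hG hb hd
  have w1 := adj_le hG (u := x) hwb.symm
  have w2 := adj_le hG (u := x) hwb'.symm
  by_cases hww : G.Adj w w'
  · exact noK4 hK hb.symm hw hw' hwb.symm hwb'.symm hww
  · exact hS.out c w w' d e y hw hw' hd.symm h.de h.ey hne hww hwd (nadj hG (v := x) (by omega))
      (nadj hG (v := x) (by omega)) hwd' (nadj hG (v := x) (by omega)) (nadj hG (v := x) (by omega))
      (nadj hG (v := x) (by omega)) (nadj hG (v := x) (by omega)) (nadj hG (v := x) (by omega))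

theorem split1 {x a b d e y c1 c2 z : V} (h : Cfg G x a b d e y) (hb1 : G.Adj b c1) (hd1 : G.Adj d c1)
    (hb2 : G.Adj b c2) (hd2 : G.Adj d c2) (hc : ¬ G.Adj c1 c2) (hz1 : G.Adj z c1) (hz2 : ¬ G.Adj z c2)
    (hzb : G.Adj z b) (hzd : ¬ G.Adj z d) : False := by
  obtain ⟨e0, e1, e2, e3, e4, e5, e6⟩ := h.dists hG hb1 hd1
  obtain ⟨_, _, _, e3', _, _, _⟩ := h.dists hG hb2 hd2
  have w1 := adj_le hG (u := x) hzb.symm
  have w2 := adj_le hG (u := x) hz1
  have hc' : ¬ G.Adj c2 c1 := fun h' => hc h'.symm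
  have hz2' : ¬ G.Adj c2 z := fun h' => hz2 h'.symm
  have hzd' : ¬ G.Adj d z := fun h' => hzd h'.symm
  by_cases hza : G.Adj z a
  · refine hS.out d c2 e c1 z a hd2 h.de hd1 hz1.symm hza ?_ (nadj hG (v := x) (by omega)) hc' hz2'
      (fun h' => nadj hG (v := x) (x := a) (y := c2) (by omega) h'.symm)
      (fun h' => nadj hG (v := x) (x := c1) (y := e) (by omega) h'.symm)
      (fun h' => nadj hG (v := x) (x := z) (y := e) (by omega) h'.symm)
      (fun h' => nadj hG (v := x) (x := a) (y := e) (by omega) h'.symm) hzd'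
      (fun h' => nadj hG (v := x) (x := a) (y := d) (by omega) h'.symm)
      (fun h' => nadj hG (v := x) (x := a) (y := c1) (by omega) h'.symm)
    rintro rfl
    omega
  · refine hS.out b a z c2 d e h.ab.symm hzb.symm hb2 hd2.symm h.de ?_ (fun h' => hza h'.symm)
      (nadj hG (v := x) (by omega)) (nadj hG (v := x) (by omega)) (nadj hG (v := x) (by omega)) hz2 hzd
      (nadj hG (v := x) (by omega)) (nadj hG (v := x) (by omega)) (nadj hG (v := x) (by omega))
      (nadj hG (v := x) (by omega))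
    rintro rfl
    exact nadj hG (v := x) (x := a) (y := c1) (by omega) hz1

/-- a vertex outside `C = N(b) ∩ N(d)` does not separate two non-adjacent vertices of `C` -/
theorem split {x a b d e y c1 c2 z : V} (h : Cfg G x a b d e y) (hb1 : G.Adj b c1) (hd1 : G.Adj d c1)
    (hb2 : G.Adj b c2) (hd2 : G.Adj d c2) (hc : ¬ G.Adj c1 c2) (hz1 : G.Adj z c1) (hz2 : ¬ G.Adj z c2)
    (hz : ¬ (G.Adj b z ∧ G.Adj d z)) : False := by
  have hzb : z ≠ b := by
    rintro rfl
    exact hz2 hb2
  have hzd : z ≠ d := by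
    rintro rfl
    exact hz2 hd2
  rcases types hG hS h hb1 hd1 hz1.symm hzb hzd with h1 | h1
  · exact split1 hG hS h hb1 hd1 hb2 hd2 hc hz1 hz2 h1 fun h2 => hz ⟨h1.symm, h2.symm⟩
  · exact split1 hG hS h.symm hd1 hb1 hd2 hb2 hc hz1 hz2 h1 fun h2 => hz ⟨h2.symm, h1.symm⟩

/-- in a prime graph `C` is a clique -/
theorem clique (hP : Prime G) {x a b d e y c1 c2 : V} (h : Cfg G x a b d e y) (hb1 : G.Adj b c1) (hd1 : G.Adj d c1)
    (hb2 : G.Adj b c2) (hd2 : G.Adj d c2) (hne : c1 ≠ c2) : G.Adj c1 c2 := by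
  by_contra hc
  set R : V → V → Prop := fun u w => (G.Adj b u ∧ G.Adj d u) ∧ (G.Adj b w ∧ G.Adj d w) ∧ ¬ G.Adj u w with hR
  set M : Set V := {w | Relation.ReflTransGen R c1 w} with hM
  have hMC : ∀ w ∈ M, G.Adj b w ∧ G.Adj d w := by
    intro w hw
    rcases Relation.ReflTransGen.cases_tail hw with h1 | ⟨u, _, h1⟩
    · rw [h1]
      exact ⟨hb1, hd1⟩
    · exact h1.2.1
  have hmod : IsModule G M := by
    intro z hz
    by_cases hzC : G.Adj b z ∧ G.Adj d z
    · refine Or.inl fun u hu => ?_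
      by_contra hzu
      exact hz (Relation.ReflTransGen.tail hu ⟨hMC u hu, hzC, fun h' => hzu h'.symm⟩)
    · have key : ∀ w ∈ M, (G.Adj z c1 ↔ G.Adj z w) := by
        intro w hw
        induction hw with
        | refl => rfl
        | @tail u w _ h1 ih =>
          refine ih.trans ⟨fun h2 => ?_, fun h2 => ?_⟩
          · by_contra h3
            exact split hG hS h h1.1.1 h1.1.2 h1.2.1.1 h1.2.1.2 h1.2.2 h2 h3 hzC
          · by_contra h3
            exact split hG hS h h1.2.1.1 h1.2.1.2 h1.1.1 h1.1.2 (fun h' => h1.2.2 h'.symm) h2 h3 hzC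
      by_cases hz1 : G.Adj z c1
      · exact Or.inl fun u hu => (key u hu).1 hz1
      · exact Or.inr fun u hu hzu => hz1 ((key u hu).2 hzu)
  rcases hP M hmod with h1 | h1
  · exact hne (h1 (Relation.ReflTransGen.refl) (Relation.ReflTransGen.single ⟨⟨hb1, hd1⟩, ⟨hb2, hd2⟩, hc⟩))
  · have h2 : b ∈ M := by
      rw [h1]
      exact Set.mem_univ b
    exact G.loopless.irrefl b (hMC b h2).1

end

end Pool.Agent.H98.GI
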