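import Pool.Agent.H98.GI.Prime

/-!
# Degrees in prime connected `(K_4, S_{1,1,3})`-free graphs with two vertices at distance at least `6`
-/

set_option autoImplicit false

namespace Pool.Agent.H98.GI

variable {V : Type*} {G : SimpleGraph V}

/-- `R(3, 4) ≤ 10` -/
theorem ramsey34 (s : Finset V) (hs : 10 ≤ s.card) :
    (∃ a ∈ s, ∃ b ∈ s, ∃ c ∈ s, G.Adj a b ∧ G.Adj a c ∧ G.Adj b c) ∨
    ∃ I ⊆ s, I.card = 4 ∧ ∀ a ∈ I, ∀ b ∈ I, ¬ G.Adj a b := by
  classical
  obtain ⟨u, hu⟩ : s.Nonempty := Finset.card_pos.1 (by omega)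
  have h1 : (s.erase u).card = s.card - 1 := Finset.card_erase_of_mem hu
  have h2 := Finset.card_filter_add_card_filter_not (s := s.erase u) (fun w => G.Adj u w)
  rcases le_or_gt 4 ((s.erase u).filter fun w => G.Adj u w).card with h3 | h3
  · obtain ⟨I, hI, hIc⟩ := Finset.exists_subset_card_eq h3
    have hIs : ∀ a ∈ I, a ∈ s ∧ G.Adj u a := by
      intro a ha
      have := hI ha
      simp only [Finset.mem_filter, Finset.mem_erase] at this
      exact ⟨this.1.2, this.2⟩
    by_cases h4 : ∃ a ∈ I, ∃ b ∈ I, G.Adj a b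
    · obtain ⟨a, ha, b, hb, hab⟩ := h4
      exact Or.inl ⟨u, hu, a, (hIs a ha).1, b, (hIs b hb).1, (hIs a ha).2, (hIs b hb).2, hab⟩
    · refine Or.inr ⟨I, fun a ha => (hIs a ha).1, hIc, fun a ha b hb hab => h4 ⟨a, ha, b, hb, hab⟩⟩
  · have h4 : 6 ≤ ((s.erase u).filter fun w => ¬ G.Adj u w).card := by omega
    have hB : ∀ a ∈ (s.erase u).filter (fun w => ¬ G.Adj u w), a ≠ u ∧ a ∈ s ∧ ¬ G.Adj u a := by
      intro a ha
      simp only [Finset.mem_filter, Finset.mem_erase] at ha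
      exact ⟨ha.1.1, ha.1.2, ha.2⟩
    rcases ramsey (G := G) _ h4 with ⟨a, ha, b, hb, c, hc, h5, h6, h7⟩ |
      ⟨a, ha, b, hb, c, hc, h5, h6, h7, h8, h9, h10⟩
    · exact Or.inl ⟨a, (hB a ha).2.1, b, (hB b hb).2.1, c, (hB c hc).2.1, h5, h6, h7⟩
    · obtain ⟨a1, a2, a3⟩ := hB a ha
      obtain ⟨b1, b2, b3⟩ := hB b hb
      obtain ⟨c1, c2, c3⟩ := hB c hc
      refine Or.inr ⟨{u, a, b, c}, ?_, ?_, ?_⟩
      · intro w hw
        simp only [Finset.mem_insert, Finset.mem_singleton] at hw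
        rcases hw with rfl | rfl | rfl | rfl <;> assumption
      · rw [Finset.card_insert_of_notMem, Finset.card_insert_of_notMem, Finset.card_insert_of_notMem,
          Finset.card_singleton]
        · simpa using h7
        · simpa using ⟨h5, h6⟩
        · simpa using ⟨a1.symm, b1.symm, c1.symm⟩
      · intro p hp q hq hpq
        simp only [Finset.mem_insert, Finset.mem_singleton] at hp hq
        have hqp := hpq.symm
        rcases hp with rfl | rfl | rfl | rfl <;> rcases hq with rfl | rfl | rfl | rfl <;>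
          first | exact hpq.ne rfl | contradiction

/-- `I` is a set of four pairwise non-adjacent neighbours of `v` -/
structure Star4 (G : SimpleGraph V) (v : V) (I : Finset V) : Prop where
  card : I.card = 4
  adj : ∀ a ∈ I, G.Adj v a
  ind : ∀ a ∈ I, ∀ b ∈ I, ¬ G.Adj a b

theorem Star4.third {v : V} {I : Finset V} (h : Star4 G v I) (a b : V) : ∃ c ∈ I, a ≠ c ∧ b ≠ c := by
  classical
  have h1 : ({a, b} : Finset V).card ≤ 2 := Finset.card_le_two
  obtain ⟨c, hc, hc'⟩ := Finset.exists_mem_notMem_of_card_lt_card (s := {a, b}) (t := I) (by rw [h.card]; omega)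
  simp only [Finset.mem_insert, Finset.mem_singleton, not_or] at hc'
  exact ⟨c, hc, fun h' => hc'.1 h'.symm, fun h' => hc'.2 h'.symm⟩

theorem Star4.claw {v a b c : V} {I : Finset V} (h : Star4 G v I) (ha : a ∈ I) (hb : b ∈ I) (hc : c ∈ I)
    (hab : a ≠ b) (hac : a ≠ c) (hbc : b ≠ c) : Claw G v a b c :=
  ⟨h.adj a ha, h.adj b hb, h.adj c hc, hab, hac, hbc, h.ind a ha b hb, h.ind a ha c hc, h.ind b hb c hc⟩

/-- two elements without two properties each of which holds at most once -/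
theorem Star4.two {v : V} {I : Finset V} (h : Star4 G v I) (P Q : V → Prop)
    (hP : ∀ a ∈ I, ∀ b ∈ I, P a → P b → a = b) (hQ : ∀ a ∈ I, ∀ b ∈ I, Q a → Q b → a = b) :
    ∃ a ∈ I, ∃ b ∈ I, a ≠ b ∧ (¬ P a ∧ ¬ Q a) ∧ ¬ P b ∧ ¬ Q b := by
  classical
  have h1 : (I.filter P).card ≤ 1 := Finset.card_le_one.2 fun a ha b hb => by
    rw [Finset.mem_filter] at ha hb
    exact hP a ha.1 b hb.1 ha.2 hb.2
  have h2 : (I.filter Q).card ≤ 1 := Finset.card_le_one.2 fun a ha b hb => by
    rw [Finset.mem_filter] at ha hb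
    exact hQ a ha.1 b hb.1 ha.2 hb.2
  have h3 : I.card ≤ (I.filter P ∪ I.filter Q).card + (I.filter fun a => ¬ P a ∧ ¬ Q a).card := by
    rw [← Finset.card_union_add_card_inter]
    refine le_trans (Finset.card_le_card ?_) (Nat.le_add_right _ _)
    intro a ha
    by_cases hPa : P a
    · simp [ha, hPa]
    · by_cases hQa : Q a
      · simp [ha, hQa]
      · simp [ha, hPa, hQa]
  have h4 := Finset.card_union_le (I.filter P) (I.filter Q)
  have h5 := h.card
  have h6 : 1 < (I.filter fun a => ¬ P a ∧ ¬ Q a).card := by omega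
  obtain ⟨a, ha, b, hb, hab⟩ := Finset.one_lt_card.1 h6
  rw [Finset.mem_filter] at ha hb
  exact ⟨a, ha.1, b, hb.1, hab, ha.2, hb.2⟩

section

variable (hG : G.Connected) (hS : S113Free G)

include hG hS

/-- at most one element of `I` is not adjacent to `p2` if there is a vertex at distance `4` behind it -/
theorem Star4.far {v : V} {I : Finset V} (h : Star4 G v I) {p1 p2 p3 p4 : V} (g : Geo G v p1 p2 p3)
    (h4 : G.Adj p3 p4) (d4 : G.dist v p4 = 4) : ∀ a ∈ I, ∀ b ∈ I, ¬ G.Adj a p2 → ¬ G.Adj b p2 → a = b := by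
  intro a ha b hb h1 h2
  by_contra hab
  obtain ⟨c, hc, hac, hbc⟩ := h.third a b
  exact L4 hG hS g h4 d4 (h.claw ha hb hc hab hac hbc) h1 h2

/-- `v` at distance `4` from `x` -/
theorem case4 (hP : Prime G) {v x y : V} {I : Finset V} (h : Star4 G v I) (hxy : G.dist x y = 6)
    (h1 : G.dist v x = 4) (h2 : G.dist v y = 2 ∨ G.dist v y = 3 ∨ G.dist v y = 4) : False := by
  obtain ⟨p3, hp3, d3⟩ := pred hG (n := 3) h1
  obtain ⟨p1, p2, g⟩ := exists_geo hG d3
  have hfar := h.far hG hS g hp3 h1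
  rcases h2 with h2 | h2 | h2
  · obtain ⟨q1, hq1, dq1⟩ := pred hG (n := 1) h2
    have hvq : G.Adj v q1 := SimpleGraph.dist_eq_one_iff_adj.1 dq1
    obtain ⟨a, ha, b, hb, hab, ⟨ha1, _⟩, hb1, _⟩ := h.two (fun a => ¬ G.Adj a p2) (fun _ => False)
      hfar (fun _ _ _ _ h' => h'.elim)
    rw [not_not] at ha1 hb1
    exact h.ind a ha b hb (clique hG hS hP (x := x) (a := p3) (b := p2) (d := v) (e := q1) (y := y)
      ⟨hp3.symm, g.h3.symm, hvq, hq1, hxy⟩ ha1.symm (h.adj a ha) hb1.symm (h.adj b hb) hab)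
  · obtain ⟨q1, q2, k⟩ := exists_geo hG h2
    by_cases hc : ∃ c ∈ I, G.Adj c q2
    · obtain ⟨c, hc, hcq⟩ := hc
      obtain ⟨a, ha, b, hb, hab, ⟨ha1, ha2⟩, hb1, hb2⟩ := h.two (fun a => ¬ G.Adj a p2) (fun a => ¬ G.Adj a q2)
        hfar (by
          intro a ha b hb h3 h4
          by_contra hab
          refine L1 hG hS k (h.claw ha hb hc hab ?_ ?_) h3 h4 hcq
          · rintro rfl
            exact h3 hcq
          · rintro rfl
            exact h4 hcq)
      rw [not_not] at ha1 ha2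
      have e0 : G.dist x x = 0 := SimpleGraph.dist_self
      have e1 := adj_le hG (u := x) hp3.symm
      have e2 := adj_le hG (u := x) g.h3.symm
      have e3 := adj_le hG (u := x) ha1.symm
      have e4 := adj_le hG (u := x) ha2
      have e5 := adj_le hG (u := x) k.h3
      omega
    · obtain ⟨a, ha, b, hb, hab, ⟨ha1, ha2⟩, hb1, hb2⟩ := h.two (fun a => ¬ G.Adj a p2) (fun a => ¬ G.Adj a q1)
        hfar (by
          intro a ha b hb h3 h4
          by_contra hab
          exact L2 hG hS k (h.adj a ha) (h.adj b hb) hab (h.ind a ha b hb) h3 h4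
            (fun h' => hc ⟨a, ha, h'⟩) (fun h' => hc ⟨b, hb, h'⟩))
      rw [not_not] at ha1 ha2 hb1 hb2
      exact h.ind a ha b hb (clique hG hS hP (x := x) (a := p3) (b := p2) (d := q1) (e := q2) (y := y)
        ⟨hp3.symm, g.h3.symm, k.h2, k.h3, hxy⟩ ha1.symm ha2.symm hb1.symm hb2.symm hab)
  · obtain ⟨q3, hq3, dq3⟩ := pred hG (n := 3) h2
    obtain ⟨q1, q2, k⟩ := exists_geo hG dq3
    obtain ⟨a, ha, b, hb, hab, ⟨ha1, ha2⟩, hb1, hb2⟩ := h.two (fun a => ¬ G.Adj a p2) (fun a => ¬ G.Adj a q2)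
      hfar (h.far hG hS k hq3 h2)
    rw [not_not] at ha1 ha2 hb1 hb2
    exact h.ind a ha b hb (clique hG hS hP (x := x) (a := p3) (b := p2) (d := q2) (e := q3) (y := y)
      ⟨hp3.symm, g.h3.symm, k.h3, hq3, hxy⟩ ha1.symm ha2.symm hb1.symm hb2.symm hab)

/-- `v` in the middle between `x` and `y` -/
theorem case33 (hP : Prime G) (hK : G.CliqueFree 4) {v x y : V} {I : Finset V} (h : Star4 G v I)
    (hxy : G.dist x y = 6) (h1 : G.dist v x = 3) (h2 : G.dist v y = 3) : False := by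
  classical
  obtain ⟨p1, p2, g⟩ := exists_geo hG h1
  obtain ⟨q1, q2, k⟩ := exists_geo hG h2
  have C : Cfg G x p2 p1 q1 q2 y := ⟨g.h3.symm, g.h2.symm, k.h2, k.h3, hxy⟩
  have hvp : G.Adj p1 v := g.h1.symm
  have hvq : G.Adj q1 v := k.h1.symm
  set J := (I.erase p1).erase q1 with hJ
  have hJI : ∀ a ∈ J, a ∈ I ∧ a ≠ p1 ∧ a ≠ q1 := by
    intro a ha
    simp only [hJ, Finset.mem_erase] at ha
    exact ⟨ha.2.2, ha.2.1, ha.1⟩
  have ht : ∀ a ∈ J, G.Adj a p1 ∨ G.Adj a q1 := fun a ha =>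
    types hG hS C hvp hvq (h.adj a (hJI a ha).1) (hJI a ha).2.1 (hJI a ha).2.2
  have c1 : (J.filter fun a => G.Adj a p1 ∧ G.Adj a q1).card ≤ 1 := Finset.card_le_one.2 fun a ha b hb => by
    rw [Finset.mem_filter] at ha hb
    by_contra hab
    exact h.ind a (hJI a ha.1).1 b (hJI b hb.1).1
      (clique hG hS hP C ha.2.1.symm ha.2.2.symm hb.2.1.symm hb.2.2.symm hab)
  have c2 : (J.filter fun a => G.Adj a p1 ∧ ¬ G.Adj a q1).card ≤ 1 := Finset.card_le_one.2 fun a ha b hb => by
    rw [Finset.mem_filter] at ha hb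
    by_contra hab
    exact unique hG hS hK C hvp hvq (h.adj a (hJI a ha.1).1) (h.adj b (hJI b hb.1).1) ha.2.1 hb.2.1 ha.2.2
      hb.2.2 hab
  have c3 : (J.filter fun a => ¬ G.Adj a p1 ∧ G.Adj a q1).card ≤ 1 := Finset.card_le_one.2 fun a ha b hb => by
    rw [Finset.mem_filter] at ha hb
    by_contra hab
    exact unique hG hS hK C.symm hvq hvp (h.adj a (hJI a ha.1).1) (h.adj b (hJI b hb.1).1) ha.2.2 hb.2.2
      ha.2.1 hb.2.1 hab
  have hsub : J ⊆ ((J.filter fun a => G.Adj a p1 ∧ G.Adj a q1) ∪ J.filter fun a => G.Adj a p1 ∧ ¬ G.Adj a q1) ∪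
      J.filter fun a => ¬ G.Adj a p1 ∧ G.Adj a q1 := by
    intro a ha
    by_cases ha1 : G.Adj a p1
    · by_cases ha2 : G.Adj a q1
      · simp [ha, ha1, ha2]
      · simp [ha, ha1, ha2]
    · have ha2 := (ht a ha).resolve_left ha1
      simp [ha, ha1, ha2]
  have c4 := Finset.card_le_card hsub
  have c5 := Finset.card_union_le ((J.filter fun a => G.Adj a p1 ∧ G.Adj a q1) ∪
    J.filter fun a => G.Adj a p1 ∧ ¬ G.Adj a q1) (J.filter fun a => ¬ G.Adj a p1 ∧ G.Adj a q1)
  have c6 := Finset.card_union_le (J.filter fun a => G.Adj a p1 ∧ G.Adj a q1)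
    (J.filter fun a => G.Adj a p1 ∧ ¬ G.Adj a q1)
  have c7 := h.card
  have c8 : I.card ≤ (I.erase p1).card + 1 := by
    have := Finset.pred_card_le_card_erase (s := I) (a := p1)
    omega
  have c9 : (I.erase p1).card ≤ J.card + 1 := by
    have := Finset.pred_card_le_card_erase (s := I.erase p1) (a := q1)
    rw [hJ]
    omega
  by_cases hp : p1 ∈ I
  · have e1 : (J.filter fun a => G.Adj a p1 ∧ G.Adj a q1).card = 0 := by
      rw [Finset.card_eq_zero, Finset.filter_eq_empty_iff]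
      intro a ha h3
      exact h.ind a (hJI a ha).1 p1 hp h3.1
    have e2 : (J.filter fun a => G.Adj a p1 ∧ ¬ G.Adj a q1).card = 0 := by
      rw [Finset.card_eq_zero, Finset.filter_eq_empty_iff]
      intro a ha h3
      exact h.ind a (hJI a ha).1 p1 hp h3.1
    omega
  · rw [Finset.erase_eq_of_notMem hp] at c9
    by_cases hq : q1 ∈ I
    · have e1 : (J.filter fun a => G.Adj a p1 ∧ G.Adj a q1).card = 0 := by
        rw [Finset.card_eq_zero, Finset.filter_eq_empty_iff]
        intro a ha h3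
        exact h.ind a (hJI a ha).1 q1 hq h3.2
      have e2 : (J.filter fun a => ¬ G.Adj a p1 ∧ G.Adj a q1).card = 0 := by
        rw [Finset.card_eq_zero, Finset.filter_eq_empty_iff]
        intro a ha h3
        exact h.ind a (hJI a ha).1 q1 hq h3.2
      omega
    · have e1 : J = I := by
        rw [hJ, Finset.erase_eq_of_notMem hp, Finset.erase_eq_of_notMem hq]
      rw [e1] at c1 c2 c3 c4 c5 c6
      omega

/-- in a prime graph with two vertices at distance `6` no vertex has four pairwise non-adjacent neighbours -/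
theorem no_star (hP : Prime G) (hK : G.CliqueFree 4) {v x y : V} {I : Finset V} (h : Star4 G v I)
    (hxy : G.dist x y = 6) : False := by
  classical
  obtain ⟨a, ha⟩ : I.Nonempty := Finset.card_pos.1 (by rw [h.card]; omega)
  obtain ⟨b, hb, hab, _⟩ := h.third a a
  obtain ⟨c, hc, hac, hbc⟩ := h.third a b
  have hcl := h.claw ha hb hc hab hac hbc
  have h1 := ecc hG hS hcl x
  have h2 := ecc hG hS hcl y
  have h3 : G.dist x y ≤ G.dist x v + G.dist v y := hG.dist_triangle
  have h4 : G.dist x v = G.dist v x := SimpleGraph.dist_comm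
  have hyx : G.dist y x = 6 := by rw [SimpleGraph.dist_comm]; exact hxy
  by_cases h5 : G.dist v x = 4
  · exact case4 hG hS hP h hxy h5 (by omega)
  by_cases h6 : G.dist v y = 4
  · exact case4 hG hS hP h hyx h6 (by omega)
  exact case33 hG hS hP hK h hxy (by omega) (by omega)

/-- degrees at most `9` -/
theorem prime_deg (hP : Prime G) (hK : G.CliqueFree 4) {x y : V} (hxy : 6 ≤ G.dist x y) (v : V) :
    (G.neighborSet v).encard ≤ 9 := by
  classical
  rcases hxy.eq_or_lt with hxy | hxy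
  · by_contra hcon
    rw [not_le] at hcon
    have h6 : (10 : ℕ∞) ≤ (G.neighborSet v).encard := Order.add_one_le_of_lt hcon
    obtain ⟨t, ht, htc⟩ := Set.exists_subset_encard_eq h6
    have hfin : t.Finite := Set.finite_of_encard_eq_coe (k := 10) htc
    obtain ⟨s, rfl⟩ := hfin.exists_finset_coe
    have hs : s.card = 10 := by
      rw [Set.encard_coe_eq_coe_finsetCard] at htc
      exact_mod_cast htc
    rcases ramsey34 (G := G) s hs.ge with ⟨a, ha, b, hb, c, hc, h1, h2, h3⟩ | ⟨I, hI, hIc, hind⟩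
    · exact noK4 hK (ht ha) (ht hb) (ht hc) h1 h2 h3
    · exact no_star hG hS hP hK (v := v) (I := I) ⟨hIc, fun a ha => ht (hI ha), hind⟩ hxy.symm
  · refine (deg hK v fun a b c h => ?_).trans (by norm_num)
    have := diam hG hS h x y
    omega

end

end Pool.Agent.H98.GI
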