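import Pool.Agent.H98.GI.Prime

/-!
# Prime graphs with two vertices at distance `5` and large degree without `K_4` and induced `S_{1,1,3}`
-/

set_option autoImplicit false

namespace Pool.Agent.H98.GI

def pathAdj (a b : Fin 6) : Bool := a.val + 1 == b.val || b.val + 1 == a.val

def hub (a : Fin 6) : Bool := a.val == 2 || a.val == 3

/-- vertices: the path `x p2 p1 v q1 y`, the common neighbours of `p1` and `v`, their pendant vertices -/
abbrev KV (m : ℕ) : Type := Fin 6 ⊕ (Fin m ⊕ Fin m)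

def adjK {m : ℕ} : KV m → KV m → Prop
  | .inl a, .inl b => pathAdj a b = true
  | .inl a, .inr (.inl _) => hub a = true
  | .inr (.inl _), .inl a => hub a = true
  | .inr (.inl i), .inr (.inr j) => i = j
  | .inr (.inr i), .inr (.inl j) => i = j
  | _, _ => False

theorem adjK_symm {m : ℕ} : ∀ u w : KV m, adjK u w → adjK w u
  | .inl a, .inl b, h => by
    revert h
    simp only [adjK]
    revert a b
    decide
  | .inl _, .inr (.inl _), h => h
  | .inr (.inl _), .inl _, h => h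
  | .inr (.inl _), .inr (.inr _), h => h.symm
  | .inr (.inr _), .inr (.inl _), h => h.symm
  | .inl _, .inr (.inr _), h => h.elim
  | .inr (.inr _), .inl _, h => h.elim
  | .inr (.inl _), .inr (.inl _), h => h.elim
  | .inr (.inr _), .inr (.inr _), h => h.elim

theorem adjK_irrefl {m : ℕ} : ∀ u : KV m, ¬ adjK u u
  | .inl a => by
    simp only [adjK]
    revert a
    decide
  | .inr (.inl _) => fun h => h
  | .inr (.inr _) => fun h => h

def K (m : ℕ) : SimpleGraph (KV m) where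
  Adj := adjK
  symm := ⟨adjK_symm⟩
  loopless := ⟨adjK_irrefl⟩

/-! ### reduction to `18` vertices -/

/-- adjacency for `m = 6` -/
def B (a b : Fin 18) : Bool :=
  (a.val < 6 && b.val < 6 && (a.val + 1 == b.val || b.val + 1 == a.val)) ||
  (a.val < 6 && 6 ≤ b.val && b.val < 12 && (a.val == 2 || a.val == 3)) ||
  (b.val < 6 && 6 ≤ a.val && a.val < 12 && (b.val == 2 || b.val == 3)) ||
  (6 ≤ a.val && 12 ≤ b.val && a.val + 6 == b.val) || (6 ≤ b.val && 12 ≤ a.val && b.val + 6 == a.val)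

def d2 (g0 g1 g2 : Fin 18) : Bool := B g0 g2 && !B g1 g2 && g1 != g2

def d3 (g0 g1 g2 g3 : Fin 18) : Bool := B g0 g3 && !B g1 g3 && !B g2 g3

def d4 (g0 g1 g2 g3 g4 : Fin 18) : Bool := B g3 g4 && !B g0 g4 && !B g1 g4 && !B g2 g4

def d5 (g0 g1 g2 g3 g4 g5 : Fin 18) : Bool := B g4 g5 && !B g0 g5 && !B g1 g5 && !B g2 g5 && !B g3 g5

theorem no_S18 : ∀ g0 g1, B g0 g1 = true → ∀ g2, d2 g0 g1 g2 = true → ∀ g3, d3 g0 g1 g2 g3 = true →
    ∀ g4, d4 g0 g1 g2 g3 g4 = true → ∀ g5, d5 g0 g1 g2 g3 g4 g5 = true → False := by decide +kernel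

theorem no_K18 : ∀ a b, B a b = true → ∀ c, B a c = true → B b c = true → ∀ d, B a d = true → B b d = true →
    B c d = true → False := by decide +kernel

def e0 (a : Fin 6) : Fin 18 := ⟨a.val, by omega⟩

def e1 (a : Fin 6) : Fin 18 := ⟨6 + a.val, by omega⟩

def e2 (a : Fin 6) : Fin 18 := ⟨12 + a.val, by omega⟩

def enc {m : ℕ} (σ : Fin m → Fin 6) : KV m → Fin 18
  | .inl a => e0 a
  | .inr (.inl i) => e1 (σ i)
  | .inr (.inr i) => e2 (σ i)

def idx {m : ℕ} : KV m → Finset (Fin m)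
  | .inl _ => ∅
  | .inr (.inl i) => {i}
  | .inr (.inr i) => {i}

theorem k00 : ∀ a b, (B (e0 a) (e0 b) = true ↔ pathAdj a b = true) ∧ (e0 a = e0 b → a = b) := by decide

theorem k01 : ∀ a b, (B (e0 a) (e1 b) = true ↔ hub a = true) ∧ e0 a ≠ e1 b := by decide

theorem k02 : ∀ a b, B (e0 a) (e2 b) = false ∧ e0 a ≠ e2 b := by decide

theorem k10 : ∀ a b, (B (e1 b) (e0 a) = true ↔ hub a = true) ∧ e1 b ≠ e0 a := by decide

theorem k20 : ∀ a b, B (e2 b) (e0 a) = false ∧ e2 b ≠ e0 a := by decide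

theorem k11 : ∀ a b, B (e1 a) (e1 b) = false ∧ (e1 a = e1 b → a = b) := by decide

theorem k22 : ∀ a b, B (e2 a) (e2 b) = false ∧ (e2 a = e2 b → a = b) := by decide

theorem k12 : ∀ a b, (B (e1 a) (e2 b) = true ↔ a = b) ∧ e1 a ≠ e2 b := by decide

theorem k21 : ∀ a b, (B (e2 a) (e1 b) = true ↔ a = b) ∧ e2 a ≠ e1 b := by decide

theorem enc_spec {m : ℕ} (σ : Fin m → Fin 6) (J : Finset (Fin m)) (hσ : Set.InjOn σ J) :
    ∀ u w : KV m, idx u ⊆ J → idx w ⊆ J → ((B (enc σ u) (enc σ w) = true ↔ adjK u w) ∧ (enc σ u = enc σ w → u = w))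
  | .inl a, .inl b, _, _ => ⟨(k00 a b).1, fun h => congrArg Sum.inl ((k00 a b).2 h)⟩
  | .inl a, .inr (.inl i), _, _ => ⟨(k01 a (σ i)).1, fun h => absurd h (k01 a (σ i)).2⟩
  | .inl a, .inr (.inr i), _, _ =>
    ⟨⟨fun h => Bool.noConfusion ((k02 a (σ i)).1.symm.trans h), fun h => h.elim⟩, fun h => absurd h (k02 a (σ i)).2⟩
  | .inr (.inl i), .inl a, _, _ => ⟨(k10 a (σ i)).1, fun h => absurd h (k10 a (σ i)).2⟩
  | .inr (.inr i), .inl a, _, _ =>
    ⟨⟨fun h => Bool.noConfusion ((k20 a (σ i)).1.symm.trans h), fun h => h.elim⟩, fun h => absurd h (k20 a (σ i)).2⟩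
  | .inr (.inl i), .inr (.inl j), hi, hj =>
    ⟨⟨fun h => Bool.noConfusion ((k11 (σ i) (σ j)).1.symm.trans h), fun h => h.elim⟩, fun h =>
      congrArg (fun i => (.inr (.inl i) : KV m))
        (hσ (hi (Finset.mem_singleton_self i)) (hj (Finset.mem_singleton_self j)) ((k11 (σ i) (σ j)).2 h))⟩
  | .inr (.inr i), .inr (.inr j), hi, hj =>
    ⟨⟨fun h => Bool.noConfusion ((k22 (σ i) (σ j)).1.symm.trans h), fun h => h.elim⟩, fun h =>
      congrArg (fun i => (.inr (.inr i) : KV m))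
        (hσ (hi (Finset.mem_singleton_self i)) (hj (Finset.mem_singleton_self j)) ((k22 (σ i) (σ j)).2 h))⟩
  | .inr (.inl i), .inr (.inr j), hi, hj =>
    ⟨(k12 (σ i) (σ j)).1.trans ⟨fun h => hσ (hi (Finset.mem_singleton_self i)) (hj (Finset.mem_singleton_self j)) h,
      fun h => congrArg σ h⟩, fun h => absurd h (k12 (σ i) (σ j)).2⟩
  | .inr (.inr i), .inr (.inl j), hi, hj =>
    ⟨(k21 (σ i) (σ j)).1.trans ⟨fun h => hσ (hi (Finset.mem_singleton_self i)) (hj (Finset.mem_singleton_self j)) h,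
      fun h => congrArg σ h⟩, fun h => absurd h (k21 (σ i) (σ j)).2⟩

/-- at most six vertices can be put into the graph for `m = 6` -/
theorem exists_enc {m n : ℕ} (hn : n ≤ 6) (f : Fin n → KV m) : ∃ g : Fin n → Fin 18, ∀ i j,
    (B (g i) (g j) = true ↔ (K m).Adj (f i) (f j)) ∧ (g i = g j → f i = f j) := by
  classical
  set J : Finset (Fin m) := Finset.univ.biUnion fun i => idx (f i) with hJ
  have h1 : J.card ≤ 6 := by
    refine le_trans Finset.card_biUnion_le ?_
    refine le_trans (Finset.sum_le_card_nsmul _ _ 1 fun i _ => ?_) (by simpa using hn)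
    rcases f i with a | a | a
    · exact Nat.zero_le 1
    · exact le_of_eq (Finset.card_singleton a)
    · exact le_of_eq (Finset.card_singleton a)
  have h2 : Nonempty (J ↪ Fin 6) := by
    refine Function.Embedding.nonempty_of_card_le ?_
    rw [Fintype.card_coe, Fintype.card_fin]
    exact h1
  obtain ⟨e⟩ := h2
  set σ : Fin m → Fin 6 := fun i => if h : i ∈ J then e ⟨i, h⟩ else 0 with hσ
  have h3 : Set.InjOn σ J := by
    intro i hi j hj hij
    simp only [hσ] at hij
    rw [dif_pos (Finset.mem_coe.1 hi), dif_pos (Finset.mem_coe.1 hj)] at hij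
    exact congrArg Subtype.val (e.injective hij)
  refine ⟨fun i => enc σ (f i), fun i j => enc_spec σ J h3 (f i) (f j) ?_ ?_⟩
  · exact fun a ha => Finset.mem_biUnion.2 ⟨i, Finset.mem_univ i, ha⟩
  · exact fun a ha => Finset.mem_biUnion.2 ⟨j, Finset.mem_univ j, ha⟩

theorem K_clique (m : ℕ) : (K m).CliqueFree 4 := by
  rw [SimpleGraph.cliqueFree_iff]
  refine ⟨fun f => ?_⟩
  obtain ⟨g, hg⟩ := exists_enc (n := 4) (by omega) fun i => f i
  have h : ∀ i j : Fin 4, i ≠ j → B (g i) (g j) = true := fun i j hij =>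
    (hg i j).1.2 (f.toHom.map_adj (show (⊤ : SimpleGraph (Fin 4)).Adj i j from hij))
  exact no_K18 _ _ (h 0 1 (by decide)) _ (h 0 2 (by decide)) (h 1 2 (by decide)) _ (h 0 3 (by decide))
    (h 1 3 (by decide)) (h 2 3 (by decide))

theorem K_S (m : ℕ) : S113Free (K m) := by
  rintro ⟨f⟩
  obtain ⟨g, hg⟩ := exists_enc (n := 6) le_rfl fun i => f i
  have h : ∀ i j : Fin 6, S113.Adj i j → B (g i) (g j) = true := fun i j hij =>
    (hg i j).1.2 (f.map_rel_iff.2 hij)
  have h' : ∀ i j : Fin 6, ¬ S113.Adj i j → B (g i) (g j) = false := by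
    intro i j hij
    rw [← Bool.not_eq_true]
    exact fun h => hij (f.map_rel_iff.1 ((hg i j).1.1 h))
  have h12 : (g 1 != g 2) = true := by
    rw [bne_iff_ne]
    intro h12
    have := f.injective ((hg 1 2).2 h12)
    exact absurd this (by decide)
  refine no_S18 (g 0) (g 1) (h 0 1 (by simp [S113])) (g 2) ?_ (g 3) ?_ (g 4) ?_ (g 5) ?_
  · unfold d2
    rw [h 0 2 (by simp [S113]), h' 1 2 (by simp [S113]), h12]
    rfl
  · unfold d3
    rw [h 0 3 (by simp [S113]), h' 1 3 (by simp [S113]), h' 2 3 (by simp [S113])]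
    rfl
  · unfold d4
    rw [h 3 4 (by simp [S113]), h' 0 4 (by simp [S113]), h' 1 4 (by simp [S113]), h' 2 4 (by simp [S113])]
    rfl
  · unfold d5
    rw [h 4 5 (by simp [S113]), h' 0 5 (by simp [S113]), h' 1 5 (by simp [S113]), h' 2 5 (by simp [S113]),
      h' 3 5 (by simp [S113])]
    rfl

/-! ### distances -/

def levK {m : ℕ} : KV m → ℕ
  | .inl a => a.val
  | .inr (.inl _) => 2
  | .inr (.inr _) => 3

theorem levK_le {m : ℕ} : ∀ u w : KV m, adjK u w → levK w ≤ levK u + 1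
  | .inl a, .inl b, h => by
    revert h
    simp only [adjK, levK]
    revert a b
    decide
  | .inl a, .inr (.inl _), h => by
    revert h
    simp only [adjK, levK]
    revert a
    decide
  | .inr (.inl _), .inl a, h => by
    revert h
    simp only [adjK, levK]
    revert a
    decide
  | .inr (.inl _), .inr (.inr _), _ => by simp [levK]
  | .inr (.inr _), .inr (.inl _), _ => by simp [levK]
  | .inl _, .inr (.inr _), h => h.elim
  | .inr (.inr _), .inl _, h => h.elim
  | .inr (.inl _), .inr (.inl _), h => h.elim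
  | .inr (.inr _), .inr (.inr _), h => h.elim

theorem K_lev {m : ℕ} {u w : KV m} (p : (K m).Walk u w) : levK w ≤ levK u + p.length := by
  induction p with
  | nil => simp
  | cons h p ih =>
    have := levK_le _ _ h
    rw [SimpleGraph.Walk.length_cons]
    omega

theorem K_conn (m : ℕ) : (K m).Connected := by
  have r2 : (K m).Reachable (.inl 2) (.inl 3) := SimpleGraph.Adj.reachable (show (K m).Adj (.inl 2) (.inl 3) from rfl)
  have r1 : (K m).Reachable (.inl 1) (.inl 3) :=
    (SimpleGraph.Adj.reachable (show (K m).Adj (.inl 1) (.inl 2) from rfl)).trans r2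
  have r0 : (K m).Reachable (.inl 0) (.inl 3) :=
    (SimpleGraph.Adj.reachable (show (K m).Adj (.inl 0) (.inl 1) from rfl)).trans r1
  have r4 : (K m).Reachable (.inl 4) (.inl 3) :=
    SimpleGraph.Adj.reachable (show (K m).Adj (.inl 4) (.inl 3) from rfl)
  have r5 : (K m).Reachable (.inl 5) (.inl 3) :=
    (SimpleGraph.Adj.reachable (show (K m).Adj (.inl 5) (.inl 4) from rfl)).trans r4
  have rI : ∀ i, (K m).Reachable (.inr (.inl i)) (.inl 3) := fun i =>
    SimpleGraph.Adj.reachable (show (K m).Adj (.inr (.inl i)) (.inl 3) from rfl)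
  have key : ∀ u : KV m, (K m).Reachable u (.inl 3) := by
    rintro (i | i | i)
    · fin_cases i
      · exact r0
      · exact r1
      · exact r2
      · exact SimpleGraph.Reachable.refl _
      · exact r4
      · exact r5
    · exact rI i
    · exact (SimpleGraph.Adj.reachable (show (K m).Adj (.inr (.inr i)) (.inr (.inl i)) from rfl)).trans (rI i)
  have : Nonempty (KV m) := ⟨.inl 0⟩
  exact ⟨fun u w => (key u).trans (key w).symm⟩

theorem K_dist (m : ℕ) : (K m).dist (.inl 0) (.inl 5) = 5 := by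
  refine le_antisymm ?_ ?_
  · have h1 : (K m).Adj (.inl 0) (.inl 1) := rfl
    have h2 : (K m).Adj (.inl 1) (.inl 2) := rfl
    have h3 : (K m).Adj (.inl 2) (.inl 3) := rfl
    have h4 : (K m).Adj (.inl 3) (.inl 4) := rfl
    have h5 : (K m).Adj (.inl 4) (.inl 5) := rfl
    exact SimpleGraph.dist_le (.cons h1 (.cons h2 (.cons h3 (.cons h4 (.cons h5 .nil)))))
  · obtain ⟨p, hp⟩ := (K_conn m).exists_walk_length_eq_dist (.inl 0) (.inl 5)
    have h1 : levK (m := m) (.inl 5) ≤ levK (m := m) (.inl 0) + p.length := K_lev p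
    have h2 : levK (m := m) (.inl 5) = 5 := rfl
    have h3 : levK (m := m) (.inl 0) = 0 := rfl
    omega

theorem K_deg (m : ℕ) : (m : ℕ∞) ≤ ((K m).neighborSet (.inl 3)).encard := by
  have h1 : Set.range (fun i : Fin m => (.inr (.inl i) : KV m)) ⊆ (K m).neighborSet (.inl 3) := by
    rintro _ ⟨i, rfl⟩
    rfl
  have h2 : Function.Injective (fun i : Fin m => (.inr (.inl i) : KV m)) := fun i j h => by
    simpa using h
  refine le_trans ?_ (Set.encard_le_encard h1)
  rw [← Set.image_univ, h2.encard_image, Set.encard_univ]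
  simp

/-! ### primality -/

theorem sep {m : ℕ} : ∀ z u w : KV m, adjK z u → adjK z w → u ≠ w →
    ∃ t, ¬ adjK z t ∧ ((adjK t u ∧ ¬ adjK t w) ∨ (¬ adjK t u ∧ adjK t w))
  | .inl z, .inl u, .inl w, h1, h2, h3 => by
    have key : ∀ z u w : Fin 6, pathAdj z u = true → pathAdj z w = true → u ≠ w →
        ∃ t, pathAdj z t = false ∧ ((pathAdj t u = true ∧ pathAdj t w = false) ∨
          (pathAdj t u = false ∧ pathAdj t w = true)) := by decide
    obtain ⟨t, h4, h5⟩ := key z u w h1 h2 (fun h => h3 (congrArg Sum.inl h))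
    refine ⟨.inl t, ?_, ?_⟩
    · show ¬ pathAdj z t = true
      rw [h4]
      decide
    · rcases h5 with ⟨h5, h6⟩ | ⟨h5, h6⟩
      · exact Or.inl ⟨h5, fun h => by rw [show adjK _ _ = (pathAdj t w = true) from rfl, h6] at h; exact Bool.noConfusion h⟩
      · exact Or.inr ⟨fun h => by rw [show adjK _ _ = (pathAdj t u = true) from rfl, h5] at h; exact Bool.noConfusion h, h6⟩
  | .inl z, .inr (.inl i), .inl w, h1, h2, h3 => ⟨.inr (.inr i), fun h => h, Or.inl ⟨rfl, fun h => h⟩⟩
  | .inl z, .inl u, .inr (.inl i), h1, h2, h3 => ⟨.inr (.inr i), fun h => h, Or.inr ⟨fun h => h, rfl⟩⟩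
  | .inl z, .inr (.inl i), .inr (.inl j), h1, h2, h3 =>
    ⟨.inr (.inr i), fun h => h, Or.inl ⟨rfl, fun h => h3 (by rw [show i = j from h])⟩⟩
  | .inr (.inl i), .inl u, .inl w, h1, h2, h3 => by
    have key : ∀ u w : Fin 6, hub u = true → hub w = true → u ≠ w →
        (pathAdj 1 u = true ∧ pathAdj 1 w = false) ∨ (pathAdj 1 u = false ∧ pathAdj 1 w = true) := by decide
    refine ⟨.inl 1, by show ¬ hub 1 = true; decide, ?_⟩
    rcases key u w h1 h2 (fun h => h3 (congrArg Sum.inl h)) with ⟨h5, h6⟩ | ⟨h5, h6⟩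
    · exact Or.inl ⟨h5, fun h => by rw [show adjK _ _ = (pathAdj 1 w = true) from rfl, h6] at h; exact Bool.noConfusion h⟩
    · exact Or.inr ⟨fun h => by rw [show adjK _ _ = (pathAdj 1 u = true) from rfl, h5] at h; exact Bool.noConfusion h, h6⟩
  | .inr (.inl i), .inl u, .inr (.inr j), h1, h2, h3 => by
    have key : ∀ u : Fin 6, hub u = true → pathAdj 1 u = true ∨ pathAdj 4 u = true := by decide
    rcases key u h1 with h5 | h5
    · exact ⟨.inl 1, by show ¬ hub 1 = true; decide, Or.inl ⟨h5, fun h => h⟩⟩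
    · exact ⟨.inl 4, by show ¬ hub 4 = true; decide, Or.inl ⟨h5, fun h => h⟩⟩
  | .inr (.inl i), .inr (.inr j), .inl w, h1, h2, h3 => by
    have key : ∀ u : Fin 6, hub u = true → pathAdj 1 u = true ∨ pathAdj 4 u = true := by decide
    rcases key w h2 with h5 | h5
    · exact ⟨.inl 1, by show ¬ hub 1 = true; decide, Or.inr ⟨fun h => h, h5⟩⟩
    · exact ⟨.inl 4, by show ¬ hub 4 = true; decide, Or.inr ⟨fun h => h, h5⟩⟩
  | .inr (.inl i), .inr (.inr j), .inr (.inr k), h1, h2, h3 => by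
    have e1 : i = j := h1
    have e2 : i = k := h2
    exact absurd (by rw [← e1, ← e2]) h3
  | .inr (.inr i), .inr (.inl j), .inr (.inl k), h1, h2, h3 => by
    have e1 : i = j := h1
    have e2 : i = k := h2
    exact absurd (by rw [← e1, ← e2]) h3
  | .inl _, .inr (.inr _), _, h1, _, _ => h1.elim
  | .inl _, .inl _, .inr (.inr _), _, h2, _ => h2.elim
  | .inl _, .inr (.inl _), .inr (.inr _), _, h2, _ => h2.elim
  | .inr (.inl _), .inr (.inl _), _, h1, _, _ => h1.elim
  | .inr (.inl _), .inl _, .inr (.inl _), _, h2, _ => h2.elim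
  | .inr (.inl _), .inr (.inr _), .inr (.inl _), _, h2, _ => h2.elim
  | .inr (.inr _), .inl _, _, h1, _, _ => h1.elim
  | .inr (.inr _), .inr (.inr _), _, h1, _, _ => h1.elim
  | .inr (.inr _), .inr (.inl _), .inl _, _, h2, _ => h2.elim
  | .inr (.inr _), .inr (.inl _), .inr (.inr _), _, h2, _ => h2.elim

theorem K_prime (m : ℕ) : Prime (K m) := by
  intro M hM
  by_contra hcon
  rw [not_or] at hcon
  obtain ⟨h1, h2⟩ := hcon
  rw [Set.not_subsingleton_iff] at h1
  obtain ⟨u, hu, w, hw, huw⟩ := h1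
  obtain ⟨o, ho⟩ := (Set.ne_univ_iff_exists_notMem M).1 h2
  obtain ⟨p⟩ := (K_conn m).preconnected u o
  obtain ⟨d, _, hd1, hd2⟩ := p.exists_boundary_dart M hu ho
  have h3 : ∀ s ∈ M, (K m).Adj d.snd s := by
    rcases hM d.snd hd2 with h | h
    · exact h
    · exact absurd d.adj.symm (h _ hd1)
  obtain ⟨t, ht1, ht2⟩ := sep d.snd u w (h3 u hu) (h3 w hw) huw
  have ht : t ∉ M := fun h => ht1 (h3 t h)
  rcases hM t ht with h | h
  · rcases ht2 with ⟨_, h4⟩ | ⟨h4, _⟩
    · exact h4 (h w hw)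
    · exact h4 (h u hu)
  · rcases ht2 with ⟨h4, _⟩ | ⟨_, h4⟩
    · exact h u hu h4
    · exact h w hw h4

end Pool.Agent.H98.GI
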