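import Pool.Agent.H98.GI.Basic

/-!
# Graphs of diameter `6` and large degree without `K_4` and induced `S_{1,1,3}`
-/

set_option autoImplicit false

namespace Pool.Agent.H98.GI

/-- adjacency of the classes: `x p3 p2 v q1 q2 y a` -/
def A (i j : Fin 8) : Bool :=
  ([(0, 1), (1, 2), (2, 7), (7, 3), (7, 4), (3, 4), (4, 5), (5, 6)] : List (Fin 8 × Fin 8)).any fun e =>
    (e.1 == i && e.2 == j) || (e.1 == j && e.2 == i)

theorem A_symm : ∀ i j, A i j = A j i := by decide

theorem A_irrefl : ∀ i, A i i = false := by decide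

theorem no_K4 : ∀ a b, A a b = true → ∀ c, A a c = true → A b c = true → ∀ d, A a d = true → A b d = true →
    A c d = true → False := by decide

/-- equal classes only if both are `a` -/
def I (i j : Fin 8) : Bool := i != j || i == 7

def c2 (g0 g1 g2 : Fin 8) : Bool := A g0 g2 && !A g1 g2 && I g1 g2

def c3 (g0 g1 g2 g3 : Fin 8) : Bool := A g0 g3 && !A g1 g3 && !A g2 g3 && I g1 g3 && I g2 g3

def c4 (g0 g1 g2 g3 g4 : Fin 8) : Bool := A g3 g4 && !A g0 g4 && !A g1 g4 && !A g2 g4 && I g0 g4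

def c5 (g0 g1 g2 g3 g4 g5 : Fin 8) : Bool :=
  A g4 g5 && !A g0 g5 && !A g1 g5 && !A g2 g5 && !A g3 g5 && I g0 g5 && I g3 g5

theorem no_S : ∀ g0 g1, A g0 g1 = true → ∀ g2, c2 g0 g1 g2 = true → ∀ g3, c3 g0 g1 g2 g3 = true →
    ∀ g4, c4 g0 g1 g2 g3 g4 = true → ∀ g5, c5 g0 g1 g2 g3 g4 g5 = true → False := by decide +kernel

/-- the level of a class -/
def lev : Fin 8 → ℕ := ![0, 1, 2, 3, 4, 5, 6, 3]

theorem lev_le : ∀ i j, A i j = true → lev j ≤ lev i + 1 := by decide

/-- the class of a vertex -/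
def cl {m : ℕ} : Fin 7 ⊕ Fin (m + 1) → Fin 8
  | .inl i => i.castSucc
  | .inr _ => 7

/-- the path `x p3 p2 a q1 q2 y` with a vertex `v` adjacent to `a` and `q1`, and `m + 1` copies of `a` -/
def H (m : ℕ) : SimpleGraph (Fin 7 ⊕ Fin (m + 1)) where
  Adj u w := A (cl u) (cl w) = true
  symm := ⟨fun u w h => by rw [A_symm]; exact h⟩
  loopless := ⟨fun u h => by rw [A_irrefl] at h; exact Bool.noConfusion h⟩

theorem cl_inj {m : ℕ} {u w : Fin 7 ⊕ Fin (m + 1)} (huw : u ≠ w) (h : cl u = cl w) : cl u = 7 := by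
  rcases u with i | i
  · rcases w with j | j
    · exact absurd (congrArg Sum.inl (Fin.castSucc_injective 7 h)) huw
    · exact h
  · rfl

theorem H_clique (m : ℕ) : (H m).CliqueFree 4 := by
  rw [SimpleGraph.cliqueFree_iff]
  refine ⟨fun f => ?_⟩
  have h : ∀ i j : Fin 4, i ≠ j → A (cl (f i)) (cl (f j)) = true := fun i j hij =>
    f.toHom.map_adj (show (⊤ : SimpleGraph (Fin 4)).Adj i j from hij)
  exact no_K4 _ _ (h 0 1 (by decide)) _ (h 0 2 (by decide)) (h 1 2 (by decide)) _ (h 0 3 (by decide))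
    (h 1 3 (by decide)) (h 2 3 (by decide))

theorem H_S (m : ℕ) : S113Free (H m) := by
  rintro ⟨f⟩
  have h : ∀ i j : Fin 6, S113.Adj i j → A (cl (f i)) (cl (f j)) = true := fun i j hij => f.map_rel_iff.2 hij
  have h' : ∀ i j : Fin 6, ¬ S113.Adj i j → A (cl (f i)) (cl (f j)) = false := by
    intro i j hij
    rw [← Bool.not_eq_true]
    exact fun h => hij (f.map_rel_iff.1 h)
  have hi : ∀ i j : Fin 6, i ≠ j → I (cl (f i)) (cl (f j)) = true := by
    intro i j hij
    unfold I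
    by_cases h1 : cl (f i) = cl (f j)
    · have h2 := cl_inj (fun h => hij (f.injective h)) h1
      rw [h2]
      simp
    · simp [h1]
  refine no_S (cl (f 0)) (cl (f 1)) (h 0 1 (by simp [S113])) (cl (f 2)) ?_ (cl (f 3)) ?_ (cl (f 4)) ?_ (cl (f 5)) ?_
  · unfold c2
    rw [h 0 2 (by simp [S113]), h' 1 2 (by simp [S113]), hi 1 2 (by decide)]
    rfl
  · unfold c3
    rw [h 0 3 (by simp [S113]), h' 1 3 (by simp [S113]), h' 2 3 (by simp [S113]), hi 1 3 (by decide),
      hi 2 3 (by decide)]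
    rfl
  · unfold c4
    rw [h 3 4 (by simp [S113]), h' 0 4 (by simp [S113]), h' 1 4 (by simp [S113]), h' 2 4 (by simp [S113]),
      hi 0 4 (by decide)]
    rfl
  · unfold c5
    rw [h 4 5 (by simp [S113]), h' 0 5 (by simp [S113]), h' 1 5 (by simp [S113]), h' 2 5 (by simp [S113]),
      h' 3 5 (by simp [S113]), hi 0 5 (by decide), hi 3 5 (by decide)]
    rfl

theorem H_lev {m : ℕ} {u w : Fin 7 ⊕ Fin (m + 1)} (p : (H m).Walk u w) : lev (cl w) ≤ lev (cl u) + p.length := by
  induction p with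
  | nil => simp
  | cons h p ih =>
    have := lev_le _ _ h
    rw [SimpleGraph.Walk.length_cons]
    omega

theorem H_conn (m : ℕ) : (H m).Connected := by
  have key : ∀ u : Fin 7 ⊕ Fin (m + 1), (H m).Reachable u (.inl 4) := by
    have r3 : (H m).Reachable (.inl 3) (.inl 4) := SimpleGraph.Adj.reachable (by show A _ _ = true; rfl)
    have ra : ∀ i, (H m).Reachable (.inr i) (.inl 4) := fun i =>
      SimpleGraph.Adj.reachable (by show A _ _ = true; rfl)
    have r2 : (H m).Reachable (.inl 2) (.inl 4) :=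
      (SimpleGraph.Adj.reachable (show (H m).Adj (.inl 2) (.inr 0) from rfl)).trans (ra 0)
    have r1 : (H m).Reachable (.inl 1) (.inl 4) :=
      (SimpleGraph.Adj.reachable (show (H m).Adj (.inl 1) (.inl 2) from rfl)).trans r2
    have r0 : (H m).Reachable (.inl 0) (.inl 4) :=
      (SimpleGraph.Adj.reachable (show (H m).Adj (.inl 0) (.inl 1) from rfl)).trans r1
    have r5 : (H m).Reachable (.inl 5) (.inl 4) :=
      SimpleGraph.Adj.reachable (show (H m).Adj (.inl 5) (.inl 4) from rfl)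
    have r6 : (H m).Reachable (.inl 6) (.inl 4) :=
      (SimpleGraph.Adj.reachable (show (H m).Adj (.inl 6) (.inl 5) from rfl)).trans r5
    rintro (i | i)
    · fin_cases i
      · exact r0
      · exact r1
      · exact r2
      · exact r3
      · exact SimpleGraph.Reachable.refl _
      · exact r5
      · exact r6
    · exact ra i
  exact ⟨fun u w => (key u).trans (key w).symm⟩

theorem H_dist (m : ℕ) : (H m).dist (.inl 0) (.inl 6) = 6 := by
  refine le_antisymm ?_ ?_
  · have h1 : (H m).Adj (.inl 0) (.inl 1) := rfl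
    have h2 : (H m).Adj (.inl 1) (.inl 2) := rfl
    have h3 : (H m).Adj (.inl 2) (.inr 0) := rfl
    have h4 : (H m).Adj (.inr 0) (.inl 4) := rfl
    have h5 : (H m).Adj (.inl 4) (.inl 5) := rfl
    have h6 : (H m).Adj (.inl 5) (.inl 6) := rfl
    exact SimpleGraph.dist_le (.cons h1 (.cons h2 (.cons h3 (.cons h4 (.cons h5 (.cons h6 .nil))))))
  · obtain ⟨p, hp⟩ := (H_conn m).exists_walk_length_eq_dist (.inl 0) (.inl 6)
    have h1 : lev (cl (m := m) (.inl 6)) ≤ lev (cl (m := m) (.inl 0)) + p.length := H_lev p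
    have h2 : lev (cl (m := m) (.inl 6)) = 6 := rfl
    have h3 : lev (cl (m := m) (.inl 0)) = 0 := rfl
    omega

theorem H_deg (m : ℕ) : (m : ℕ∞) ≤ ((H m).neighborSet (.inl 3)).encard := by
  have h1 : Set.range (Sum.inr : Fin (m + 1) → Fin 7 ⊕ Fin (m + 1)) ⊆ (H m).neighborSet (.inl 3) := by
    rintro _ ⟨i, rfl⟩
    rfl
  refine le_trans ?_ (Set.encard_le_encard h1)
  rw [← Set.image_univ, Sum.inr_injective.encard_image, Set.encard_univ]
  simp only [ENat.card_eq_coe_fintype_card, Fintype.card_fin]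
  exact_mod_cast Nat.le_succ m

end Pool.Agent.H98.GI
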